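import Mathlib

/-!
# Conics `z² = a x² + b y²` and Legendre's descent over a polynomial ring
-/

open Polynomial

noncomputable section

namespace Pool.Agent.OneQ

/-- The conic `z² = a x² + b y²` has a point over `R`. -/
def Iso {R : Type*} [CommRing R] (a b : R) : Prop :=
  ∃ x y z : R, ¬ (x = 0 ∧ y = 0 ∧ z = 0) ∧ z ^ 2 = a * x ^ 2 + b * y ^ 2

theorem Iso.symm {R : Type*} [CommRing R] {a b : R} (h : Iso a b) : Iso b a := by
  obtain ⟨x, y, z, h0, h⟩ := h
  exact ⟨y, x, z, fun h' => h0 ⟨h'.2.1, h'.1, h'.2.2⟩, by rw [h]; ring⟩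

theorem Iso.map {R S : Type*} [CommRing R] [CommRing S] {a b : R} (f : R →+* S)
    (hf : Function.Injective f) (h : Iso a b) : Iso (f a) (f b) := by
  obtain ⟨x, y, z, h0, h⟩ := h
  refine ⟨f x, f y, f z, fun h' => h0 ?_, ?_⟩
  · rw [map_eq_zero_iff _ hf, map_eq_zero_iff _ hf, map_eq_zero_iff _ hf] at h'
    exact h'
  · rw [← map_pow, h]
    simp

/-- Removing a square factor. -/
theorem Iso.of_mul_sq {R : Type*} [CommRing R] [IsDomain R] {a b e : R} (he : e ≠ 0)
    (h : Iso a (e ^ 2 * b)) : Iso a b := by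
  obtain ⟨x, y, z, h0, h⟩ := h
  refine ⟨x, e * y, z, fun h' => h0 ⟨h'.1, ?_, h'.2.2⟩, by rw [h]; ring⟩
  exact (mul_eq_zero.1 h'.2.1).resolve_left he

/-- Adding a square factor. -/
theorem Iso.mul_sq {R : Type*} [CommRing R] [IsDomain R] {a b e : R} (he : e ≠ 0)
    (h : Iso a b) : Iso a (e ^ 2 * b) := by
  obtain ⟨x, y, z, h0, h⟩ := h
  refine ⟨e * x, y, e * z, fun h' => h0 ⟨?_, h'.2.1, ?_⟩, by rw [mul_pow, h]; ring⟩
  · exact (mul_eq_zero.1 h'.1).resolve_left he
  · exact (mul_eq_zero.1 h'.2.2).resolve_left he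

/-- The product with a norm. -/
theorem Iso.of_norm {R : Type*} [CommRing R] [IsDomain R] {a b b' c : R} (hb : b ≠ 0)
    (hb' : b' ≠ 0) (hc : c ^ 2 - a = b * b') (h : Iso a b) : Iso a b' := by
  obtain ⟨x, y, z, h0, h⟩ := h
  refine ⟨z + c * x, b * y, z * c + a * x, fun h' => h0 ?_, ?_⟩
  · obtain ⟨h1, h2, h3⟩ := h'
    have hy : y = 0 := (mul_eq_zero.1 h2).resolve_left hb
    have hx : x = 0 := by
      have h4 : (b * b') * x = 0 := by
        rw [← hc]
        linear_combination c * h1 - h3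
      exact (mul_eq_zero.1 h4).resolve_left (mul_ne_zero hb hb')
    refine ⟨hx, hy, ?_⟩
    rw [hx] at h1
    simpa using h1
  · have h1 : (z * c + a * x) ^ 2 - a * (z + c * x) ^ 2 =
        (z ^ 2 - a * x ^ 2) * (c ^ 2 - a) := by ring
    have h2 : z ^ 2 - a * x ^ 2 = b * y ^ 2 := by rw [h]; ring
    rw [h2, hc] at h1
    linear_combination h1

/-- Residues modulo a squarefree polynomial. -/
theorem exists_sqrt {k : Type*} [Field k] (a b : k[X]) (hb : b ≠ 0) (hsq : Squarefree b)
    (h : ∀ π, Irreducible π → π ∣ b → ∃ c, π ∣ c ^ 2 - a) : ∃ c, b ∣ c ^ 2 - a := by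
  revert hb hsq h
  refine UniqueFactorizationMonoid.induction_on_coprime (P := fun b => b ≠ 0 → Squarefree b →
    (∀ π, Irreducible π → π ∣ b → ∃ c, π ∣ c ^ 2 - a) → ∃ c, b ∣ c ^ 2 - a) b ?_ ?_ ?_ ?_
  · intro h
    exact absurd rfl h
  · intro x hx _ _ _
    exact ⟨0, hx.dvd⟩
  · intro p i hp _ hsq h
    by_cases hi : i = 0
    · exact ⟨0, by rw [hi, pow_zero]; exact one_dvd _⟩
    have hi1 : i = 1 := by
      by_contra hne
      have h2 : p * p ∣ p ^ i := by
        rw [← sq]
        exact pow_dvd_pow p (by omega)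
      exact hp.not_isUnit (hsq p h2)
    obtain ⟨c, hc⟩ := h p hp.irreducible (dvd_pow_self p hi)
    exact ⟨c, by rw [hi1, pow_one]; exact hc⟩
  · intro x y hxy hx hy h0 hsq h
    have hx0 : x ≠ 0 := left_ne_zero_of_mul h0
    have hy0 : y ≠ 0 := right_ne_zero_of_mul h0
    obtain ⟨c1, hc1⟩ := hx hx0 (hsq.squarefree_of_dvd (dvd_mul_right x y))
      (fun π hπ hd => h π hπ (hd.mul_right y))
    obtain ⟨c2, hc2⟩ := hy hy0 (hsq.squarefree_of_dvd (dvd_mul_left y x))
      (fun π hπ hd => h π hπ (hd.mul_left x))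
    have hcop : IsCoprime x y := isRelPrime_iff_isCoprime.1 hxy
    obtain ⟨u, v, huv⟩ := hcop
    refine ⟨c1 * (v * y) + c2 * (u * x), ?_⟩
    have hcop' : IsCoprime x y := ⟨u, v, huv⟩
    refine hcop'.mul_dvd ?_ ?_
    · obtain ⟨d, hd⟩ := hc1
      have e1 : v * y = 1 - u * x := by linear_combination huv
      refine ⟨d + (c2 - c1) * u * (2 * c1 + (c2 - c1) * u * x), ?_⟩
      rw [e1]
      linear_combination hd
    · obtain ⟨d, hd⟩ := hc2
      have e1 : u * x = 1 - v * y := by linear_combination huv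
      refine ⟨d + (c1 - c2) * v * (2 * c2 + (c1 - c2) * v * y), ?_⟩
      rw [e1]
      linear_combination hd

/-- **Legendre's descent.** -/
theorem descent {k Ω : Type*} [Field k] [Field Ω] (ρ : k[X] →+* Ω)
    (hρ : Function.Injective ρ)
    (H0 : ∀ α β : k, α ≠ 0 → β ≠ 0 → Iso (ρ (C α)) (ρ (C β)) → Iso (C α) (C β : k[X]))
    (H1 : ∀ a b π : k[X], a ≠ 0 → b ≠ 0 → Irreducible π → π ∣ b → ¬ π ^ 2 ∣ b →
      Iso (ρ a) (ρ b) → ∃ c, π ∣ c ^ 2 - a) (n : ℕ) :
    ∀ a b : k[X], a ≠ 0 → b ≠ 0 → a.natDegree + b.natDegree = n → Iso (ρ a) (ρ b) →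
      Iso a b := by
  induction n using Nat.strong_induction_on with
  | _ n ih =>
    -- the main case
    have main : ∀ a b : k[X], a ≠ 0 → b ≠ 0 → a.natDegree + b.natDegree = n →
        a.natDegree ≤ b.natDegree → Iso (ρ a) (ρ b) → Iso a b := by
      intro a b ha hb hn hab hI
      have hρne : ∀ p : k[X], p ≠ 0 → ρ p ≠ 0 := fun p hp => by
        rwa [Ne, map_eq_zero_iff _ hρ]
      by_cases hb0 : b.natDegree = 0
      · have ha0 : a.natDegree = 0 := by omega
        rw [eq_C_of_natDegree_eq_zero ha0, eq_C_of_natDegree_eq_zero hb0] at hI ⊢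
        refine H0 _ _ ?_ ?_ hI
        · intro h0
          apply ha
          rw [eq_C_of_natDegree_eq_zero ha0, h0, C_0]
        · intro h0
          apply hb
          rw [eq_C_of_natDegree_eq_zero hb0, h0, C_0]
      by_cases hsq : Squarefree b
      · obtain ⟨c, hc⟩ := exists_sqrt a b hb hsq (fun π hπ hd =>
          H1 a b π ha hb hπ hd (fun h2 => hπ.not_isUnit (hsq π (by rw [← sq]; exact h2))) hI)
        -- reduce `c`
        have hc' : b ∣ (c % b) ^ 2 - a := by
          have h1 : c = b * (c / b) + c % b := (EuclideanDomain.div_add_mod c b).symm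
          obtain ⟨d, hd⟩ := hc
          refine ⟨d - (c / b) * (b * (c / b) + 2 * (c % b)), ?_⟩
          rw [h1] at hd
          have h2 : (b * (c / b) + c % b) / b = c / b := by rw [← h1]
          have h3 : (b * (c / b) + c % b) % b = c % b := by rw [← h1]
          linear_combination hd
        obtain ⟨b', hb'⟩ := hc'
        by_cases hb'0 : b' = 0
        · refine ⟨1, 0, c % b, fun h => one_ne_zero h.1, ?_⟩
          rw [hb'0, mul_zero, sub_eq_zero] at hb'
          rw [hb']
          ring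
        · have hdeg : b'.natDegree < b.natDegree := by
            have h1 : (c % b).natDegree < b.natDegree := natDegree_mod_lt c hb0
            have h2 : ((c % b) ^ 2 - a).natDegree < 2 * b.natDegree := by
              refine lt_of_le_of_lt (natDegree_sub_le _ _) (max_lt ?_ (by omega))
              rw [natDegree_pow]
              omega
            rw [hb', natDegree_mul hb hb'0] at h2
            omega
          have h1 : Iso (ρ a) (ρ b') := by
            refine Iso.of_norm (c := ρ (c % b)) (hρne b hb) (hρne b' hb'0) ?_ hI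
            rw [← map_pow, ← map_sub, hb', map_mul]
          have h2 := ih _ (by omega) a b' ha hb'0 rfl h1
          refine Iso.of_norm (c := c % b) hb'0 hb ?_ h2
          rw [hb', mul_comm]
      · rw [squarefree_iff_irreducible_sq_not_dvd_of_ne_zero hb] at hsq
        push Not at hsq
        obtain ⟨π, hπ, hd⟩ := hsq
        obtain ⟨b', hb'⟩ := hd
        have hπ0 : π ≠ 0 := hπ.ne_zero
        have hb'0 : b' ≠ 0 := by
          rintro rfl
          rw [mul_zero] at hb'
          exact hb hb'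
        have hdeg : b'.natDegree < b.natDegree := by
          rw [hb', natDegree_mul (mul_ne_zero hπ0 hπ0) hb'0, natDegree_mul hπ0 hπ0]
          have := hπ.natDegree_pos
          omega
        rw [← sq] at hb'
        have h1 : Iso (ρ a) (ρ b') := by
          rw [hb', map_mul, map_pow] at hI
          exact hI.of_mul_sq (hρne π hπ0)
        have h2 := ih _ (by omega) a b' ha hb'0 rfl h1
        rw [hb']
        exact h2.mul_sq hπ0
    intro a b ha hb hn hI
    rcases le_total a.natDegree b.natDegree with h | h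
    · exact main a b ha hb hn h hI
    · exact (main b a hb ha (by omega) h hI.symm).symm

end Pool.Agent.OneQ
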