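import Mathlib
import Pool.Agent.CFT.FrobLite

/-!
# Primes of degree one with non-trivial Frobenius, outside thin sets of primes

The proofs follow `Pool.Agent.CFT.FrobLite`.
-/

open NumberField IsDedekindDomain Filter Topology

namespace Pool.Agent.OneQ

open CFT CFT.FL

open scoped Classical in
/-- The sum of the inverse norms of the places in `S` converges. -/
def Thin {K : Type*} [Field K] [NumberField K] (S : Set (Pl K)) : Prop :=
  Summable fun v : Pl K => if v ∈ S then ((Ideal.absNorm v.asIdeal : ℝ))⁻¹ else 0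

open scoped Classical in
lemma thin_finite {K : Type*} [Field K] [NumberField K] {S : Set (Pl K)} (hS : S.Finite) :
    Thin S := by
  refine summable_of_hasFiniteSupport ?_
  refine hS.subset fun v hv => ?_
  by_contra h
  exact hv (if_neg h)

open scoped Classical in
lemma thin_union {K : Type*} [Field K] [NumberField K] {S T : Set (Pl K)}
    (hS : Thin S) (hT : Thin T) : Thin (S ∪ T) := by
  unfold Thin at hS hT ⊢
  refine Summable.of_nonneg_of_le (fun v => ?_) (fun v => ?_) (hS.add hT)
  · split_ifs
    · positivity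
    · exact le_rfl
  · have hc : 0 ≤ ((Ideal.absNorm v.asIdeal : ℝ))⁻¹ := by positivity
    by_cases h1 : v ∈ S <;> by_cases h2 : v ∈ T <;> simp [h1, h2]

lemma nr_le_inv {K : Type*} [Field K] [NumberField K] (v : Pl K) {s : ℝ} (hs : 1 < s) :
    nr v.asIdeal s ≤ ((Ideal.absNorm v.asIdeal : ℝ))⁻¹ := by
  have h : Ideal.absNorm v.asIdeal ≠ 0 := by
    rw [Ne, Ideal.absNorm_eq_zero_iff]
    exact v.ne_bot
  have h1 : (1 : ℝ) ≤ Ideal.absNorm v.asIdeal := by exact_mod_cast Nat.one_le_iff_ne_zero.2 h
  rw [nr, ← Real.rpow_neg_one]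
  exact Real.rpow_le_rpow_of_exponent_le h1 (by linarith)

section aux

open scoped Classical

variable {K M : Type*} [Field K] [NumberField K] [Field M] [NumberField M] [Algebra K M]

/-- If the places of degree one over `ℚ` outside a set with convergent sum of inverse norms are
unramified and split into places of degree one, then the degree is at most one. -/
lemma finrank_le_one_of_split' (S : Set (Pl K))
    (hS : Thin S)
    (he : ∀ w' : Pl M, bl K M w' ∉ S → w'.asIdeal.ramificationIdx (𝓞 K) = 1)
    (hf : ∀ w' : Pl M, bl K M w' ∉ S → (Ideal.absNorm (bl K M w').asIdeal).Prime →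
      w'.asIdeal.inertiaDeg (𝓞 K) = 1) :
    Module.finrank K M ≤ 1 := by
  classical
  by_contra hlt
  rw [not_le] at hlt
  obtain ⟨C1, h1⟩ := prime_sum K
  obtain ⟨C2, h2⟩ := prime_sum M
  obtain ⟨C3, h3⟩ := prime_sum_deg K
  -- the summand supported on good places
  set g : ℝ → Pl K → ℝ := fun s v =>
    if v ∉ S ∧ (Ideal.absNorm v.asIdeal).Prime then nr v.asIdeal s else 0 with hg
  have hg0 : ∀ s v, 0 ≤ g s v := by
    intro s v
    simp only [hg]
    split_ifs
    · exact nr_nonneg' _ _
    · exact le_rfl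
  -- lower bound for the sum over good places
  have key1 : ∀ s : ℝ, 1 < s → ∑' v : Pl K, nr v.asIdeal s
      ≤ ∑' v : Pl K, g s v + C3 + (∑' v : Pl K, if v ∈ S then ((Ideal.absNorm v.asIdeal : ℝ))⁻¹ else 0) := by
    intro s hs
    have hs1 := summable_nr_pl K hs
    have hsg : Summable (g s) := by
      refine Summable.of_nonneg_of_le (hg0 s) (fun v => ?_) hs1
      simp only [hg]
      split_ifs
      · exact le_rfl
      · exact nr_nonneg' _ _
    have hsd : Summable fun v : Pl K =>
        (if (Ideal.absNorm v.asIdeal).Prime then 0 else nr v.asIdeal s) := by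
      refine Summable.of_nonneg_of_le (fun v => ?_) (fun v => ?_) hs1
      · split_ifs
        · exact le_rfl
        · exact nr_nonneg' _ _
      · split_ifs
        · exact nr_nonneg' _ _
        · exact le_rfl
    have hsS := hS
    have hle : ∀ v : Pl K, nr v.asIdeal s ≤ g s v
        + (if (Ideal.absNorm v.asIdeal).Prime then 0 else nr v.asIdeal s)
        + (if v ∈ S then ((Ideal.absNorm v.asIdeal : ℝ))⁻¹ else 0) := by
      intro v
      simp only [hg]
      have ha := nr_nonneg' v.asIdeal s
      have hb := nr_le_inv v hs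
      have hc : 0 ≤ ((Ideal.absNorm v.asIdeal : ℝ))⁻¹ := by positivity
      by_cases hp : (Ideal.absNorm v.asIdeal).Prime <;> by_cases hv : v ∈ S <;>
        (simp [hp, hv]; try linarith)
    calc ∑' v : Pl K, nr v.asIdeal s ≤ ∑' v : Pl K, (g s v
        + (if (Ideal.absNorm v.asIdeal).Prime then 0 else nr v.asIdeal s)
        + (if v ∈ S then ((Ideal.absNorm v.asIdeal : ℝ))⁻¹ else 0)) :=
          Summable.tsum_le_tsum hle hs1 ((hsg.add hsd).add hsS)
      _ = ∑' v : Pl K, g s v
        + ∑' v : Pl K, (if (Ideal.absNorm v.asIdeal).Prime then 0 else nr v.asIdeal s)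
        + ∑' v : Pl K, (if v ∈ S then ((Ideal.absNorm v.asIdeal : ℝ))⁻¹ else 0) := by
          rw [Summable.tsum_add (hsg.add hsd) hsS, Summable.tsum_add hsg hsd]
      _ ≤ ∑' v : Pl K, g s v + C3 + (∑' v : Pl K, if v ∈ S then ((Ideal.absNorm v.asIdeal : ℝ))⁻¹ else 0) := by
          have := h3 s hs
          linarith
  -- upper bound by the places of `M`
  have key2 : ∀ s : ℝ, 1 < s → (Module.finrank K M : ℝ) * ∑' v : Pl K, g s v
      ≤ ∑' w' : Pl M, nr w'.asIdeal s := by
    intro s hs
    have hs2 := summable_nr_pl M hs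
    have hle : ∀ w' : Pl M, g s (bl K M w') ≤ nr w'.asIdeal s := by
      intro w'
      simp only [hg]
      split_ifs with h
      · rw [nr, nr, absNorm_bl w' (hf w' h.1 h.2)]
      · exact nr_nonneg' _ _
    have hsb : Summable fun w' : Pl M => g s (bl K M w') :=
      Summable.of_nonneg_of_le (fun w' => hg0 s _) hle hs2
    have hsig : Summable fun x : (Σ v : Pl K, {w' : Pl M // bl K M w' = v}) =>
        g s (bl K M ((Equiv.sigmaFiberEquiv (bl K M)) x)) :=
      (Equiv.summable_iff (Equiv.sigmaFiberEquiv (bl K M))).2 hsb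
    have h4 : ∑' w' : Pl M, g s (bl K M w') = ∑' v : Pl K, (Module.finrank K M : ℝ) * g s v := by
      rw [← (Equiv.sigmaFiberEquiv (bl K M)).tsum_eq (fun w' => g s (bl K M w')), hsig.tsum_sigma]
      refine tsum_congr fun v => ?_
      have h5 : ∀ c : {w' : Pl M // bl K M w' = v},
          g s (bl K M ((Equiv.sigmaFiberEquiv (bl K M)) ⟨v, c⟩)) = g s v := by
        intro c
        exact congrArg (g s) c.2
      rw [tsum_congr h5, tsum_const, nsmul_eq_mul]
      by_cases hv : v ∉ S ∧ (Ideal.absNorm v.asIdeal).Prime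
      · rw [card_fib v (fun w' hw' => he w' (by rw [hw']; exact hv.1))
          (fun w' hw' => hf w' (by rw [hw']; exact hv.1) (by rw [hw']; exact hv.2))]
      · have : g s v = 0 := if_neg hv
        rw [this, mul_zero, mul_zero]
    rw [tsum_mul_left] at h4
    rw [← h4]
    exact Summable.tsum_le_tsum hle hsb hs2
  -- conclusion
  have h6 : Tendsto (fun s : ℝ => Real.log (1 / (s - 1))) (𝓝[>] 1) atTop := by
    refine Real.tendsto_log_atTop.comp ?_
    simp only [one_div]
    refine tendsto_inv_nhdsGT_zero.comp ?_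
    rw [tendsto_nhdsWithin_iff]
    constructor
    · have : Tendsto (fun s : ℝ => s - 1) (𝓝 1) (𝓝 (1 - 1)) :=
        (continuous_id.sub continuous_const).tendsto 1
      rw [sub_self] at this
      exact this.mono_left nhdsWithin_le_nhds
    · filter_upwards [self_mem_nhdsWithin] with s hs
      exact Set.mem_Ioi.2 (sub_pos.2 (Set.mem_Ioi.1 hs))
  have h7 := h6.eventually_gt_atTop (C2 + 2 * (C1 + C3 + (∑' v : Pl K, if v ∈ S then ((Ideal.absNorm v.asIdeal : ℝ))⁻¹ else 0)))
  have h8 : ∀ᶠ s in 𝓝[>] (1 : ℝ), 1 < s := self_mem_nhdsWithin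
  obtain ⟨s, hs1, hs2, hs7, hs⟩ := (h1.and (h2.and (h7.and h8))).exists
  have k1 := key1 s hs
  have k2 := key2 s hs
  rw [abs_le] at hs1 hs2
  have hd : (2 : ℝ) ≤ Module.finrank K M := by exact_mod_cast hlt
  have hG : 0 ≤ ∑' v : Pl K, g s v := tsum_nonneg (hg0 s)
  have k3 : 2 * ∑' v : Pl K, g s v ≤ (Module.finrank K M : ℝ) * ∑' v : Pl K, g s v :=
    mul_le_mul_of_nonneg_right hd hG
  linarith [hs1.1, hs2.2]

end aux

open scoped Classical

variable (K M : Type*) [Field K] [NumberField K] [Field M] [NumberField M] [Algebra K M]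
  [IsGalois K M]

/-- Primes of degree one with non-trivial Frobenius exist outside every set of primes with
convergent sum of inverse norms. -/
theorem exists_frob' {p : ℕ} [Fact p.Prime] (θ : Gal(M/K) →* Multiplicative (ZMod p))
    (hθ : Function.Surjective θ) {S : Set (Pl K)}
    (hS : Thin S) :
    ∃ v : Pl K, v ∉ S ∧ (Ideal.absNorm v.asIdeal).Prime ∧ Unr K M v ∧ θ (frob K M v) ≠ 1 := by
  classical
  by_contra hcon
  push Not at hcon
  set N : IntermediateField K M := IntermediateField.fixedField θ.ker with hN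
  have hM : ∀ g : Gal(M/K), θ g = 1 ↔ g ∈ N.fixingSubgroup := by
    intro g
    rw [hN, IntermediateField.fixingSubgroup_fixedField, MonoidHom.mem_ker]
  have hlies : ∀ w : Pl M, w.asIdeal.LiesOver (bl N M w).asIdeal := fun w => lies_bl w
  have hunr : ∀ v' : Pl N, Unr K M (bl K N v') → v'.asIdeal.ramificationIdx (𝓞 K) = 1 := by
    intro v' hv'
    obtain ⟨w, hw⟩ := bl_surjective N M v'
    have h1 : bl K M w = bl K N v' := by rw [← hw, bl_bl]
    have h2 := hv' w h1
    have h3 : w.asIdeal.LiesOver v'.asIdeal := by rw [← hw]; exact lies_bl w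
    rw [Ideal.ramificationIdx_tower (R := 𝓞 K) v'.asIdeal w.asIdeal] at h2
    exact Nat.eq_one_of_mul_eq_one_right h2
  have hle := finrank_le_one_of_split' (K := K) (M := N) (S ∪ {v | ¬ Unr K M v})
    (thin_union hS (thin_finite (finite_ram K M)))
    (fun w' hw' => by
      rw [Set.mem_union, not_or] at hw'
      exact hunr w' (not_not.1 hw'.2))
    (fun w' hw' hpr => by
      rw [Set.mem_union, not_or] at hw'
      have hU : Unr K M (bl K N w') := not_not.1 hw'.2
      exact inertiaDeg_eq_one θ N hM (bl K N w') (hcon _ hw'.1 hpr hU) hU w' rfl)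
  have h1 : Module.finrank K N = p := by
    have h2 : Module.finrank K N = θ.ker.index := by
      rw [IntermediateField.finrank_eq_fixingSubgroup_index, hN,
        IntermediateField.fixingSubgroup_fixedField]
    rw [h2, Subgroup.index_ker, MonoidHom.range_eq_top.2 hθ]
    simp
  have hp := (Fact.out : p.Prime).two_le
  omega

end Pool.Agent.OneQ
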