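import Mathlib
import Pool.Agent.OneQ.Frob2

/-!
# Primes of degree one modulo which a non-square is not a square
-/

open NumberField IsDedekindDomain Polynomial

namespace Pool.Agent.OneQ

open CFT CFT.FL

theorem finite_dvd {L : Type*} [Field L] [NumberField L] (x : 𝓞 L) (hx : x ≠ 0) :
    {v : Pl L | x ∈ v.asIdeal}.Finite := by
  have h1 : {v : Pl L | v.asIdeal ∣ Ideal.span {x}}.Finite :=
    Ideal.finite_factors (by
      rw [Ne, ← Ideal.zero_eq_bot.symm, Ideal.span_singleton_eq_bot]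
      exact hx)
  refine h1.subset fun v hv => ?_
  rw [Set.mem_ofPred_eq, Ideal.dvd_iff_le, Ideal.span_singleton_le_iff_mem]
  exact hv

open scoped Classical in
theorem exists_nonres {L : Type*} [Field L] [NumberField L] (α : 𝓞 L)
    (hα : ¬ IsSquare (α : L)) (S : Set (Pl L))
    (hS : Thin S) :
    ∃ v : Pl L, v ∉ S ∧ (Ideal.absNorm v.asIdeal).Prime ∧
      ∀ s : ℤ, α - (s : 𝓞 L) ^ 2 ∉ v.asIdeal := by
  have hne : ∀ b : L, b ^ 2 ≠ (α : L) := fun b hb => hα ⟨b, by rw [← hb, sq]⟩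
  have hirr : Irreducible (X ^ 2 - C (α : L)) :=
    X_pow_sub_C_irreducible_of_prime Nat.prime_two hne
  have := Fact.mk hirr
  let M := AdjoinRoot (X ^ 2 - C (α : L))
  have hmonic : (X ^ 2 - C (α : L)).Monic := monic_X_pow_sub_C _ two_ne_zero
  have : Module.Finite L M := hmonic.finite_adjoinRoot
  have hdeg : Module.finrank L M = 2 := by
    rw [(AdjoinRoot.powerBasis' hmonic).finrank, AdjoinRoot.powerBasis'_dim,
      natDegree_X_pow_sub_C]
  have : NumberField M := NumberField.of_module_finite L M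
  have : Module.Free L M := inferInstance
  have : Algebra.IsQuadraticExtension L M := ⟨hdeg⟩
  have : IsGalois L M := inferInstance
  set y : M := AdjoinRoot.root (X ^ 2 - C (α : L)) with hy
  have hy2 : y ^ 2 = algebraMap L M α := by
    have h1 := AdjoinRoot.eval₂_root (X ^ 2 - C (α : L))
    rw [eval₂_sub, eval₂_pow, eval₂_X, eval₂_C, sub_eq_zero] at h1
    exact h1
  have hyint : IsIntegral ℤ y := by
    have h1 : IsIntegral ℤ (y ^ 2) := by
      rw [hy2]
      exact (RingOfIntegers.isIntegral_coe α).algebraMap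
    exact h1.of_pow (by norm_num)
  let yy : 𝓞 M := ⟨y, hyint⟩
  have hyy2 : yy ^ 2 = algebraMap (𝓞 L) (𝓞 M) α := by
    apply RingOfIntegers.ext
    exact hy2
  have hα0 : α ≠ 0 := by
    rintro rfl
    exact hα ⟨0, by simp⟩
  -- the character
  have hcard : Nat.card Gal(M/L) = 2 := by
    rw [IsGalois.card_aut_eq_finrank, hdeg]
  let e : Gal(M/L) ≃* Multiplicative (ZMod 2) :=
    have : Fact (Nat.Prime 2) := ⟨Nat.prime_two⟩
    mulEquivOfPrimeCardEq (p := 2) hcard (by simp)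
  have : Fact (Nat.Prime 2) := ⟨Nat.prime_two⟩
  obtain ⟨v, hv, hpr, hun, hfr⟩ := exists_frob' L M (e : Gal(M/L) →* Multiplicative (ZMod 2))
    e.surjective (S := S ∪ ({v : Pl L | (2 : 𝓞 L) ∈ v.asIdeal} ∪ {v : Pl L | α ∈ v.asIdeal}))
    (thin_union hS (thin_finite
      ((finite_dvd (2 : 𝓞 L) two_ne_zero).union (finite_dvd α hα0))))
  rw [Set.mem_union, Set.mem_union, not_or, not_or] at hv
  obtain ⟨hvS, hv2, hvα⟩ := hv
  simp only [Set.mem_ofPred_eq] at hv2 hvα
  refine ⟨v, hvS, hpr, fun s hs => ?_⟩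
  set g := frob L M v with hg
  have hg1 : g ≠ 1 := by
    intro h
    apply hfr
    rw [h, map_one]
  have hgy : g y = - y := by
    have h1 : (g y) ^ 2 = y ^ 2 := by
      rw [← map_pow, hy2]
      exact g.commutes _
    rcases sq_eq_sq_iff_eq_or_eq_neg.1 h1 with h2 | h2
    · exfalso
      apply hg1
      apply AlgEquiv.ext
      intro x
      have h3 : (g : M →ₐ[L] M) = AlgHom.id L M := by
        apply AdjoinRoot.algHom_ext
        exact h2
      exact DFunLike.congr_fun h3 x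
    · exact h2
  have hgyy : g • yy = - yy := by
    apply RingOfIntegers.ext
    exact hgy
  -- the place above
  set w := up L M v with hw
  have hwv : bl L M w = v := bl_up L M v
  have hlies : w.asIdeal.LiesOver v.asIdeal := by
    have := lies_bl (K := L) w
    rwa [hwv] at this
  have hmem : ∀ x : 𝓞 L, algebraMap (𝓞 L) (𝓞 M) x ∈ w.asIdeal ↔ x ∈ v.asIdeal := by
    intro x
    rw [hlies.over]
    rfl
  have hwprime : w.asIdeal.IsPrime := w.isPrime
  have hfrob := (isArithFrobAt_iff g w).1 (frob_spec L M v) yy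
  rw [hwv, hgyy] at hfrob
  set p := Ideal.absNorm v.asIdeal with hp
  have hpodd : Odd p := by
    rcases hpr.eq_two_or_odd' with h2 | h2
    · exfalso
      apply hv2
      have h3 := Ideal.absNorm_mem v.asIdeal
      rw [← hp, h2] at h3
      exact_mod_cast h3
    · exact h2
  have hpmem : (p : 𝓞 M) ∈ w.asIdeal := by
    have h3 := Ideal.absNorm_mem v.asIdeal
    have h4 := (hmem _).2 h3
    rwa [map_natCast] at h4
  have hsp : (s : 𝓞 M) ^ p - (s : 𝓞 M) ∈ w.asIdeal := by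
    have := Fact.mk hpr
    have h3 : ((s ^ p - s : ℤ) : ZMod p) = 0 := by
      push_cast
      rw [ZMod.pow_card, sub_self]
    rw [ZMod.intCast_zmod_eq_zero_iff_dvd] at h3
    obtain ⟨c, hc⟩ := h3
    have h4 : (s : 𝓞 M) ^ p - (s : 𝓞 M) = (p : 𝓞 M) * (c : 𝓞 M) := by
      have h5 := congrArg (fun z : ℤ => (z : 𝓞 M)) hc
      push_cast at h5
      exact h5
    rw [h4]
    exact Ideal.mul_mem_right _ _ hpmem
  have hprod : (yy - (s : 𝓞 M)) * (yy + (s : 𝓞 M)) ∈ w.asIdeal := by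
    have h3 := (hmem _).2 hs
    have h4 : (yy - (s : 𝓞 M)) * (yy + (s : 𝓞 M)) =
        algebraMap (𝓞 L) (𝓞 M) (α - (s : 𝓞 L) ^ 2) := by
      rw [map_sub, ← hyy2, map_pow, map_intCast]
      ring
    rw [h4]
    exact h3
  -- `2 y` is in `w`
  have h2y : 2 * yy ∈ w.asIdeal := by
    rcases hwprime.mem_or_mem hprod with h | h
    · have h3 : yy ^ p - (s : 𝓞 M) ^ p ∈ w.asIdeal :=
        Ideal.mem_of_dvd _ (sub_dvd_pow_sub_pow yy (s : 𝓞 M) p) h
      have h4 : 2 * yy = (yy - (s : 𝓞 M)) -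
          ((- yy - yy ^ p) + (yy ^ p - (s : 𝓞 M) ^ p) + ((s : 𝓞 M) ^ p - (s : 𝓞 M))) := by ring
      rw [h4]
      exact sub_mem h (add_mem (add_mem hfrob h3) hsp)
    · have h3 : yy ^ p + (s : 𝓞 M) ^ p ∈ w.asIdeal :=
        Ideal.mem_of_dvd _ (hpodd.add_dvd_pow_add_pow yy (s : 𝓞 M)) h
      have h4 : 2 * yy = (yy + (s : 𝓞 M)) -
          ((- yy - yy ^ p) + (yy ^ p + (s : 𝓞 M) ^ p) - ((s : 𝓞 M) ^ p - (s : 𝓞 M))) := by ring
      rw [h4]
      exact sub_mem h (sub_mem (add_mem hfrob h3) hsp)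
  have hyw : yy ∈ w.asIdeal := by
    rcases hwprime.mem_or_mem h2y with h | h
    · exfalso
      apply hv2
      rw [← hmem, map_ofNat]
      exact h
    · exact h
  apply hvα
  rw [← hmem, ← hyy2]
  have h5 : yy ^ 2 = yy * yy := sq yy
  rw [h5]
  exact Ideal.mul_mem_left _ _ hyw

end Pool.Agent.OneQ
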