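import Mathlib

/-!
# Quantifier-free formulas and sets of integers of density zero
-/

noncomputable section

namespace Pool.Agent.OneQ

/-- The number of elements of `T` in `[1, N]` is `o(N)`. -/
def DZ (T : Set ℤ) : Prop :=
  ∀ ε : ℝ, 0 < ε → ∃ N₀ : ℕ, ∀ N : ℕ, N₀ ≤ N → ((T ∩ Set.Icc 1 (N : ℤ)).ncard : ℝ) ≤ ε * N

/-- Quantifier-free formulas: Boolean combinations of polynomial equations in the variables `σ`
with parameters from `K`. -/
inductive QF (K : Type*) [CommSemiring K] (σ : Type*) : Type _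
  | eq (P : MvPolynomial σ K) : QF K σ
  | not (ψ : QF K σ) : QF K σ
  | and (ψ χ : QF K σ) : QF K σ

/-- Truth in the ring `A` at the point `v`; the parameters are mapped to `A` by `f`. -/
def QF.Holds {K σ A : Type*} [CommSemiring K] [CommSemiring A] (f : K →+* A) (v : σ → A) :
    QF K σ → Prop
  | .eq P => P.eval₂ f v = 0
  | .not ψ => ¬ ψ.Holds f v
  | .and ψ χ => ψ.Holds f v ∧ χ.Holds f v

end Pool.Agent.OneQ
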