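import Mathlib
import Pool.Agent.OneQ.Defs
import Pool.Agent.MP1bdb59C.HitInt
import Pool.Agent.MP1bdb59C.HitRed2

/-!
# Sets of integers of density zero, and specialisations without roots
-/

open Polynomial

noncomputable section

open scoped Classical

namespace Pool.Agent.OneQ

open Pool.Agent.MP1bdb59C

theorem fin_inter (T : Set ℤ) (N : ℕ) : (T ∩ Set.Icc 1 (N : ℤ)).Finite :=
  (Set.finite_Icc _ _).subset Set.inter_subset_right

theorem DZ.mono {T T' : Set ℤ} (h : T' ⊆ T) (hT : DZ T) : DZ T' := by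
  intro ε hε
  obtain ⟨N₀, h₀⟩ := hT ε hε
  refine ⟨N₀, fun N hN => le_trans ?_ (h₀ N hN)⟩
  exact_mod_cast Set.ncard_le_ncard (Set.inter_subset_inter_left _ h) (fin_inter T N)

theorem DZ.union {T T' : Set ℤ} (hT : DZ T) (hT' : DZ T') : DZ (T ∪ T') := by
  intro ε hε
  obtain ⟨N₀, h₀⟩ := hT (ε / 2) (by positivity)
  obtain ⟨N₁, h₁⟩ := hT' (ε / 2) (by positivity)
  refine ⟨max N₀ N₁, fun N hN => ?_⟩
  have e0 := h₀ N (le_trans (le_max_left _ _) hN)
  have e1 := h₁ N (le_trans (le_max_right _ _) hN)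
  rw [Set.union_inter_distrib_right]
  have e3 : ((T ∩ Set.Icc 1 (N : ℤ) ∪ T' ∩ Set.Icc 1 (N : ℤ)).ncard : ℝ) ≤
      ((T ∩ Set.Icc 1 (N : ℤ)).ncard : ℝ) + ((T' ∩ Set.Icc 1 (N : ℤ)).ncard : ℝ) := by
    exact_mod_cast Set.ncard_union_le _ _
  linarith

theorem DZ.finite {T : Set ℤ} (hT : T.Finite) : DZ T := by
  intro ε hε
  obtain ⟨N₀, h₀⟩ := exists_nat_ge ((T.ncard : ℝ) / ε)
  refine ⟨N₀, fun N hN => ?_⟩
  have e1 : ((T ∩ Set.Icc 1 (N : ℤ)).ncard : ℝ) ≤ (T.ncard : ℝ) := by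
    exact_mod_cast Set.ncard_le_ncard Set.inter_subset_left hT
  have e2 : (T.ncard : ℝ) ≤ ε * N₀ := by
    rw [div_le_iff₀ hε] at h₀
    linarith
  have e3 : (N₀ : ℝ) ≤ N := by exact_mod_cast hN
  nlinarith

theorem DZ.biUnion {ι : Type*} (s : Finset ι) (T : ι → Set ℤ) (h : ∀ i ∈ s, DZ (T i)) :
    DZ {x | ∃ i ∈ s, x ∈ T i} := by
  induction s using Finset.induction_on with
  | empty => exact DZ.finite (by simp)
  | insert a s ha ih =>
    have h1 := (h a (Finset.mem_insert_self _ _)).union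
      (ih fun i hi => h i (Finset.mem_insert_of_mem hi))
    refine h1.mono ?_
    rintro x ⟨i, hi, hx⟩
    rcases Finset.mem_insert.1 hi with rfl | hi
    · exact Or.inl hx
    · exact Or.inr ⟨i, hi, hx⟩

theorem ncard_Icc (N : ℕ) : (Set.Icc 1 (N : ℤ)).ncard = N := by
  rw [← Finset.coe_Icc, Set.ncard_coe_finset, Int.card_Icc]
  simp

theorem DZ.exists_notMem {T : Set ℤ} (hT : DZ T) : ∃ x, x ∉ T := by
  by_contra hcon
  push Not at hcon
  obtain ⟨N₀, h₀⟩ := hT (1 / 2) (by norm_num)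
  have h1 := h₀ (N₀ + 1) (by omega)
  have h2 : T ∩ Set.Icc 1 ((N₀ + 1 : ℕ) : ℤ) = Set.Icc 1 ((N₀ + 1 : ℕ) : ℤ) :=
    Set.inter_eq_right.2 fun x _ => hcon x
  rw [h2, ncard_Icc] at h1
  push_cast at h1
  have : (0 : ℝ) ≤ N₀ := Nat.cast_nonneg _
  linarith

/-- Integral polynomials. -/
theorem dz_int (g : ℤ[X][X]) (hg : g.Monic) (hn : 2 ≤ g.natDegree) (hirr : IrrOver ℤ ℚ g) :
    DZ {c : ℤ | ∃ y : ℤ, (g.map (evalRingHom c)).eval y = 0} := by
  obtain ⟨B, E, hBE⟩ := hi_count g hg hn hirr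
  intro ε hε
  obtain ⟨A, hA⟩ := exists_nat_ge (4 * (B : ℝ) / ε + 1)
  have hA1 : 1 ≤ A := by
    have h1 : (1 : ℝ) ≤ A := le_trans (by have : 0 ≤ 4 * (B : ℝ) / ε := by positivity
                                          linarith) hA
    exact_mod_cast h1
  have hA2 : 4 * (B : ℝ) ≤ ε * A := by
    have h1 : 4 * (B : ℝ) / ε ≤ A := by linarith
    rw [div_le_iff₀ hε] at h1
    linarith
  obtain ⟨Q, hQ⟩ := hBE A hA1
  obtain ⟨M, hM⟩ := exists_nat_ge ((2 * (B : ℝ) + A * E) / (ε / 2))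
  refine ⟨A * Q + M, fun N hN => ?_⟩
  obtain ⟨q, hq, hq1, hq2⟩ := Nat.exists_prime_lt_and_le_two_mul (N / A + 1)
    (Nat.succ_ne_zero _)
  have hA0 : 0 < A := hA1
  have hNA : N < A * (N / A + 1) := by
    have := Nat.lt_mul_div_succ N hA0
    exact this
  have hNq : N ≤ A * q := le_trans hNA.le (Nat.mul_le_mul_left _ hq1.le)
  have hQq : Q ≤ q := by
    have h1 : Q ≤ N / A := (Nat.le_div_iff_mul_le hA0).2 (by rw [mul_comm]; omega)
    omega
  have h1 := hQ q hq hQq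
  have h2 : ({c : ℤ | ∃ y : ℤ, (g.map (evalRingHom c)).eval y = 0} ∩
      Set.Icc 1 (N : ℤ)).ncard ≤ q * B + A * E := by
    refine le_trans ?_ h1
    rw [← Set.ncard_coe_finset]
    refine Set.ncard_le_ncard ?_ (Finset.finite_toSet _)
    intro c hc
    rw [Finset.coe_filter]
    refine ⟨Finset.mem_Icc.2 ⟨hc.2.1, le_trans hc.2.2 ?_⟩, hc.1⟩
    exact_mod_cast hNq
  have h3 : (({c : ℤ | ∃ y : ℤ, (g.map (evalRingHom c)).eval y = 0} ∩
      Set.Icc 1 (N : ℤ)).ncard : ℝ) ≤ q * B + A * E := by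
    exact_mod_cast h2
  refine h3.trans ?_
  have h4 : (q : ℝ) ≤ 2 * (N / A + 1) := by
    have e1 : (q : ℝ) ≤ ((2 * (N / A + 1) : ℕ) : ℝ) := by exact_mod_cast hq2
    refine e1.trans ?_
    push_cast
    have := Nat.cast_div_le (α := ℝ) (m := N) (n := A)
    linarith
  have hAr : (0 : ℝ) < A := by exact_mod_cast hA0
  have h5 : (q : ℝ) * B ≤ 2 * (N / A + 1) * B := mul_le_mul_of_nonneg_right h4 (Nat.cast_nonneg _)
  have h6 : 2 * ((N : ℝ) / A) * B ≤ ε / 2 * N := by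
    have e1 : 2 * ((N : ℝ) / A) * B = (4 * B) * (N / (2 * A)) := by
      field_simp
      ring
    rw [e1]
    have e2 : (4 * (B : ℝ)) * (N / (2 * A)) ≤ (ε * A) * (N / (2 * A)) :=
      mul_le_mul_of_nonneg_right hA2 (by positivity)
    refine e2.trans (le_of_eq ?_)
    field_simp
  have h7 : 2 * (B : ℝ) + A * E ≤ ε / 2 * N := by
    rw [div_le_iff₀ (by positivity)] at hM
    have : (M : ℝ) ≤ N := by
      have : M ≤ N := by omega
      exact_mod_cast this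
    nlinarith
  nlinarith

end Pool.Agent.OneQ
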