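import Mathlib
import Pool.Agent.OneQ.Dens

/-!
# A sieve modulo squares of primes
-/

open Finset

noncomputable section

open scoped Classical

namespace Pool.Agent.OneQ

open Pool.Agent.MP1bdb59C

theorem sieve_mod (E : Set ℤ) (G : (p : ℕ) → Finset (ZMod (p ^ 2))) (F : Finset ℕ)
    (hF : ∀ p ∈ F, p.Prime) (hE : ∀ p ∈ F, ∀ n ∈ E, ((n : ℤ) : ZMod (p ^ 2)) ∉ G p) :
    ∃ (Q : ℕ) (A : Finset (ZMod Q)), Q = ∏ p ∈ F, p ^ 2 ∧ (∀ n ∈ E, ((n : ℤ) : ZMod Q) ∈ A) ∧
      A.card = ∏ p ∈ F, (p ^ 2 - (G p).card) := by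
  induction F using Finset.induction_on with
  | empty =>
    refine ⟨1, {0}, by simp, fun n _ => ?_, by simp⟩
    rw [Finset.mem_singleton]
    exact Subsingleton.elim _ _
  | insert p F hp ih =>
    obtain ⟨Q, A, hQ, hA, hcard⟩ := ih (fun q hq => hF q (mem_insert_of_mem hq))
      (fun q hq => hE q (mem_insert_of_mem hq))
    have hpp := hF p (mem_insert_self _ _)
    have hcop : (p ^ 2).Coprime Q := by
      rw [hQ]
      refine Nat.Coprime.prod_right fun q hq => ?_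
      refine Nat.Coprime.pow _ _ ?_
      rw [Nat.coprime_primes hpp (hF q (mem_insert_of_mem hq))]
      rintro rfl
      exact hp hq
    have : NeZero (p ^ 2) := ⟨pow_ne_zero _ hpp.ne_zero⟩
    let e := ZMod.chineseRemainder hcop
    refine ⟨p ^ 2 * Q, ((G p)ᶜ ×ˢ A).map e.symm.toEquiv.toEmbedding, ?_, fun n hn => ?_, ?_⟩
    · rw [prod_insert hp, hQ]
    · rw [Finset.mem_map]
      refine ⟨((n : ZMod (p ^ 2)), (n : ZMod Q)), ?_, ?_⟩
      · rw [Finset.mem_product, Finset.mem_compl]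
        exact ⟨hE p (mem_insert_self _ _) n hn, hA n hn⟩
      · change e.symm ((n : ZMod (p ^ 2)), (n : ZMod Q)) = _
        rw [RingEquiv.symm_apply_eq, map_intCast]
        rfl
    · rw [Finset.card_map, Finset.card_product, Finset.card_compl, ZMod.card, hcard,
        prod_insert hp]

theorem sieve_count (E : Set ℤ) {Q : ℕ} (hQ : 0 < Q) (A : Finset (ZMod Q))
    (hA : ∀ n ∈ E, ((n : ℤ) : ZMod Q) ∈ A) (N : ℕ) :
    (E ∩ Set.Icc 1 (N : ℤ)).ncard ≤ (N / Q + 1) * A.card := by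
  have hfin := fin_inter E N
  rw [Set.ncard_eq_toFinset_card _ hfin]
  set T := hfin.toFinset with hT
  have hmem : ∀ c ∈ T, c ∈ E ∧ 1 ≤ c ∧ c ≤ N := by
    intro c hc
    rw [hT, Set.Finite.mem_toFinset] at hc
    exact ⟨hc.1, hc.2.1, hc.2.2⟩
  have h1 := Finset.card_le_mul_card_image (f := fun c : ℤ => (c : ZMod Q)) T (N / Q + 1) (by
    intro a _
    refine hi_fiber hQ _ (fun c hc => ?_) (fun c hc c' hc' => ?_)
    · obtain ⟨-, h2, h3⟩ := hmem c (Finset.mem_filter.1 hc).1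
      refine ⟨h2, h3.trans ?_⟩
      have h4 : N < Q * (N / Q + 1) := Nat.lt_mul_div_succ N hQ
      have h5 : N ≤ (N / Q + 1) * Q := by rw [mul_comm]; exact h4.le
      exact_mod_cast h5
    · rw [← hi_cast_eq, (Finset.mem_filter.1 hc).2, (Finset.mem_filter.1 hc').2])
  refine h1.trans (Nat.mul_le_mul_left _ (Finset.card_le_card ?_))
  intro x hx
  obtain ⟨c, hc, rfl⟩ := Finset.mem_image.1 hx
  exact hA c (hmem c hc).1

/-- **The sieve.** -/
theorem sieve (E : Set ℤ) (P : Set ℕ) (hP : ∀ p ∈ P, p.Prime)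
    (hdiv : ¬ Summable fun p : ℕ => if p ∈ P then ((p : ℝ))⁻¹ else 0)
    (G : (p : ℕ) → Finset (ZMod (p ^ 2))) (hG : ∀ p ∈ P, p - 1 ≤ (G p).card)
    (hE : ∀ p ∈ P, ∀ n ∈ E, ((n : ℤ) : ZMod (p ^ 2)) ∉ G p) : DZ E := by
  intro ε hε
  -- choice of the primes
  obtain ⟨u, hu⟩ : ∃ u : Finset ℕ, 2 * Real.log (2 / ε) <
      ∑ p ∈ u, if p ∈ P then ((p : ℝ))⁻¹ else 0 := by
    by_contra hcon
    push Not at hcon
    refine hdiv (summable_of_sum_le (c := 2 * Real.log (2 / ε)) (fun p => ?_) hcon)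
    split_ifs
    · positivity
    · exact le_rfl
  set F := u.filter (· ∈ P) with hF
  have hFP : ∀ p ∈ F, p ∈ P := fun p hp => (Finset.mem_filter.1 hp).2
  rw [← Finset.sum_filter] at hu
  obtain ⟨Q, A, hQ, hA, hcard⟩ := sieve_mod E G F (fun p hp => hP p (hFP p hp))
    (fun p hp => hE p (hFP p hp))
  have hQ0 : 0 < Q := by
    rw [hQ]
    exact Finset.prod_pos fun p hp => pow_pos (hP p (hFP p hp)).pos _
  -- the density
  have hdens : (A.card : ℝ) ≤ Q * (ε / 2) := by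
    have h1 : (A.card : ℝ) = ∏ p ∈ F, (((p ^ 2 - (G p).card : ℕ)) : ℝ) := by
      rw [hcard]
      push_cast
      rfl
    have h2 : (Q : ℝ) = ∏ p ∈ F, ((p : ℝ) ^ 2) := by
      rw [hQ]
      push_cast
      rfl
    have h3 : ∀ p ∈ F, (((p ^ 2 - (G p).card : ℕ)) : ℝ) ≤
        (p : ℝ) ^ 2 * Real.exp (-(((p : ℝ))⁻¹ / 2)) := by
      intro p hp
      have hpp := hP p (hFP p hp)
      have hp2 : (2 : ℝ) ≤ p := by exact_mod_cast hpp.two_le
      have h4 := hG p (hFP p hp)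
      have h5 : (((p ^ 2 - (G p).card : ℕ)) : ℝ) ≤ (p : ℝ) ^ 2 - (p - 1) := by
        have h6 : p ^ 2 - (G p).card ≤ p ^ 2 - (p - 1) := by omega
        have h7 : (((p ^ 2 - (p - 1) : ℕ)) : ℝ) = (p : ℝ) ^ 2 - (p - 1) := by
          have h8 : p - 1 ≤ p ^ 2 := by nlinarith [hpp.two_le, Nat.sub_le p 1]
          rw [Nat.cast_sub h8, Nat.cast_sub hpp.one_le]
          push_cast
          ring
        rw [← h7]
        exact_mod_cast h6
      refine h5.trans ?_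
      have h9 : 1 - ((p : ℝ))⁻¹ / 2 ≤ Real.exp (-(((p : ℝ))⁻¹ / 2)) := by
        have := Real.add_one_le_exp (-(((p : ℝ))⁻¹ / 2))
        linarith
      have h10 : (p : ℝ) ^ 2 - (p - 1) ≤ (p : ℝ) ^ 2 * (1 - ((p : ℝ))⁻¹ / 2) := by
        have hp0 : (p : ℝ) ≠ 0 := by positivity
        have : (p : ℝ) ^ 2 * (1 - ((p : ℝ))⁻¹ / 2) = (p : ℝ) ^ 2 - p / 2 := by
          field_simp
        rw [this]
        linarith
      exact h10.trans (mul_le_mul_of_nonneg_left h9 (by positivity))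
    rw [h1, h2]
    refine (Finset.prod_le_prod (fun p _ => Nat.cast_nonneg _) h3).trans ?_
    rw [Finset.prod_mul_distrib, ← Real.exp_sum]
    refine mul_le_mul_of_nonneg_left ?_ (Finset.prod_nonneg fun p _ => by positivity)
    have h4 : ∑ p ∈ F, -(((p : ℝ))⁻¹ / 2) ≤ - Real.log (2 / ε) := by
      rw [Finset.sum_neg_distrib, ← Finset.sum_div]
      linarith
    refine (Real.exp_le_exp.2 h4).trans ?_
    rw [Real.exp_neg, Real.exp_log (by positivity), inv_div]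
  refine ⟨Q, fun N hN => ?_⟩
  have h1 := sieve_count E hQ0 A hA N
  have h2 : ((E ∩ Set.Icc 1 (N : ℤ)).ncard : ℝ) ≤ (N / Q + 1) * A.card := by
    have h3 : ((E ∩ Set.Icc 1 (N : ℤ)).ncard : ℝ) ≤ (((N / Q + 1) * A.card : ℕ) : ℝ) := by
      exact_mod_cast h1
    refine h3.trans ?_
    push_cast
    refine mul_le_mul_of_nonneg_right ?_ (Nat.cast_nonneg _)
    have := Nat.cast_div_le (α := ℝ) (m := N) (n := Q)
    linarith
  refine h2.trans ?_
  have hQr : (0 : ℝ) < Q := by exact_mod_cast hQ0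
  have hNr : (Q : ℝ) ≤ N := by exact_mod_cast hN
  have h4 : ((N : ℝ) / Q + 1) * A.card ≤ (N / Q + 1) * (Q * (ε / 2)) :=
    mul_le_mul_of_nonneg_left hdens (by positivity)
  have h5 : ((N : ℝ) / Q + 1) * (Q * (ε / 2)) = (N + Q) * (ε / 2) := by
    field_simp
  rw [h5] at h4
  nlinarith

end Pool.Agent.OneQ
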