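import Mathlib
import Pool.Agent.OneQ.Sieve
import Pool.Agent.OneQ.Nonres
import Pool.Agent.OneQ.Iso

/-!
# Conics over `ℚ` with a parameter: the obstructed case
-/

open Polynomial NumberField IsDedekindDomain

noncomputable section

open scoped Classical

namespace Pool.Agent.OneQ

open CFT CFT.FL Pool.Agent.MP1bdb59C

/-- A local obstruction. -/
theorem not_iso_of_prime (A B : ℤ) (p : ℕ) (hp : p.Prime) (hB : (p : ℤ) ∣ B)
    (hB2 : ¬ (p : ℤ) ^ 2 ∣ B) (hA : ∀ s : ℤ, ¬ (p : ℤ) ∣ A - s ^ 2) :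
    ¬ Iso (A : ℚ) (B : ℚ) := by
  have hpi : Prime (p : ℤ) := Nat.prime_iff_prime_int.1 hp
  -- all integral solutions are divisible by `p`
  have key : ∀ x y z : ℤ, z ^ 2 = A * x ^ 2 + B * y ^ 2 → (p : ℤ) ∣ x ∧ (p : ℤ) ∣ y ∧ (p : ℤ) ∣ z := by
    intro x y z h
    have hx : (p : ℤ) ∣ x := by
      by_contra hx
      have hcop : IsCoprime (p : ℤ) x := (hpi.coprime_iff_not_dvd).2 hx
      obtain ⟨u, v, huv⟩ := hcop
      apply hA (z * v)
      obtain ⟨B', hB'⟩ := hB
      refine ⟨-(B' * y ^ 2 * v ^ 2) + A * u * (2 - u * p), ?_⟩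
      rw [hB'] at h
      have h1 : v * x = 1 - u * p := by linear_combination huv
      have h2 : (z * v) ^ 2 = A * (v * x) ^ 2 + p * B' * y ^ 2 * v ^ 2 := by
        rw [mul_pow, h]
        ring
      rw [h2, h1]
      ring
    obtain ⟨x', rfl⟩ := hx
    have hz : (p : ℤ) ∣ z := by
      apply hpi.dvd_of_dvd_pow (n := 2)
      rw [h]
      refine dvd_add ?_ (hB.mul_right _)
      exact ⟨A * (p * x' ^ 2), by ring⟩
    obtain ⟨z', rfl⟩ := hz
    refine ⟨dvd_mul_right _ _, ?_, dvd_mul_right _ _⟩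
    obtain ⟨B', rfl⟩ := hB
    have hp0 : (p : ℤ) ≠ 0 := hpi.ne_zero
    have h1 : p * (z' ^ 2 - A * x' ^ 2) = B' * y ^ 2 := by
      apply mul_left_cancel₀ hp0
      linear_combination h
    have h2 : (p : ℤ) ∣ B' * y ^ 2 := ⟨_, h1.symm⟩
    rcases hpi.dvd_or_dvd h2 with h3 | h3
    · exfalso
      apply hB2
      obtain ⟨c, rfl⟩ := h3
      exact ⟨c, by ring⟩
    · exact hpi.dvd_of_dvd_pow h3
  -- descent
  have zero : ∀ (n : ℕ) (x y z : ℤ), x.natAbs + y.natAbs + z.natAbs = n →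
      z ^ 2 = A * x ^ 2 + B * y ^ 2 → x = 0 ∧ y = 0 ∧ z = 0 := by
    intro n
    induction n using Nat.strong_induction_on with
    | _ n ih =>
      intro x y z hn h
      obtain ⟨⟨x', rfl⟩, ⟨y', rfl⟩, ⟨z', rfl⟩⟩ := key x y z h
      have hp0 : (p : ℤ) ≠ 0 := hpi.ne_zero
      have h1 : z' ^ 2 = A * x' ^ 2 + B * y' ^ 2 := by
        apply mul_left_cancel₀ (pow_ne_zero 2 hp0)
        linear_combination h
      have hp2 := hp.two_le
      simp only [Int.natAbs_mul, Int.natAbs_natCast] at hn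
      rw [← mul_add, ← mul_add] at hn
      by_cases h0 : x'.natAbs + y'.natAbs + z'.natAbs = 0
      · have h2 : x'.natAbs = 0 := by omega
        have h3 : y'.natAbs = 0 := by omega
        have h4 : z'.natAbs = 0 := by omega
        rw [Int.natAbs_eq_zero] at h2 h3 h4
        simp [h2, h3, h4]
      · obtain ⟨h2, h3, h4⟩ := ih (x'.natAbs + y'.natAbs + z'.natAbs) (by
          rw [← hn]
          nlinarith [Nat.pos_of_ne_zero h0]) x' y' z' rfl h1
        simp [h2, h3, h4]
  rintro ⟨x, y, z, h0, h⟩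
  -- clear denominators
  set d : ℤ := x.den * y.den * z.den with hd
  have hx0 : (x.den : ℚ) ≠ 0 := by exact_mod_cast x.den_ne_zero
  have hy0 : (y.den : ℚ) ≠ 0 := by exact_mod_cast y.den_ne_zero
  have hz0 : (z.den : ℚ) ≠ 0 := by exact_mod_cast z.den_ne_zero
  have ex : ((x.num * y.den * z.den : ℤ) : ℚ) = d * x := by
    rw [hd]
    push_cast
    nth_rewrite 3 [← Rat.num_div_den x]
    field_simp
  have ey : ((y.num * x.den * z.den : ℤ) : ℚ) = d * y := by
    rw [hd]
    push_cast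
    nth_rewrite 3 [← Rat.num_div_den y]
    field_simp
  have ez : ((z.num * x.den * y.den : ℤ) : ℚ) = d * z := by
    rw [hd]
    push_cast
    nth_rewrite 3 [← Rat.num_div_den z]
    field_simp
  have hd0 : (d : ℚ) ≠ 0 := by
    rw [hd]
    push_cast
    positivity
  have h1 := zero _ (x.num * y.den * z.den) (y.num * x.den * z.den) (z.num * x.den * y.den) rfl (by
    have h2 : (((z.num * x.den * y.den : ℤ)) : ℚ) ^ 2 =
        A * ((x.num * y.den * z.den : ℤ) : ℚ) ^ 2 + B * ((y.num * x.den * z.den : ℤ) : ℚ) ^ 2 := by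
      rw [ex, ey, ez, mul_pow, h]
      ring
    exact_mod_cast h2)
  apply h0
  obtain ⟨h2, h3, h4⟩ := h1
  rw [h2, Int.cast_zero] at ex
  rw [h3, Int.cast_zero] at ey
  rw [h4, Int.cast_zero] at ez
  exact ⟨(mul_eq_zero.1 ex.symm).resolve_left hd0, (mul_eq_zero.1 ey.symm).resolve_left hd0,
    (mul_eq_zero.1 ez.symm).resolve_left hd0⟩

/-- Sums over the places with norm in a thin set of primes. -/
theorem summable_over {L : Type*} [Field L] [NumberField L] (P : Set ℕ)
    (hP : Summable fun p : ℕ => if p ∈ P then ((p : ℝ))⁻¹ else 0) :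
    Thin {v : Pl L | (Ideal.absNorm v.asIdeal).Prime ∧ Ideal.absNorm v.asIdeal ∈ P} := by
  unfold Thin
  have hnn : ∀ n : ℕ, (0 : ℝ) ≤ if n ∈ P then ((n : ℝ))⁻¹ else 0 := fun n => by
    split_ifs
    · positivity
    · exact le_rfl
  have key : Summable fun w : Pl L => if qw w ∈ P then ((qw w : ℝ))⁻¹ else 0 := by
    let e := Equiv.sigmaFiberEquiv (fun w : Pl L => qw w)
    rw [← e.summable_iff]
    have hfin : ∀ n, Finite {w : Pl L // qw w = n} ∧
        Nat.card {w : Pl L // qw w = n} ≤ Module.finrank ℚ L := by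
      intro n
      by_cases hn : n.Prime
      · exact finite_qw n hn
      · have : IsEmpty {w : Pl L // qw w = n} := ⟨fun w => hn (w.2 ▸ qw_prime w.1)⟩
        exact ⟨inferInstance, by simp⟩
    rw [summable_sigma_of_nonneg]
    · refine ⟨fun n => ?_, ?_⟩
      · have := (hfin n).1
        exact Summable.of_finite
      · refine Summable.of_nonneg_of_le (fun n => tsum_nonneg (fun _ => ?_)) (fun n => ?_)
          (hP.mul_left (Module.finrank ℚ L : ℝ))
        · exact hnn _
        · have := (hfin n).1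
          have : Fintype {w : Pl L // qw w = n} := Fintype.ofFinite _
          have h1 : ∀ w : {w : Pl L // qw w = n},
              ((fun w : Pl L => if qw w ∈ P then ((qw w : ℝ))⁻¹ else 0) ∘ e) ⟨n, w⟩ =
                if n ∈ P then ((n : ℝ))⁻¹ else 0 := by
            intro w
            have h2 : (e ⟨n, w⟩) = w.1 := rfl
            simp only [Function.comp_apply, h2]
            rw [w.2]
          rw [tsum_congr h1, tsum_fintype, Finset.sum_const, nsmul_eq_mul]
          apply mul_le_mul_of_nonneg_right _ (hnn n)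
          rw [Finset.card_univ, ← Nat.card_eq_fintype_card]
          exact_mod_cast (hfin n).2
    · intro x
      exact hnn _
  refine Summable.of_nonneg_of_le (fun v => ?_) (fun v => ?_) key
  · split_ifs
    · positivity
    · exact le_rfl
  · by_cases hv : (Ideal.absNorm v.asIdeal).Prime ∧ Ideal.absNorm v.asIdeal ∈ P
    · have h1 : qw v = Ideal.absNorm v.asIdeal := by
        have h4 := qw_liesOver v
        have h3 := Ideal.absNorm_eq_pow_inertiaDeg' v.asIdeal (qw_prime v)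
        have h6 : (Ideal.absNorm v.asIdeal).Prime := hv.1
        rw [h3] at h6
        have h7 := (Nat.Prime.eq_one_of_pow h6)
        rw [h3, h7, pow_one]
      rw [if_pos (show v ∈ {v : Pl L | (Ideal.absNorm v.asIdeal).Prime ∧
        Ideal.absNorm v.asIdeal ∈ P} from hv), h1, if_pos hv.2]
    · rw [if_neg (show ¬ v ∈ {v : Pl L | (Ideal.absNorm v.asIdeal).Prime ∧
        Ideal.absNorm v.asIdeal ∈ P} from hv)]
      exact hnn _

/-- The set of primes with an obstruction. -/
def badP (A B : ℤ[X]) : Set ℕ :=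
  {p | p.Prime ∧ ∃ r : ℤ, (p : ℤ) ∣ B.eval r ∧ ¬ (p : ℤ) ∣ B.derivative.eval r ∧
    ∀ s : ℤ, ¬ (p : ℤ) ∣ A.eval r - s ^ 2}

theorem coe_aeval {L : Type*} [Field L] [NumberField L] (G : ℤ[X]) (x : 𝓞 L) :
    ((aeval x G : 𝓞 L) : L) = aeval (x : L) G := by
  exact (aeval_algebraMap_apply L x G).symm

/-- The primes with an obstruction form a large set. -/
theorem badP_large (A B : ℤ[X]) (π : ℚ[X]) (hπ : Irreducible π)
    (hd : π ∣ B.map (Int.castRingHom ℚ)) (hd2 : ¬ π ^ 2 ∣ B.map (Int.castRingHom ℚ))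
    (hns : ¬ ∃ c, π ∣ c ^ 2 - A.map (Int.castRingHom ℚ)) :
    ¬ Summable fun p : ℕ => if p ∈ badP A B then ((p : ℝ))⁻¹ else 0 := by
  intro hsum
  have := Fact.mk hπ
  let L := AdjoinRoot π
  have hL : Module.Finite ℚ L := (AdjoinRoot.powerBasis hπ.ne_zero).finite
  have : NumberField L := ⟨⟩
  set θ : L := AdjoinRoot.root π with hθ
  have hmk : ∀ g : ℚ[X], aeval θ g = AdjoinRoot.mk π g := fun g => AdjoinRoot.aeval_eq g
  have hmkZ : ∀ g : ℤ[X], aeval θ g = AdjoinRoot.mk π (g.map (Int.castRingHom ℚ)) := fun g => by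
    rw [← hmk, aeval_def, aeval_def, eval₂_map]
    congr 1
  -- facts at `θ`
  have hB0 : aeval θ B = 0 := by
    rw [hmkZ, AdjoinRoot.mk_eq_zero]
    exact hd
  have hB'0 : aeval θ B.derivative ≠ 0 := by
    rw [hmkZ, Ne, AdjoinRoot.mk_eq_zero, ← derivative_map]
    obtain ⟨b1, hb1⟩ := hd
    rw [hb1]
    intro h
    rw [derivative_mul] at h
    have h1 : π ∣ derivative π * b1 := (dvd_add_left (dvd_mul_right π _)).1 h
    rcases hπ.prime.dvd_or_dvd h1 with h2 | h2
    · have h3 := natDegree_derivative_lt hπ.natDegree_pos.ne'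
      have h4 : derivative π ≠ 0 := by
        intro h0
        exact hπ.natDegree_pos.ne' (derivative_eq_zero.1 h0)
      have h5 := natDegree_le_of_dvd h2 h4
      omega
    · apply hd2
      rw [hb1, sq]
      exact mul_dvd_mul_left π h2
  have hAns : ¬ IsSquare (aeval θ A) := by
    rintro ⟨c, hc⟩
    obtain ⟨c', rfl⟩ := AdjoinRoot.mk_surjective c
    apply hns
    refine ⟨c', ?_⟩
    rw [← AdjoinRoot.mk_eq_zero, map_sub, map_pow, ← hmkZ, hc, sq, sub_self]
  -- integrality
  obtain ⟨m, hm0, hmint⟩ : ∃ m : ℤ, m ≠ 0 ∧ IsIntegral ℤ (m • θ) := by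
    have halg : IsAlgebraic ℤ θ := by
      rw [IsFractionRing.isAlgebraic_iff ℤ ℚ L]
      exact (Algebra.IsIntegral.isIntegral (R := ℚ) θ).isAlgebraic
    exact halg.exists_integral_multiple
  let η : 𝓞 L := ⟨m • θ, hmint⟩
  have hη : (η : L) = (m : L) * θ := by
    change m • θ = _
    rw [zsmul_eq_mul]
  have hmL : (m : L) ≠ 0 := by exact_mod_cast hm0
  have hscale : ∀ G : ℤ[X], ((aeval η (G.scaleRoots m) : 𝓞 L) : L) =
      (m : L) ^ G.natDegree * aeval θ G := by
    intro G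
    rw [coe_aeval, hη]
    have h1 := scaleRoots_eval₂_mul (p := G) (algebraMap ℤ L) θ m
    rw [eq_intCast] at h1
    exact h1
  set α : 𝓞 L := (m : 𝓞 L) ^ A.natDegree * aeval η (A.scaleRoots m) with hα
  have hαL : (α : L) = ((m : L) ^ A.natDegree) ^ 2 * aeval θ A := by
    rw [hα]
    change algebraMap (𝓞 L) L ((m : 𝓞 L) ^ A.natDegree * aeval η (A.scaleRoots m)) = _
    rw [map_mul, map_pow, map_intCast]
    change _ * ((aeval η (A.scaleRoots m) : 𝓞 L) : L) = _
    rw [hscale]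
    ring
  have hαns : ¬ IsSquare (α : L) := by
    rintro ⟨c, hc⟩
    apply hAns
    refine ⟨c / (m : L) ^ A.natDegree, ?_⟩
    have h1 : ((m : L) ^ A.natDegree) ≠ 0 := pow_ne_zero _ hmL
    rw [hαL] at hc
    rw [div_mul_div_comm, eq_div_iff (mul_ne_zero h1 h1)]
    linear_combination hc
  -- the bad places
  have hB'η : aeval η (B.derivative.scaleRoots m) ≠ 0 := by
    intro h0
    have h1 := hscale B.derivative
    rw [h0] at h1
    simp only [map_zero] at h1
    exact mul_ne_zero (pow_ne_zero _ hmL) hB'0 h1.symm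
  have hmO : (m : 𝓞 L) ≠ 0 := by exact_mod_cast hm0
  obtain ⟨v, hvS, hvp, hvns⟩ := exists_nonres α hαns
    ({v : Pl L | (Ideal.absNorm v.asIdeal).Prime ∧ Ideal.absNorm v.asIdeal ∈ badP A B} ∪
      ({v : Pl L | (m : 𝓞 L) ∈ v.asIdeal} ∪
        {v : Pl L | aeval η (B.derivative.scaleRoots m) ∈ v.asIdeal}))
    (thin_union (summable_over (badP A B) hsum)
      (thin_finite ((finite_dvd (m : 𝓞 L) hmO).union (finite_dvd _ hB'η))))
  rw [Set.mem_union, Set.mem_union, not_or, not_or] at hvS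
  obtain ⟨hv1, hv2, hv3⟩ := hvS
  simp only [Set.mem_ofPred_eq] at hv1 hv2 hv3
  apply hv1
  refine ⟨hvp, hvp, ?_⟩
  set p := Ideal.absNorm v.asIdeal with hpdef
  have hpv : (p : 𝓞 L) ∈ v.asIdeal := Ideal.absNorm_mem v.asIdeal
  have hvprime : v.asIdeal.IsPrime := v.isPrime
  -- integers in `v`
  have hint : ∀ n : ℤ, (n : 𝓞 L) ∈ v.asIdeal ↔ (p : ℤ) ∣ n := by
    intro n
    constructor
    · intro h
      by_contra hn
      have hcop : IsCoprime (p : ℤ) n :=
        ((Nat.prime_iff_prime_int.1 hvp).coprime_iff_not_dvd).2 hn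
      obtain ⟨a, b, hab⟩ := hcop
      apply hvprime.ne_top
      rw [Ideal.eq_top_iff_one]
      have h1 : (1 : 𝓞 L) = (a : 𝓞 L) * (p : 𝓞 L) + (b : 𝓞 L) * (n : 𝓞 L) := by
        have := congrArg (fun z : ℤ => (z : 𝓞 L)) hab
        push_cast at this
        exact this.symm
      rw [h1]
      exact add_mem (Ideal.mul_mem_left _ _ hpv) (Ideal.mul_mem_left _ _ h)
    · rintro ⟨c, rfl⟩
      push_cast
      exact Ideal.mul_mem_right _ _ hpv
  -- `η` modulo `v`
  obtain ⟨j, hj⟩ : ∃ j : ℤ, η - (j : 𝓞 L) ∈ v.asIdeal := by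
    have hcard : Nat.card (𝓞 L ⧸ v.asIdeal) = p := rfl
    have hsurj : Function.Surjective (Int.castRingHom (𝓞 L ⧸ v.asIdeal)) := by
      have hfin : Finite (𝓞 L ⧸ v.asIdeal) := Nat.finite_of_card_ne_zero (by
        rw [hcard]; exact hvp.ne_zero)
      let f : ZMod p → (𝓞 L ⧸ v.asIdeal) := fun x => ((x.val : ℕ) : 𝓞 L ⧸ v.asIdeal)
      have : NeZero p := ⟨hvp.ne_zero⟩
      have hinj : Function.Injective f := by
        intro x y hxy
        have h1 : (((x.val : ℤ) - (y.val : ℤ) : ℤ) : 𝓞 L) ∈ v.asIdeal := by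
          rw [← Ideal.Quotient.eq_zero_iff_mem]
          push_cast
          rw [map_sub, map_natCast, map_natCast, sub_eq_zero]
          exact hxy
        rw [hint] at h1
        have h2 : ((x.val : ℤ) : ZMod p) = ((y.val : ℤ) : ZMod p) := by
          rw [← sub_eq_zero, ← Int.cast_sub, ZMod.intCast_zmod_eq_zero_iff_dvd]
          exact h1
        push_cast at h2
        rwa [ZMod.natCast_zmod_val, ZMod.natCast_zmod_val] at h2
      have hbij : Function.Bijective f := by
        have hf' : Fintype (𝓞 L ⧸ v.asIdeal) := Fintype.ofFinite _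
        rw [Fintype.bijective_iff_injective_and_card]
        refine ⟨hinj, ?_⟩
        rw [ZMod.card, ← Nat.card_eq_fintype_card, hcard]
      intro y
      obtain ⟨x, hx⟩ := hbij.2 y
      refine ⟨(x.val : ℤ), ?_⟩
      rw [← hx]
      simp [f]
    obtain ⟨j, hj⟩ := hsurj (Ideal.Quotient.mk v.asIdeal η)
    refine ⟨j, ?_⟩
    rw [← Ideal.Quotient.eq_zero_iff_mem, map_sub, map_intCast, ← hj]
    simp
  -- the residue class
  have hmp : ¬ (p : ℤ) ∣ m := fun h => hv2 ((hint m).2 h)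
  have hmcop : IsCoprime (p : ℤ) m :=
    ((Nat.prime_iff_prime_int.1 hvp).coprime_iff_not_dvd).2 hmp
  obtain ⟨a', m', hm'⟩ := hmcop
  set r : ℤ := j * m' with hr
  have hηr : η - ((m * r : ℤ) : 𝓞 L) ∈ v.asIdeal := by
    have h1 : η - ((m * r : ℤ) : 𝓞 L) = (η - (j : 𝓞 L)) + ((j - m * r : ℤ) : 𝓞 L) := by
      push_cast
      ring
    rw [h1]
    refine add_mem hj ((hint _).2 ⟨j * a', ?_⟩)
    rw [hr]
    linear_combination j * (- hm')
  have hred : ∀ G : ℤ[X], aeval η (G.scaleRoots m) -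
      ((m ^ G.natDegree * G.eval r : ℤ) : 𝓞 L) ∈ v.asIdeal := by
    intro G
    have h1 : η - ((m * r : ℤ) : 𝓞 L) ∣ aeval η (G.scaleRoots m) -
        aeval ((m * r : ℤ) : 𝓞 L) (G.scaleRoots m) := by
      rw [aeval_def, aeval_def, ← eval_map, ← eval_map]
      exact sub_dvd_eval_sub _ _ _
    have h2 : aeval ((m * r : ℤ) : 𝓞 L) (G.scaleRoots m) =
        ((m ^ G.natDegree * G.eval r : ℤ) : 𝓞 L) := by
      have h3 := scaleRoots_eval₂_mul (p := G) (RingHom.id ℤ) r m
      rw [eval₂_id, eval₂_id] at h3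
      simp only [RingHom.id_apply] at h3
      have h4 : aeval ((m * r : ℤ) : 𝓞 L) (G.scaleRoots m) =
          (((G.scaleRoots m).eval (m * r) : ℤ) : 𝓞 L) := by
        have := aeval_algebraMap_apply (𝓞 L) (m * r : ℤ) (G.scaleRoots m)
        simpa using this
      rw [h4, h3]
    rw [h2] at h1
    exact Ideal.mem_of_dvd _ h1 hηr
  refine ⟨r, ?_, ?_, ?_⟩
  · have h1 := hred B
    have h2 : aeval η (B.scaleRoots m) = 0 := by
      apply RingOfIntegers.ext
      rw [hscale, hB0, mul_zero]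
      rfl
    rw [h2, zero_sub, neg_mem_iff, hint] at h1
    rcases (Nat.prime_iff_prime_int.1 hvp).dvd_or_dvd h1 with h3 | h3
    · exact absurd ((Nat.prime_iff_prime_int.1 hvp).dvd_of_dvd_pow h3) hmp
    · exact h3
  · intro h
    apply hv3
    have h1 := hred B.derivative
    have h2 : (((m ^ B.derivative.natDegree * B.derivative.eval r : ℤ)) : 𝓞 L) ∈ v.asIdeal :=
      (hint _).2 (h.mul_left _)
    have h3 := add_mem h1 h2
    rwa [sub_add_cancel] at h3
  · intro s hs
    apply hvns (m ^ A.natDegree * s)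
    have h1 := hred A
    have h2 : α - (((m ^ A.natDegree * s : ℤ)) : 𝓞 L) ^ 2 =
        (m : 𝓞 L) ^ A.natDegree * (aeval η (A.scaleRoots m) -
          ((m ^ A.natDegree * A.eval r : ℤ) : 𝓞 L)) +
        ((((m ^ A.natDegree) ^ 2 * (A.eval r - s ^ 2) : ℤ)) : 𝓞 L) := by
      rw [hα]
      push_cast
      ring
    rw [h2]
    exact add_mem (Ideal.mul_mem_left _ _ h1) ((hint _).2 (hs.mul_left _))

end Pool.Agent.OneQ
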