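import Mathlib
import Pool.Agent.OneQ.Conic1

/-!
# Conics over `ℚ` with a parameter
-/

open Polynomial

noncomputable section

open scoped Classical

namespace Pool.Agent.OneQ

open Pool.Agent.MP1bdb59C

/-- Integral multiples. -/
theorem exists_int_mul (a : ℚ[X]) : ∃ (m : ℤ) (A : ℤ[X]), m ≠ 0 ∧
    A.map (Int.castRingHom ℚ) = C ((m : ℚ) ^ 2) * a := by
  obtain ⟨b, hb', hb⟩ := IsLocalization.integerNormalization_spec (nonZeroDivisors ℤ) a
  refine ⟨b, C b * IsLocalization.integerNormalization (nonZeroDivisors ℤ) a,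
    nonZeroDivisors.ne_zero hb', ?_⟩
  have h1 : (IsLocalization.integerNormalization (nonZeroDivisors ℤ) a).map
      (Int.castRingHom ℚ) = C (b : ℚ) * a := by
    have h2 : (IsLocalization.integerNormalization (nonZeroDivisors ℤ) a).map
      (algebraMap ℤ ℚ) = b • a := hb
    have h3 : algebraMap ℤ ℚ = Int.castRingHom ℚ := rfl
    rw [h3] at h2
    rw [h2, zsmul_eq_mul]
    simp
  rw [Polynomial.map_mul, h1, map_C, ← mul_assoc, ← C_mul, sq]
  rfl

/-- The residue classes with an obstruction. -/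
def Gp (B : ℤ[X]) (r : ℤ) (p : ℕ) : Finset (ZMod (p ^ 2)) :=
  ((Finset.range p).filter fun s : ℕ => ¬ (p : ℤ) ^ 2 ∣ B.eval (r + p * s)).image
    fun s : ℕ => ((r + p * s : ℤ) : ZMod (p ^ 2))

theorem card_Gp (B : ℤ[X]) (r : ℤ) (p : ℕ) (hp : p.Prime) (h1 : (p : ℤ) ∣ B.eval r)
    (h2 : ¬ (p : ℤ) ∣ B.derivative.eval r) : p - 1 ≤ (Gp B r p).card := by
  have hp0 : (p : ℤ) ≠ 0 := by exact_mod_cast hp.ne_zero
  have hsq : ((p ^ 2 : ℕ) : ℤ) = (p : ℤ) ^ 2 := by push_cast; rfl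
  rw [Gp, Finset.card_image_of_injOn]
  · have h3 := Finset.card_filter_add_card_filter_not (s := Finset.range p)
      (p := fun s : ℕ => (p : ℤ) ^ 2 ∣ B.eval (r + p * s))
    rw [Finset.card_range] at h3
    have h4 : ((Finset.range p).filter fun s : ℕ => (p : ℤ) ^ 2 ∣ B.eval (r + p * s)).card ≤ 1 := by
      rw [Finset.card_le_one]
      intro s hs s' hs'
      rw [Finset.mem_filter, Finset.mem_range] at hs hs'
      obtain ⟨k, hk⟩ := binomExpansion B r (p * s)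
      obtain ⟨k', hk'⟩ := binomExpansion B r (p * s')
      obtain ⟨c, hc⟩ := hs.2
      obtain ⟨c', hc'⟩ := hs'.2
      rw [hk] at hc
      rw [hk'] at hc'
      have h5 : (p : ℤ) ∣ B.derivative.eval r * ((s : ℤ) - s') := by
        refine ⟨c - c' - k * s ^ 2 + k' * s' ^ 2, ?_⟩
        apply mul_left_cancel₀ hp0
        linear_combination hc - hc'
      have h6 := ((Nat.prime_iff_prime_int.1 hp).dvd_or_dvd h5).resolve_left h2
      have h7 : ((s : ℤ) : ZMod p) = ((s' : ℤ) : ZMod p) := by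
        rw [← sub_eq_zero, ← Int.cast_sub, ZMod.intCast_zmod_eq_zero_iff_dvd]
        exact h6
      push_cast at h7
      rw [ZMod.natCast_eq_natCast_iff'] at h7
      rwa [Nat.mod_eq_of_lt hs.1, Nat.mod_eq_of_lt hs'.1] at h7
    omega
  · intro s hs s' hs' h
    rw [Finset.coe_filter] at hs hs'
    simp only [Finset.mem_range] at hs hs'
    have h3 : ((p ^ 2 : ℕ) : ℤ) ∣ (r + p * s) - (r + p * s') := by
      rw [← hi_cast_eq]
      exact h
    obtain ⟨c, hc⟩ := h3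
    have h4 : (p : ℤ) ∣ (s : ℤ) - s' := by
      refine ⟨c, ?_⟩
      apply mul_left_cancel₀ hp0
      rw [hsq] at hc
      linear_combination hc
    have h7 : ((s : ℤ) : ZMod p) = ((s' : ℤ) : ZMod p) := by
      rw [← sub_eq_zero, ← Int.cast_sub, ZMod.intCast_zmod_eq_zero_iff_dvd]
      exact h4
    push_cast at h7
    rw [ZMod.natCast_eq_natCast_iff'] at h7
    rwa [Nat.mod_eq_of_lt hs.1, Nat.mod_eq_of_lt hs'.1] at h7

/-- The integral form. -/
theorem dz_conic_int (A B : ℤ[X]) (π : ℚ[X]) (hπ : Irreducible π)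
    (hd : π ∣ B.map (Int.castRingHom ℚ)) (hd2 : ¬ π ^ 2 ∣ B.map (Int.castRingHom ℚ))
    (hns : ¬ ∃ c, π ∣ c ^ 2 - A.map (Int.castRingHom ℚ)) :
    DZ {n : ℤ | Iso ((A.eval n : ℤ) : ℚ) ((B.eval n : ℤ) : ℚ)} := by
  have hdiv := badP_large A B π hπ hd hd2 hns
  have hex : ∀ p : ℕ, ∃ r : ℤ, p ∈ badP A B → ((p : ℤ) ∣ B.eval r ∧
      ¬ (p : ℤ) ∣ B.derivative.eval r ∧ ∀ s : ℤ, ¬ (p : ℤ) ∣ A.eval r - s ^ 2) := by
    intro p
    by_cases hp : p ∈ badP A B
    · obtain ⟨-, r, hr⟩ := hp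
      exact ⟨r, fun _ => hr⟩
    · exact ⟨0, fun h => absurd h hp⟩
  choose r hr using hex
  refine sieve _ (badP A B) (fun p hp => hp.1) hdiv (fun p => Gp B (r p) p)
    (fun p hp => card_Gp B (r p) p hp.1 (hr p hp).1 (hr p hp).2.1) ?_
  intro p hp n hn hmem
  obtain ⟨s, hs, hsn⟩ := Finset.mem_image.1 hmem
  rw [Finset.mem_filter] at hs
  obtain ⟨h1, h2, h3⟩ := hr p hp
  have hsq : ((p ^ 2 : ℕ) : ℤ) = (p : ℤ) ^ 2 := by push_cast; rfl
  rw [hi_cast_eq, hsq] at hsn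
  -- values at `n`
  have h4 : (p : ℤ) ∣ n - r p := by
    have h5 : (p : ℤ) ∣ (r p + p * s) - n := (dvd_pow_self _ two_ne_zero).trans hsn
    obtain ⟨c, hc⟩ := h5
    exact ⟨s - c, by linear_combination -hc⟩
  refine not_iso_of_prime (A.eval n) (B.eval n) p hp.1 ?_ ?_ ?_ hn
  · have h5 := h4.trans (sub_dvd_eval_sub n (r p) B)
    have h6 := dvd_add h5 h1
    rwa [sub_add_cancel] at h6
  · intro h
    apply hs.2
    have h5 := hsn.trans (sub_dvd_eval_sub (r p + p * s) n B)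
    have h6 := dvd_add h5 h
    rwa [sub_add_cancel] at h6
  · intro t ht
    apply h3 t
    have h5 := h4.trans (sub_dvd_eval_sub n (r p) A)
    have h6 := dvd_sub ht h5
    have h7 : A.eval n - t ^ 2 - (A.eval n - A.eval (r p)) = A.eval (r p) - t ^ 2 := by ring
    rwa [h7] at h6

/-- **Conics with a parameter, obstructed case.** -/
theorem dz_conic (a b π : ℚ[X]) (hπ : Irreducible π) (hd : π ∣ b) (hd2 : ¬ π ^ 2 ∣ b)
    (hns : ¬ ∃ c, π ∣ c ^ 2 - a) :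
    DZ {n : ℤ | Iso (a.eval (n : ℚ)) (b.eval (n : ℚ))} := by
  obtain ⟨m, A, hm, hA⟩ := exists_int_mul a
  obtain ⟨m', B, hm', hB⟩ := exists_int_mul b
  have hmQ : (m : ℚ) ≠ 0 := by exact_mod_cast hm
  have hmQ' : (m' : ℚ) ≠ 0 := by exact_mod_cast hm'
  have hu : IsUnit (C ((m' : ℚ) ^ 2)) := isUnit_C.2 (IsUnit.mk0 _ (pow_ne_zero 2 hmQ'))
  refine (dz_conic_int A B π hπ ?_ ?_ ?_).mono ?_
  · rw [hB]
    exact hd.mul_left _
  · rw [hB]
    intro h
    exact hd2 ((hu.dvd_mul_left).1 h)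
  · rintro ⟨c, hc⟩
    apply hns
    refine ⟨C ((m : ℚ)⁻¹) * c, ?_⟩
    rw [hA] at hc
    have h1 : (C ((m : ℚ)⁻¹) * c) ^ 2 - a = C (((m : ℚ)⁻¹) ^ 2) * (c ^ 2 - C ((m : ℚ) ^ 2) * a) := by
      have h2 : C (((m : ℚ)⁻¹) ^ 2) * C ((m : ℚ) ^ 2) = (1 : ℚ[X]) := by
        rw [← C_mul, ← mul_pow, inv_mul_cancel₀ hmQ]
        simp
      have h3 : C (((m : ℚ)⁻¹) ^ 2) = (C ((m : ℚ)⁻¹) : ℚ[X]) ^ 2 := by rw [C_pow]
      rw [mul_sub, ← mul_assoc, h2, h3]
      ring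
    rw [h1]
    exact hc.mul_left _
  · intro n hn
    have e : ∀ (G : ℤ[X]) (g : ℚ[X]) (k : ℤ), G.map (Int.castRingHom ℚ) = C ((k : ℚ) ^ 2) * g →
        ((G.eval n : ℤ) : ℚ) = (k : ℚ) ^ 2 * g.eval (n : ℚ) := by
      intro G g k h
      have h1 := congrArg (fun f => f.eval (n : ℚ)) h
      simp only [eval_mul, eval_C] at h1
      rw [← h1]
      have h2 := Polynomial.eval_map_apply (p := G) (Int.castRingHom ℚ) n
      simpa using h2.symm
    change Iso _ _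
    rw [e A a m hA, e B b m' hB]
    exact ((Iso.mul_sq hmQ' hn).symm.mul_sq hmQ).symm

end Pool.Agent.OneQ
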