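import Mathlib
import Pool.Agent.OneQ.Dens

/-!
# Specialisations at integers without roots
-/

open Polynomial

noncomputable section

open scoped Classical

namespace Pool.Agent.OneQ

open Pool.Agent.MP1bdb59C

/-- Finitely many auxiliary monic polynomials without roots at `c` force the irreducibility of
`F(c, Y)`. -/
theorem key {R K : Type*} [CommRing R] [IsDomain R] [IsIntegrallyClosed R]
    [CharZero R] [Field K] [Algebra R K] [IsFractionRing R K] (F : K[X][X])
    (hirr : Irreducible (F.map (algebraMap K[X] (RatFunc K)))) :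
    ∃ T : Finset R[X][X], (∀ g ∈ T, g.Monic ∧ 2 ≤ g.natDegree ∧ IrrOver R K g) ∧
      ∀ c : R, (F.leadingCoeff).eval (algebraMap R K c) ≠ 0 →
        (∀ g ∈ T, ∀ y : R, (g.map (evalRingHom c)).eval y ≠ 0) →
        Irreducible (F.map (evalRingHom (algebraMap R K c))) := by
  have hF0 : F ≠ 0 := by
    rintro rfl
    rw [Polynomial.map_zero] at hirr
    exact hirr.ne_zero rfl
  have hlc : F.leadingCoeff ≠ 0 := leadingCoeff_ne_zero.mpr hF0
  obtain ⟨F₁, hF₁m, hF₁n, hF₁⟩ := exists_monic F hF0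
  obtain ⟨r, F₂, hr, hF₂m, hF₂⟩ := exists_integral R F₁ hF₁m
  have hrK : algebraMap R K r ≠ 0 := by rwa [Ne, IsFractionRing.to_map_eq_zero_iff]
  have hφ : ∀ (E : Type _) [Field E] (φ : K[X] →+* E),
      (Irreducible ((F₂.map (mapRingHom (algebraMap R K))).map φ) ↔ Irreducible (F₁.map φ)) := by
    intro E _ φ
    have h1 : φ (C (algebraMap R K r)) ≠ 0 := by
      have h2 := (φ.comp C).injective.ne hrK
      rwa [map_zero] at h2
    rw [hF₂, map_scaleRoots _ _ _ (by rw [hF₁m.leadingCoeff, map_one]; exact one_ne_zero)]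
    exact irreducible_scaleRoots_iff h1
  have hirr₂ : IrrOver R K F₂ := by
    unfold IrrOver
    rw [← Polynomial.map_map, hφ, hF₁]
    · exact hirr
    · rwa [Ne, map_eq_zero_iff _ (IsFractionRing.injective K[X] (RatFunc K))]
  obtain ⟨T, hT1, hT2⟩ := exists_irreducible_of_noRoot F₂ hF₂m hirr₂
  refine ⟨T, hT1, fun c hc hcT => ?_⟩
  have h3 := hT2 c hcT
  have h4 : (F₂.map (evalRingHom c)).map (algebraMap R K) =
      (F₂.map (mapRingHom (algebraMap R K))).map (evalRingHom (algebraMap R K c)) := by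
    rw [Polynomial.map_map, Polynomial.map_map]
    congr 1
    apply Polynomial.ringHom_ext
    · intro a
      simp
    · simp
  rw [h4, hφ, hF₁] at h3
  · exact h3
  · exact hc

/-- A monic polynomial over a fraction-closed domain is irreducible over the fraction field of
`R[x]` iff it is irreducible. -/
theorem irrOver_iff {R K : Type*} [CommRing R] [IsDomain R] [IsIntegrallyClosed R]
    [Field K] [Algebra R K] [IsFractionRing R K] (g : R[X][X]) (hg : g.Monic) :
    IrrOver R K g ↔ Irreducible g := by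
  letI : Algebra R[X] (RatFunc K) :=
    ((algebraMap K[X] (RatFunc K)).comp (mapRingHom (algebraMap R K))).toAlgebra
  haveI : IsFractionRing R[X] (RatFunc K) := HitRed.isFractionRing_ratFunc R K
  exact (hg.irreducible_iff_irreducible_map_fraction_map (K := RatFunc K)).symm

/-- A polynomial irreducible of degree at least two has no root. -/
theorem no_root {K : Type*} [Field K] {p : K[X]} (hp : Irreducible p) (h2 : 2 ≤ p.natDegree)
    (y : K) : p.eval y ≠ 0 := by
  intro h
  have h1 := degree_eq_one_of_irreducible_of_root hp (x := y) h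
  have h3 : p.natDegree = 1 := natDegree_eq_of_degree_eq_some h1
  omega

/-- Monic polynomials over `ℚ[X]` without roots have no rational roots at almost all integers. -/
theorem dz_rat (n : ℕ) : ∀ G : ℚ[X][X], G.natDegree = n → G.Monic →
    (∀ y : ℚ[X], G.eval y ≠ 0) →
    DZ {c : ℤ | ∃ y : ℚ, (G.map (evalRingHom (c : ℚ))).eval y = 0} := by
  induction n using Nat.strong_induction_on with
  | _ n ih =>
    intro G hn hG hroot
    by_cases h1 : G = 1
    · refine DZ.finite ?_
      convert Set.finite_empty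
      ext c
      simp [h1]
    by_cases hirr : Irreducible G
    · have h2 : 2 ≤ G.natDegree := by
        by_contra hcon
        have h0 : G.natDegree ≠ 0 := fun h => h1 (hG.natDegree_eq_zero.1 h)
        have h3 : G.natDegree = 1 := by omega
        apply hroot (-(G.coeff 0))
        rw [hG.eq_X_add_C h3]
        simp
      have hirr' : Irreducible (G.map (algebraMap ℚ[X] (RatFunc ℚ))) :=
        (hG.irreducible_iff_irreducible_map_fraction_map (K := RatFunc ℚ)).1 hirr
      obtain ⟨T, hT, hT'⟩ := key (R := ℤ) G hirr'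
      refine (DZ.biUnion T (fun g => {c : ℤ | ∃ y : ℤ, (g.map (evalRingHom c)).eval y = 0})
        fun g hg => dz_int g (hT g hg).1 (hT g hg).2.1 (hT g hg).2.2).mono ?_
      rintro c ⟨y, hy⟩
      by_contra hcon
      simp only [Set.mem_ofPred_eq, not_exists, not_and] at hcon
      have h4 := hT' c (by rw [hG.leadingCoeff]; simp) (fun g hg y => hcon g hg y)
      rw [eq_intCast] at h4
      refine no_root h4 ?_ y hy
      rw [hG.natDegree_map]
      exact h2
    · rw [hG.irreducible_iff_natDegree] at hirr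
      push Not at hirr
      obtain ⟨f, g, hf, hg, hfg, hf0, hg0⟩ := hirr h1
      have hdeg : f.natDegree + g.natDegree = G.natDegree := by
        rw [← hfg, hf.natDegree_mul hg]
      have e1 := ih f.natDegree (by omega) f rfl hf (fun y hy => hroot y (by
        rw [← hfg, eval_mul, hy, zero_mul]))
      have e2 := ih g.natDegree (by omega) g rfl hg (fun y hy => hroot y (by
        rw [← hfg, eval_mul, hy, mul_zero]))
      refine (e1.union e2).mono ?_
      rintro c ⟨y, hy⟩
      rw [← hfg, Polynomial.map_mul, eval_mul, mul_eq_zero] at hy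
      rcases hy with hy | hy
      · exact Or.inl ⟨y, hy⟩
      · exact Or.inr ⟨y, hy⟩

/-- One integer without roots. -/
theorem exists_int (g : ℚ[X][X][X]) (hg : g.Monic) (hn : 2 ≤ g.natDegree)
    (hirr : IrrOver ℚ[X] (RatFunc ℚ) g) :
    ∃ n : ℤ, ∀ y : ℚ[X], (g.map (evalRingHom (C (n : ℚ)))).eval y ≠ 0 := by
  obtain ⟨κ, κ', hκ⟩ := exists_kappa {g}
  obtain ⟨hκ1, hκ2⟩ := hκ g (Finset.mem_singleton_self g)
  set r : ℚ[X][X] := g.resultant g.derivative with hr
  have hr0 : r ≠ 0 := res_ne_zero (K := RatFunc ℚ) g hirr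
  obtain ⟨γ, hγ⟩ : ∃ γ : ℤ, r.eval (C (γ : ℚ)) ≠ 0 := by
    by_contra hcon
    push Not at hcon
    apply hr0
    apply Polynomial.eq_zero_of_infinite_isRoot
    exact (Set.infinite_range_of_injective
      ((C_injective (R := ℚ)).comp (Int.cast_injective))).mono
      (by rintro _ ⟨γ, rfl⟩; exact hcon γ)
  obtain ⟨τ, hτ⟩ : ∃ τ : ℤ, (r.eval (C (γ : ℚ))).eval (τ : ℚ) ≠ 0 := by
    by_contra hcon
    push Not at hcon
    apply hγ
    apply Polynomial.eq_zero_of_infinite_isRoot
    exact (Set.infinite_range_of_injective (Int.cast_injective (α := ℚ))).mono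
      (by rintro _ ⟨γ, rfl⟩; exact hcon γ)
  have hψ : (eval₂RingHom (evalRingHom (τ : ℚ)) (γ : ℚ)) (g.resultant g.derivative) ≠ 0 := by
    intro h0
    apply hτ
    have h1 : (evalRingHom (τ : ℚ)).comp (evalRingHom (C (γ : ℚ))) =
        eval₂RingHom (evalRingHom (τ : ℚ)) (γ : ℚ) := by
      apply Polynomial.ringHom_ext
      · intro a
        simp
      · simp
    have h2 : (r.eval (C (γ : ℚ))).eval (τ : ℚ) =
        (eval₂RingHom (evalRingHom (τ : ℚ)) (γ : ℚ)) r := by
      rw [← h1]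
      rfl
    rw [h2, hr, h0]
  have hbad := bad_finite g hg hn hirr hκ1 hκ2 (Nat.lt_succ_self κ') (τ : ℚ) (γ : ℚ) hψ
  obtain ⟨u, hu⟩ : ∃ u : ℤ, ¬ ∃ y : ℚ[X],
      (g.map (evalRingHom (cu (τ : ℚ) (γ : ℚ) (κ' + 1) (u : ℚ)))).eval y = 0 := by
    by_contra hcon
    push Not at hcon
    have hinf := Set.infinite_range_of_injective (Int.cast_injective (α := ℚ))
    exact hinf (hbad.subset (by rintro _ ⟨u, rfl⟩; exact hcon u))
  push Not at hu
  have h1 := dz_rat _ (g.map (evalRingHom (cu (τ : ℚ) (γ : ℚ) (κ' + 1) (u : ℚ)))) rfl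
    (hg.map _) hu
  obtain ⟨c, hc⟩ := h1.exists_notMem
  simp only [Set.mem_ofPred_eq, not_exists] at hc
  refine ⟨γ + u * (c - τ) ^ (κ' + 1), fun y hy => hc (y.eval (c : ℚ)) ?_⟩
  have h2 := eval_eval g (C ((γ + u * (c - τ) ^ (κ' + 1) : ℤ) : ℚ)) y (c : ℚ)
  rw [hy, eval_zero, eval_C] at h2
  rw [Polynomial.map_map]
  have h3 : (evalRingHom (c : ℚ)).comp
      (evalRingHom (cu (τ : ℚ) (γ : ℚ) (κ' + 1) (u : ℚ))) =
      eval₂RingHom (evalRingHom (c : ℚ)) ((γ + u * (c - τ) ^ (κ' + 1) : ℤ) : ℚ) := by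
    apply Polynomial.ringHom_ext
    · intro a
      simp
    · simp [cu]
  rw [h3]
  exact h2.symm

/-- Exchanging the variables. -/
theorem exists_int_swap (g : ℚ[X][X][X]) (hg : g.Monic) (hn : 2 ≤ g.natDegree)
    (hirr : IrrOver ℚ[X] (RatFunc ℚ) g) :
    ∃ τ : ℤ, ∀ y : ℚ[X], (g.map (mapRingHom (evalRingHom (τ : ℚ)))).eval y ≠ 0 := by
  let σ : ℚ[X][X] ≃+* ℚ[X][X] := (Bivariate.swap (R := ℚ)).toRingEquiv
  have hirr' : Irreducible g := (irrOver_iff g hg).1 hirr
  have h1 : IrrOver ℚ[X] (RatFunc ℚ) (g.map (σ : ℚ[X][X] →+* ℚ[X][X])) := by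
    rw [irrOver_iff _ (hg.map _)]
    exact (MulEquiv.irreducible_iff (Polynomial.mapEquiv σ)).2 hirr'
  obtain ⟨τ, hτ⟩ := exists_int _ (hg.map (σ : ℚ[X][X] →+* ℚ[X][X]))
    (by rw [hg.natDegree_map]; exact hn) h1
  refine ⟨τ, fun y hy => hτ y ?_⟩
  rw [Polynomial.map_map]
  have h2 : (evalRingHom (C (τ : ℚ))).comp (σ : ℚ[X][X] →+* ℚ[X][X]) =
      mapRingHom (evalRingHom (τ : ℚ)) := by
    apply Polynomial.ringHom_ext
    · intro a
      change (Bivariate.swap (C a)).eval (C (τ : ℚ)) = _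
      rw [Bivariate.swap_C, eval_map, eval₂_eq_sum_range, coe_mapRingHom, map_C,
        coe_evalRingHom, eval_eq_sum_range]
      simp
    · change (Bivariate.swap X).eval (C (τ : ℚ)) = _
      rw [Bivariate.swap_Y]
      simp
  rw [h2]
  exact hy

/-- **Constant specialisations, monic case.** -/
theorem dz_pol (g : ℚ[X][X][X]) (hg : g.Monic) (hn : 2 ≤ g.natDegree)
    (hirr : IrrOver ℚ[X] (RatFunc ℚ) g) :
    DZ {n : ℤ | ∃ y : ℚ[X], (g.map (evalRingHom (C (n : ℚ)))).eval y = 0} := by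
  obtain ⟨τ, hτ⟩ := exists_int_swap g hg hn hirr
  refine (dz_rat _ (g.map (mapRingHom (evalRingHom (τ : ℚ)))) rfl (hg.map _) hτ).mono ?_
  rintro n ⟨y, hy⟩
  refine ⟨y.eval (τ : ℚ), ?_⟩
  have h2 := eval_eval g (C (n : ℚ)) y (τ : ℚ)
  rw [hy, eval_zero, eval_C] at h2
  rw [Polynomial.map_map]
  have h3 : (evalRingHom (n : ℚ)).comp (mapRingHom (evalRingHom (τ : ℚ))) =
      eval₂RingHom (evalRingHom (τ : ℚ)) (n : ℚ) := by
    apply Polynomial.ringHom_ext
    · intro a
      simp
    · simp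
  rw [h3]
  exact h2.symm

/-- **Constant specialisations.** A polynomial over `ℚ(t)[x]`, irreducible over `ℚ(t, x)` and of
degree at least two, has a root in `ℚ(t)` at a set of integers of density zero only. -/
theorem dz_ratFunc (h : (RatFunc ℚ)[X][X])
    (hirr : Irreducible (h.map (algebraMap (RatFunc ℚ)[X] (RatFunc (RatFunc ℚ)))))
    (hn : 2 ≤ h.natDegree) :
    DZ {n : ℤ | ∃ y : RatFunc ℚ, (h.map (evalRingHom (n : RatFunc ℚ))).eval y = 0} := by
  obtain ⟨T, hT, hT'⟩ := key (R := ℚ[X]) h hirr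
  have h0 : h ≠ 0 := by
    rintro rfl
    simp at hn
  have hlc : h.leadingCoeff ≠ 0 := leadingCoeff_ne_zero.mpr h0
  have hfin : {n : ℤ | h.leadingCoeff.eval (n : RatFunc ℚ) = 0}.Finite := by
    have h1 : {x : RatFunc ℚ | h.leadingCoeff.eval x = 0}.Finite := by
      refine (h.leadingCoeff.roots.toFinset.finite_toSet).subset fun c hc => ?_
      rw [Finset.mem_coe, Multiset.mem_toFinset, mem_roots hlc]
      exact hc
    exact Set.Finite.preimage (f := fun n : ℤ => (n : RatFunc ℚ)) Int.cast_injective.injOn h1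
  refine ((DZ.finite hfin).union (DZ.biUnion T
    (fun g => {n : ℤ | ∃ y : ℚ[X], (g.map (evalRingHom (C (n : ℚ)))).eval y = 0})
    fun g hg => dz_pol g (hT g hg).1 (hT g hg).2.1 (hT g hg).2.2)).mono ?_
  rintro n ⟨y, hy⟩
  by_contra hcon
  simp only [Set.mem_union, Set.mem_ofPred_eq, not_or, not_exists, not_and] at hcon
  obtain ⟨hc1, hc2⟩ := hcon
  have e1 : algebraMap ℚ[X] (RatFunc ℚ) (C (n : ℚ)) = (n : RatFunc ℚ) := by
    rw [C_eq_intCast, map_intCast]
  have h4 := hT' (C (n : ℚ)) (by rw [e1]; exact hc1) hc2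
  rw [e1] at h4
  refine no_root h4 ?_ y hy
  rw [natDegree_map_of_leadingCoeff_ne_zero]
  · exact hn
  · exact hc1

end Pool.Agent.OneQ
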