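import Mathlib
import Pool.Agent.OneQ.Spec

/-!
# The ultraproduct and its relatively algebraically closed subfield
-/

open Polynomial Filter

noncomputable section

open scoped Classical

namespace Pool.Agent.OneQ

open Pool.Agent.MP1bdb59C

/-- The ultrapower. -/
abbrev St (φ : Ultrafilter ℤ) (K : Type*) : Type _ := (φ : Filter ℤ).Germ K

variable {φ : Ultrafilter ℤ} {K : Type*} [Field K]

/-- The ring homomorphism from sequences. -/
def toSt (φ : Ultrafilter ℤ) (K : Type*) [CommRing K] : (ℤ → K) →+* St φ K :=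
  Germ.coeRingHom (φ : Filter ℤ)

theorem toSt_surj {K : Type*} [CommRing K] (z : St φ K) : ∃ f : ℤ → K, toSt φ K f = z := by
  induction z using Germ.inductionOn with
  | _ f => exact ⟨f, rfl⟩

theorem toSt_eq {K : Type*} [CommRing K] (f g : ℤ → K) :
    toSt φ K f = toSt φ K g ↔ ∀ᶠ n in (φ : Filter ℤ), f n = g n :=
  Germ.coe_eq

theorem toSt_eq_zero {K : Type*} [CommRing K] (f : ℤ → K) :
    toSt φ K f = 0 ↔ ∀ᶠ n in (φ : Filter ℤ), f n = 0 := by
  rw [← map_zero (toSt φ K), toSt_eq]
  rfl

/-- Constants. -/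
def cst (φ : Ultrafilter ℤ) (K : Type*) [CommRing K] : K →+* St φ K :=
  (toSt φ K).comp (Pi.constRingHom ℤ K)

/-- Values of polynomials at integers. -/
def jp (φ : Ultrafilter ℤ) (K : Type*) [CommRing K] : K[X] →+* St φ K :=
  (toSt φ K).comp (RingHom.pi fun n : ℤ => evalRingHom (n : K))

theorem jp_apply {K : Type*} [CommRing K] (p : K[X]) :
    jp φ K p = toSt φ K fun n => p.eval (n : K) := rfl

/-- The ultrafilter contains no finite set. -/
def NP (φ : Ultrafilter ℤ) : Prop := ∀ T : Set ℤ, T.Finite → T ∉ φ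

/-- The ultrafilter contains no set of density zero. -/
def ND (φ : Ultrafilter ℤ) : Prop := ∀ T : Set ℤ, DZ T → T ∉ φ

theorem ND.np (h : ND φ) : NP φ := fun T hT => h T (DZ.finite hT)

theorem finite_roots [CharZero K] {p : K[X]} (hp : p ≠ 0) :
    {n : ℤ | p.eval (n : K) = 0}.Finite := by
  have h1 : {x : K | p.eval x = 0}.Finite := by
    refine (p.roots.toFinset.finite_toSet).subset fun c hc => ?_
    rw [Finset.mem_coe, Multiset.mem_toFinset, mem_roots hp]
    exact hc
  exact Set.Finite.preimage (f := fun n : ℤ => (n : K)) Int.cast_injective.injOn h1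

theorem jp_injective [CharZero K] (h : NP φ) : Function.Injective (jp φ K) := by
  rw [injective_iff_map_eq_zero]
  intro p hp
  by_contra h0
  rw [jp_apply, toSt_eq_zero] at hp
  exact h _ (finite_roots h0) hp

/-- `K(x)` in the ultraproduct. -/
def jj [CharZero K] (h : NP φ) : RatFunc K →+* St φ K :=
  IsFractionRing.lift (A := K[X]) (g := jp φ K) (jp_injective h)

theorem jj_algebraMap [CharZero K] (h : NP φ) (p : K[X]) :
    jj h (algebraMap K[X] (RatFunc K) p) = jp φ K p :=
  IsFractionRing.lift_algebraMap _ _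

/-- The property of `K` that comes from Hilbert's irreducibility theorem. -/
def HasDZ (K : Type*) [Field K] : Prop :=
  ∀ h : K[X][X], Irreducible (h.map (algebraMap K[X] (RatFunc K))) → 2 ≤ h.natDegree →
    DZ {n : ℤ | ∃ y : K, (h.map (evalRingHom (n : K))).eval y = 0}

theorem hasDZ_ratFunc : HasDZ (RatFunc ℚ) := dz_ratFunc

theorem hasDZ_rat : HasDZ ℚ := by
  intro h hirr hn
  obtain ⟨T, hT, hT'⟩ := key (R := ℤ) h hirr
  have h0 : h ≠ 0 := by
    rintro rfl
    simp at hn
  have hlc : h.leadingCoeff ≠ 0 := leadingCoeff_ne_zero.mpr h0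
  refine ((DZ.finite (finite_roots hlc)).union (DZ.biUnion T
    (fun g => {n : ℤ | ∃ y : ℤ, (g.map (evalRingHom n)).eval y = 0})
    fun g hg => dz_int g (hT g hg).1 (hT g hg).2.1 (hT g hg).2.2)).mono ?_
  rintro n ⟨y, hy⟩
  by_contra hcon
  simp only [Set.mem_union, Set.mem_ofPred_eq, not_or, not_exists, not_and] at hcon
  obtain ⟨hc1, hc2⟩ := hcon
  have h4 := hT' n (by rw [eq_intCast]; exact hc1) hc2
  rw [eq_intCast] at h4
  refine no_root h4 ?_ y hy
  rw [natDegree_map_of_leadingCoeff_ne_zero]
  · exact hn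
  · exact hc1

/-- Values of a polynomial at germs. -/
theorem eval_germ {K : Type*} [CommRing K] (q : K[X][X]) (z : ℤ → K) :
    (q.map (jp φ K)).eval (toSt φ K z) =
      toSt φ K fun n => (q.map (evalRingHom (n : K))).eval (z n) := by
  have h : eval₂RingHom (jp φ K) (toSt φ K z) =
      (toSt φ K).comp (RingHom.pi fun n : ℤ => eval₂RingHom (evalRingHom (n : K)) (z n)) := by
    apply Polynomial.ringHom_ext
    · intro a
      simp only [coe_eval₂RingHom, eval₂_C, RingHom.comp_apply, jp_apply]
      congr 1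
      funext n
      change a.eval (n : K) = eval₂ (evalRingHom (n : K)) (z n) (C a)
      rw [eval₂_C]
      rfl
    · simp only [coe_eval₂RingHom, eval₂_X, RingHom.comp_apply]
      congr 1
      funext n
      change z n = eval₂ (evalRingHom (n : K)) (z n) X
      rw [eval₂_X]
  rw [eval_map, ← coe_eval₂RingHom, h, RingHom.comp_apply]
  congr 1
  funext n
  change eval₂ (evalRingHom (n : K)) (z n) q = _
  rw [eval_map]

/-- `K(x)` is relatively algebraically closed in the ultraproduct. -/
theorem relAlg [CharZero K] (hK : HasDZ K) (hφ : ND φ) (z : St φ K) (p : (RatFunc K)[X])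
    (hp : p ≠ 0) (hpz : (p.map (jj hφ.np)).eval z = 0) : ∃ r : RatFunc K, jj hφ.np r = z := by
  let _ : Algebra (RatFunc K) (St φ K) := (jj hφ.np).toAlgebra
  have halg : IsAlgebraic (RatFunc K) z := ⟨p, hp, by
    rw [aeval_def, ← eval_map]
    exact hpz⟩
  have hint : IsIntegral (RatFunc K) z := halg.isIntegral
  by_cases h2 : 2 ≤ (minpoly (RatFunc K) z).natDegree
  · exfalso
    obtain ⟨b, hb', hb⟩ := IsLocalization.integerNormalization_spec (nonZeroDivisors K[X])
      (minpoly (RatFunc K) z)
    set q : K[X][X] := IsLocalization.integerNormalization (nonZeroDivisors K[X])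
      (minpoly (RatFunc K) z)
    have hb0 : algebraMap K[X] (RatFunc K) b ≠ 0 := by
      rw [Ne, IsFractionRing.to_map_eq_zero_iff]
      exact nonZeroDivisors.ne_zero hb'
    have hq : q.map (algebraMap K[X] (RatFunc K)) =
        C (algebraMap K[X] (RatFunc K) b) * minpoly (RatFunc K) z := by
      rw [hb, ← Polynomial.smul_eq_C_mul, algebraMap_smul]
    have hqirr : Irreducible (q.map (algebraMap K[X] (RatFunc K))) := by
      rw [hq]
      exact (irreducible_isUnit_mul (isUnit_C.2 (IsUnit.mk0 _ hb0))).2 (minpoly.irreducible hint)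
    have hqdeg : q.natDegree = (minpoly (RatFunc K) z).natDegree := by
      rw [← natDegree_map_eq_of_injective (IsFractionRing.injective K[X] (RatFunc K)), hq,
        natDegree_C_mul hb0]
    refine hφ _ (hK q hqirr (by rw [hqdeg]; exact h2)) ?_
    obtain ⟨f, rfl⟩ := toSt_surj z
    have h3 : (q.map (jp φ K)).eval (toSt φ K f) = 0 := by
      have e1 : jp φ K = (jj hφ.np).comp (algebraMap K[X] (RatFunc K)) :=
        RingHom.ext fun p => (jj_algebraMap hφ.np p).symm
      rw [e1, ← Polynomial.map_map, hq, Polynomial.map_mul, eval_mul]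
      have e2 : ((minpoly (RatFunc K) (toSt φ K f)).map (jj hφ.np)).eval (toSt φ K f) = 0 := by
        rw [eval_map]
        exact minpoly.aeval (RatFunc K) (toSt φ K f)
      rw [e2, mul_zero]
    rw [eval_germ, toSt_eq_zero] at h3
    exact mem_of_superset h3 fun n hn => ⟨f n, hn⟩
  · have h3 : (minpoly (RatFunc K) z).natDegree = 1 := by
      have := minpoly.natDegree_pos hint
      omega
    obtain ⟨r, hr⟩ := minpoly.natDegree_eq_one_iff.1 h3
    exact ⟨r, hr⟩

end Pool.Agent.OneQ
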