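import Mathlib
import Pool.Agent.OneQ.Germ

/-!
# Quantifier-free formulas and rational witnesses
-/

open Polynomial Filter

noncomputable section

open scoped Classical

universe u

namespace Pool.Agent.OneQ

/-- The theorem of Łoś. -/
theorem los {φ : Ultrafilter ℤ} {K : Type*} [Field K] {σ : Type*} (v : σ → ℤ → K) (ψ : QF K σ) :
    ψ.Holds (cst φ K) (fun i => toSt φ K (v i)) ↔
      ∀ᶠ n in (φ : Filter ℤ), ψ.Holds (RingHom.id K) (fun i => v i n) := by
  induction ψ with
  | eq P =>
    have h : P.eval₂ (cst φ K) (fun i => toSt φ K (v i)) =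
        toSt φ K fun n => P.eval₂ (RingHom.id K) (fun i => v i n) := by
      have h1 : MvPolynomial.eval₂Hom (cst φ K) (fun i => toSt φ K (v i)) =
          (toSt φ K).comp (RingHom.pi fun n : ℤ =>
            MvPolynomial.eval₂Hom (RingHom.id K) (fun i => v i n)) := by
        apply MvPolynomial.ringHom_ext
        · intro a
          rw [MvPolynomial.eval₂Hom_C, RingHom.comp_apply, cst, RingHom.comp_apply]
          congr 1
          funext n
          change a = MvPolynomial.eval₂Hom (RingHom.id K) (fun i => v i n) (MvPolynomial.C a)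
          rw [MvPolynomial.eval₂Hom_C]
          rfl
        · intro i
          rw [MvPolynomial.eval₂Hom_X', RingHom.comp_apply]
          congr 1
          funext n
          change v i n = MvPolynomial.eval₂Hom (RingHom.id K) (fun i => v i n) (MvPolynomial.X i)
          rw [MvPolynomial.eval₂Hom_X']
      have h2 := RingHom.congr_fun h1 P
      exact h2
    simp only [QF.Holds]
    rw [h, toSt_eq_zero]
  | not ψ ih =>
    simp only [QF.Holds]
    rw [ih, Ultrafilter.eventually_not]
  | and ψ χ ih1 ih2 =>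
    simp only [QF.Holds]
    rw [ih1, ih2, ← eventually_and]

/-- Clearing denominators. -/
theorem clear {K A : Type u} [Field K] [CommRing A] {σ : Type*} (c : K →+* A) (N : σ → A) (D : A)
    (P : MvPolynomial σ K) : ∃ (k : ℕ) (Q : A), ∀ (B : Type u) [Field B] (g : A →+* B), g D ≠ 0 →
      P.eval₂ (g.comp c) (fun i => g (N i) / g D) = g Q / (g D) ^ k := by
  induction P using MvPolynomial.induction_on with
  | C a =>
    refine ⟨0, c a, fun B _ g hg => ?_⟩
    rw [MvPolynomial.eval₂_C]
    simp
  | add p q hp hq =>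
    obtain ⟨k1, Q1, h1⟩ := hp
    obtain ⟨k2, Q2, h2⟩ := hq
    refine ⟨k1 + k2, Q1 * D ^ k2 + Q2 * D ^ k1, fun B _ g hg => ?_⟩
    rw [MvPolynomial.eval₂_add, h1 B g hg, h2 B g hg, map_add, map_mul, map_mul, map_pow, map_pow]
    field_simp
    ring
  | mul_X p i hp =>
    obtain ⟨k, Q, h⟩ := hp
    refine ⟨k + 1, Q * N i, fun B _ g hg => ?_⟩
    rw [MvPolynomial.eval₂_mul, MvPolynomial.eval₂_X, h B g hg, map_mul]
    field_simp
    ring

/-- Quantifier-free formulas under generic specialisations. -/
theorem spec {K A : Type u} [Field K] [CommRing A] [IsDomain A] {σ : Type*} (c : K →+* A)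
    (N : σ → A) (D : A) (hD : D ≠ 0) (ψ : QF K σ) : ∃ E : A, E ≠ 0 ∧ ∃ b : Prop,
      ∀ (B : Type u) [Field B] (g : A →+* B), g E ≠ 0 →
        (g D ≠ 0 ∧ (ψ.Holds (g.comp c) (fun i => g (N i) / g D) ↔ b)) := by
  induction ψ with
  | eq P =>
    obtain ⟨k, Q, h⟩ := clear c N D P
    by_cases hQ : Q = 0
    · refine ⟨D, hD, True, fun B _ g hg => ⟨hg, ?_⟩⟩
      simp only [QF.Holds]
      rw [h B g hg, hQ]
      simp
    · refine ⟨D * Q, mul_ne_zero hD hQ, False, fun B _ g hg => ?_⟩
      rw [map_mul] at hg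
      have hg1 := left_ne_zero_of_mul hg
      have hg2 := right_ne_zero_of_mul hg
      refine ⟨hg1, ?_⟩
      simp only [QF.Holds]
      rw [h B g hg1]
      simp [hg1, hg2]
  | not ψ ih =>
    obtain ⟨E, hE, b, h⟩ := ih
    refine ⟨E, hE, ¬ b, fun B _ g hg => ⟨(h B g hg).1, ?_⟩⟩
    simp only [QF.Holds]
    rw [(h B g hg).2]
  | and ψ χ ih1 ih2 =>
    obtain ⟨E1, hE1, b1, h1⟩ := ih1
    obtain ⟨E2, hE2, b2, h2⟩ := ih2
    refine ⟨E1 * E2, mul_ne_zero hE1 hE2, b1 ∧ b2, fun B _ g hg => ?_⟩
    rw [map_mul] at hg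
    have hg1 := left_ne_zero_of_mul hg
    have hg2 := right_ne_zero_of_mul hg
    refine ⟨(h1 B g hg1).1, ?_⟩
    simp only [QF.Holds]
    rw [(h1 B g hg1).2, (h2 B g hg2).2]

/-- Common denominators. -/
theorem common {A B : Type u} [CommRing A] [Field B] {σ : Type*} [Fintype σ] (ι : A →+* B)
    (v : σ → B) (hv : ∀ i, v i ∈ Subfield.closure (ι.range : Set B)) :
    ∃ (N : σ → A) (D : A), ι D ≠ 0 ∧ ∀ i, v i = ι (N i) / ι D := by
  have h1 : ∀ i, ∃ (a d : A), ι d ≠ 0 ∧ v i = ι a / ι d := by
    intro i
    obtain ⟨y, hy, z, hz, h⟩ := Subfield.mem_closure_iff.1 (hv i)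
    rw [Subring.closure_eq] at hy hz
    obtain ⟨a, rfl⟩ := hy
    obtain ⟨d, rfl⟩ := hz
    by_cases hd : ι d = 0
    · refine ⟨0, 1, by simp, ?_⟩
      rw [← h, hd]
      simp
    · exact ⟨a, d, hd, h.symm⟩
  choose a d hd h using h1
  refine ⟨fun i => a i * ∏ j ∈ Finset.univ.erase i, d j, ∏ j, d j, ?_, fun i => ?_⟩
  · rw [map_prod]
    exact Finset.prod_ne_zero_iff.2 fun j _ => hd j
  · rw [h i, ← Finset.mul_prod_erase _ _ (Finset.mem_univ i), map_mul, map_mul]
    have h2 : ι (∏ j ∈ Finset.univ.erase i, d j) ≠ 0 := by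
      rw [map_prod]
      exact Finset.prod_ne_zero_iff.2 fun j _ => hd j
    rw [mul_div_mul_right _ _ h2]

/-- `K[x][s]` in the ultraproduct. -/
def js {K : Type*} [CommRing K] {φ : Ultrafilter ℤ} (s : St φ K) : K[X][X] →+* St φ K :=
  eval₂RingHom (jp φ K) s

/-- `K(x, s)` in the ultraproduct. -/
def Ls {K : Type*} [Field K] {φ : Ultrafilter ℤ} (s : St φ K) : Subfield (St φ K) :=
  Subfield.closure ((js s).range : Set (St φ K))

theorem mem_Ls {K : Type*} [Field K] {φ : Ultrafilter ℤ} (s : St φ K) : s ∈ Ls s :=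
  Subfield.subset_closure ⟨X, by simp [js]⟩

theorem jp_mem_Ls {K : Type*} [Field K] {φ : Ultrafilter ℤ} (s : St φ K) (p : K[X]) :
    jp φ K p ∈ Ls s := Subfield.subset_closure ⟨C p, by simp [js]⟩

theorem jj_mem_Ls {K : Type*} [Field K] [CharZero K] {φ : Ultrafilter ℤ} (h : NP φ) (s : St φ K)
    (r : RatFunc K) : jj h r ∈ Ls s := by
  rw [← RatFunc.num_div_denom r, map_div₀, jj_algebraMap, jj_algebraMap]
  exact div_mem (jp_mem_Ls s _) (jp_mem_Ls s _)

/-- **Rational witnesses give cofinite sets.** -/
theorem cofinite_of_rational {K : Type u} [Field K] [CharZero K] {φ : Ultrafilter ℤ}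
    (hK : HasDZ K) (hφ : ND φ) {τ : Type} [Fintype τ] (ψ : QF K (Option τ)) (w : τ → ℤ → K)
    (hw : ∀ᶠ n : ℤ in (φ : Filter ℤ),
      ψ.Holds (RingHom.id K) (fun i => Option.elim i (n : K) (fun j => w j n)))
    (s : St φ K) (hs : ∀ j, toSt φ K (w j) ∈ Ls s) :
    {x : K | ¬ ∃ y : τ → K, ψ.Holds (RingHom.id K) (fun i => Option.elim i x y)}.Finite := by
  have hinf : Infinite K := inferInstance
  -- the general argument
  have main : ∀ (A : Type u) [CommRing A] [IsDomain A] (c : K →+* A) (ι : A →+* St φ K)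
      (xA : A) (ev : K → K → A →+* K), Function.Injective ι → ι.comp c = cst φ K →
      ι xA = toSt φ K (fun n : ℤ => (n : K)) → (∀ x t, (ev x t).comp c = RingHom.id K) →
      (∀ x t, ev x t xA = x) →
      (∀ E : A, E ≠ 0 → {x : K | ¬ ∃ t, ev x t E ≠ 0}.Finite) →
      (∀ j, toSt φ K (w j) ∈ Subfield.closure (ι.range : Set (St φ K))) →
      {x : K | ¬ ∃ y : τ → K, ψ.Holds (RingHom.id K) (fun i => Option.elim i x y)}.Finite := by
    intro A _ _ c ι xA ev hι hc hxA hev hevx hfin hmem
    obtain ⟨N, D, hD, hN⟩ := common ι (fun j => toSt φ K (w j)) hmem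
    have hD0 : D ≠ 0 := by
      rintro rfl
      exact hD (map_zero ι)
    obtain ⟨E, hE, b, hb⟩ := spec c (fun i : Option τ => Option.elim i (xA * D) N) D hD0 ψ
    have hιE : ι E ≠ 0 := by
      rw [Ne, map_eq_zero_iff _ hι]
      exact hE
    have h1 := (hb _ ι hιE).2
    have hbt : b := by
      rw [← h1, hc]
      have h2 : (fun i : Option τ => ι (Option.elim i (xA * D) N) / ι D) =
          fun i => toSt φ K (Option.elim i (fun n : ℤ => (n : K)) w) := by
        funext i
        rcases i with _ | j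
        · simp only [Option.elim_none]
          rw [map_mul, mul_div_cancel_right₀ _ hD, hxA]
        · simp only [Option.elim_some]
          exact (hN j).symm
      rw [h2, los]
      refine hw.mono fun n hn => ?_
      convert hn using 2 with i
      rcases i with _ | j <;> rfl
    refine (hfin E hE).subset fun x hx hx' => hx ?_
    obtain ⟨t, ht⟩ := hx'
    obtain ⟨h2, h3⟩ := hb _ (ev x t) ht
    refine ⟨fun j => ev x t (N j) / ev x t D, ?_⟩
    have h4 := h3.2 hbt
    rw [hev] at h4
    convert h4 using 2 with i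
    rcases i with _ | j
    · simp only [Option.elim_none]
      rw [map_mul, mul_div_cancel_right₀ _ h2, hevx]
    · rfl
  have hfin1 : ∀ E : K[X], E ≠ 0 → {x : K | E.eval x = 0}.Finite := by
    intro E hE
    refine (E.roots.toFinset.finite_toSet).subset fun c hc => ?_
    rw [Finset.mem_coe, Multiset.mem_toFinset, mem_roots hE]
    exact hc
  by_cases htr : Function.Injective (js s)
  · refine main K[X][X] (C.comp C) (js s) (C X)
      (fun x t => eval₂RingHom (evalRingHom x) t) htr ?_ ?_ ?_ ?_ ?_ hs
    · refine RingHom.ext fun a => ?_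
      simp only [RingHom.comp_apply, js, coe_eval₂RingHom, eval₂_C, jp_apply, cst]
      congr 1
      funext n
      simp
    · simp only [js, coe_eval₂RingHom, eval₂_C, jp_apply]
      congr 1
      funext n
      simp
    · intro x t
      refine RingHom.ext fun a => ?_
      simp
    · intro x t
      simp
    · intro E hE
      obtain ⟨i, hi⟩ : ∃ i, E.coeff i ≠ 0 := by
        by_contra hcon
        push Not at hcon
        exact hE (Polynomial.ext fun i => by rw [hcon i, coeff_zero])
      refine (hfin1 _ hi).subset fun x hx => ?_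
      by_contra hx'
      apply hx
      have h1 : E.map (evalRingHom x) ≠ 0 := by
        intro h0
        apply hx'
        have := congrArg (fun p => p.coeff i) h0
        simpa using this
      by_contra hcon
      push Not at hcon
      apply h1
      apply Polynomial.funext
      intro t
      rw [eval_zero, ← hcon t, coe_eval₂RingHom, eval_map]
  · -- `s` is algebraic
    have halg : ∃ r : RatFunc K, jj hφ.np r = s := by
      rw [injective_iff_map_eq_zero] at htr
      push Not at htr
      obtain ⟨q, hq, hq0⟩ := htr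
      refine relAlg hK hφ s (q.map (algebraMap K[X] (RatFunc K))) ?_ ?_
      · rwa [Ne, Polynomial.map_eq_zero_iff (IsFractionRing.injective K[X] (RatFunc K))]
      · have e1 : (jj hφ.np).comp (algebraMap K[X] (RatFunc K)) = jp φ K :=
          RingHom.ext fun p => jj_algebraMap hφ.np p
        rw [Polynomial.map_map, e1, eval_map]
        exact hq
    obtain ⟨r, hr⟩ := halg
    have hle : Ls s ≤ Subfield.closure ((jp φ K).range : Set (St φ K)) := by
      refine Subfield.closure_le.2 ?_
      rintro _ ⟨q, rfl⟩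
      have hsm : s ∈ Subfield.closure ((jp φ K).range : Set (St φ K)) := by
        rw [← hr, ← RatFunc.num_div_denom r, map_div₀, jj_algebraMap, jj_algebraMap]
        exact div_mem (Subfield.subset_closure ⟨_, rfl⟩) (Subfield.subset_closure ⟨_, rfl⟩)
      simp only [js, coe_eval₂RingHom, eval₂_eq_sum_range]
      exact sum_mem fun i _ => mul_mem (Subfield.subset_closure ⟨_, rfl⟩) (pow_mem hsm i)
    refine main K[X] C (jp φ K) X (fun x _ => evalRingHom x) (jp_injective hφ.np) ?_ ?_ ?_ ?_ ?_
      (fun j => hle (hs j))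
    · refine RingHom.ext fun a => ?_
      simp only [RingHom.comp_apply, jp_apply, cst]
      congr 1
      funext n
      simp
    · simp only [jp_apply]
      congr 1
      funext n
      simp
    · intro x t
      refine RingHom.ext fun a => ?_
      simp
    · intro x t
      simp
    · intro E hE
      refine (hfin1 _ hE).subset fun x hx => ?_
      by_contra hx'
      exact hx ⟨0, hx'⟩

end Pool.Agent.OneQ
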