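import Mathlib
import Pool.Agent.OneQ.Form

/-!
# The dichotomy for one free witness
-/

open Polynomial Filter

noncomputable section

open scoped Classical

universe u

namespace Pool.Agent.OneQ

/-- An ultrafilter avoiding the sets of density zero. -/
theorem exists_ultra {T : Set ℤ} (hT : ¬ DZ T) : ∃ φ : Ultrafilter ℤ, T ∈ φ ∧ ND φ := by
  let F : Filter ℤ := Filter.comk DZ (DZ.finite Set.finite_empty)
    (fun t ht s hs => ht.mono hs) (fun s hs t ht => hs.union ht)
  have hmem : ∀ s : Set ℤ, s ∈ F ↔ DZ sᶜ := fun s => Iff.rfl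
  have hne : (F ⊓ 𝓟 T).NeBot := by
    refine ⟨fun h => hT ?_⟩
    rw [← disjoint_iff, disjoint_principal_right, hmem, compl_compl] at h
    exact h
  refine ⟨Ultrafilter.of (F ⊓ 𝓟 T), ?_, ?_⟩
  · exact (Ultrafilter.of_le (F ⊓ 𝓟 T)) (mem_inf_of_right (mem_principal_self T))
  · intro U hU hmem'
    have h1 : Uᶜ ∈ F := by
      rw [hmem, compl_compl]
      exact hU
    have h2 : Uᶜ ∈ Ultrafilter.of (F ⊓ 𝓟 T) :=
      (Ultrafilter.of_le (F ⊓ 𝓟 T)) (mem_inf_of_left h1)
    exact (Ultrafilter.compl_mem_iff_notMem.1 h2) hmem'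

/-- Renaming the variables. -/
def QF.rename {K σ τ : Type*} [CommSemiring K] (e : σ → τ) : QF K σ → QF K τ
  | .eq P => .eq (MvPolynomial.rename e P)
  | .not ψ => .not (ψ.rename e)
  | .and ψ χ => .and (ψ.rename e) (χ.rename e)

theorem QF.holds_rename {K σ τ A : Type*} [CommSemiring K] [CommSemiring A] (f : K →+* A)
    (e : σ → τ) (v : τ → A) (ψ : QF K σ) : (ψ.rename e).Holds f v ↔ ψ.Holds f (v ∘ e) := by
  induction ψ with
  | eq P =>
    simp only [QF.rename, QF.Holds]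
    rw [MvPolynomial.eval₂_rename]
  | not ψ ih =>
    simp only [QF.rename, QF.Holds]
    rw [ih]
  | and ψ χ ih1 ih2 =>
    simp only [QF.rename, QF.Holds]
    rw [ih1, ih2]

/-- Algebraic witnesses lie in `K(x)`. -/
theorem witness_mem {K : Type u} [Field K] [CharZero K] {φ : Ultrafilter ℤ}
    (hK : HasDZ K) (hφ : ND φ) (F : K[X][X]) (hF : F ≠ 0) (w : ℤ → K)
    (hw : ∀ᶠ n : ℤ in (φ : Filter ℤ), (F.map (evalRingHom (n : K))).eval (w n) = 0) :
    ∃ r : RatFunc K, jj hφ.np r = toSt φ K w := by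
  refine relAlg hK hφ _ (F.map (algebraMap K[X] (RatFunc K))) ?_ ?_
  · rwa [Ne, Polynomial.map_eq_zero_iff (IsFractionRing.injective K[X] (RatFunc K))]
  · have e1 : (jj hφ.np).comp (algebraMap K[X] (RatFunc K)) = jp φ K :=
      RingHom.ext fun p => jj_algebraMap hφ.np p
    rw [Polynomial.map_map, e1, eval_germ, toSt_eq_zero]
    exact hw

/-- **One free witness.** -/
theorem dich_one {K : Type u} [Field K] [CharZero K] (hK : HasDZ K) (m : ℕ)
    (ψ : QF K (Fin m ⊕ Fin 2)) (F : Fin m → K[X][X]) (hF : ∀ i, F i ≠ 0)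
    (h : ∀ (x : K) (y : Fin m → K) (u : K), ψ.Holds (RingHom.id K) (Sum.elim y ![x, u]) →
      ∀ i, ((F i).map (evalRingHom x)).eval (y i) = 0)
    (hS : ¬ DZ {n : ℤ | ∃ (y : Fin m → K) (u : K),
      ψ.Holds (RingHom.id K) (Sum.elim y ![(n : K), u])}) :
    {x : K | ¬ ∃ (y : Fin m → K) (u : K),
      ψ.Holds (RingHom.id K) (Sum.elim y ![x, u])}.Finite := by
  obtain ⟨φ, hTφ, hφ⟩ := exists_ultra hS
  have hch : ∀ n : ℤ, ∃ (y : Fin m → K) (u : K),
      (∃ (y : Fin m → K) (u : K), ψ.Holds (RingHom.id K) (Sum.elim y ![(n : K), u])) →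
      ψ.Holds (RingHom.id K) (Sum.elim y ![(n : K), u]) := by
    intro n
    by_cases hn : ∃ (y : Fin m → K) (u : K), ψ.Holds (RingHom.id K) (Sum.elim y ![(n : K), u])
    · obtain ⟨y, u, hyu⟩ := hn
      exact ⟨y, u, fun _ => hyu⟩
    · exact ⟨0, 0, fun h => absurd h hn⟩
  choose y u hyu using hch
  have hev : ∀ᶠ n : ℤ in (φ : Filter ℤ), ψ.Holds (RingHom.id K) (Sum.elim (y n) ![(n : K), u n]) :=
    mem_of_superset hTφ fun n hn => hyu n hn
  let e : Fin m ⊕ Fin 2 → Option (Fin m ⊕ Unit) :=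
    Sum.elim (fun i => some (Sum.inl i)) ![none, some (Sum.inr ())]
  let w : Fin m ⊕ Unit → ℤ → K := Sum.elim (fun i n => y n i) (fun _ => u)
  have hcomp : ∀ (x : K) (z : Fin m ⊕ Unit → K),
      (fun i : Option (Fin m ⊕ Unit) => Option.elim i x z) ∘ e =
        Sum.elim (fun i => z (Sum.inl i)) ![x, z (Sum.inr ())] := by
    intro x z
    funext i
    rcases i with i | i
    · rfl
    · fin_cases i <;> rfl
  have hfin := cofinite_of_rational hK hφ (ψ.rename e) w
    (by
      refine hev.mono fun n hn => ?_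
      rw [QF.holds_rename]
      have := hcomp (n : K) (fun j => w j n)
      rw [this]
      exact hn) (toSt φ K u)
    (by
      rintro (i | i)
      · obtain ⟨r, hr⟩ := witness_mem hK hφ (F i) (hF i) (fun n => y n i)
          (hev.mono fun n hn => h _ _ _ hn i)
        have : toSt φ K (w (Sum.inl i)) = jj hφ.np r := hr.symm
        rw [this]
        exact jj_mem_Ls _ _ _
      · exact mem_Ls _)
  refine hfin.subset fun x hx hx' => hx ?_
  obtain ⟨z, hz⟩ := hx'
  rw [QF.holds_rename, hcomp] at hz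
  exact ⟨_, _, hz⟩

end Pool.Agent.OneQ
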