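import Mathlib
import Pool.Agent.OneQ.Germ
import Pool.Agent.OneQ.Conic2

/-!
# Polynomials over the ultrapower, and conics over `ℚ(x)`
-/

open Polynomial Filter

noncomputable section

open scoped Classical

namespace Pool.Agent.OneQ

variable {φ : Ultrafilter ℤ}

/-- Functoriality of the ultrapower. -/
def mapSt (φ : Ultrafilter ℤ) {R S : Type*} [CommRing R] [CommRing S] (f : R →+* S) :
    St φ R →+* St φ S where
  toFun := Germ.map f
  map_one' := by
    change ((fun _ : ℤ => f 1 : ℤ → S) : St φ S) = 1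
    rw [map_one]
    rfl
  map_mul' x y := by
    induction x using Germ.inductionOn with
    | _ x =>
      induction y using Germ.inductionOn with
      | _ y =>
        change ((fun n : ℤ => f (x n * y n) : ℤ → S) : St φ S) = _
        simp only [map_mul]
        rfl
  map_zero' := by
    change ((fun _ : ℤ => f 0 : ℤ → S) : St φ S) = 0
    rw [map_zero]
    rfl
  map_add' x y := by
    induction x using Germ.inductionOn with
    | _ x =>
      induction y using Germ.inductionOn with
      | _ y =>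
        change ((fun n : ℤ => f (x n + y n) : ℤ → S) : St φ S) = _
        simp only [map_add]
        rfl

theorem mapSt_toSt {R S : Type*} [CommRing R] [CommRing S] (f : R →+* S) (g : ℤ → R) :
    mapSt φ f (toSt φ R g) = toSt φ S fun n => f (g n) := rfl

theorem mapSt_injective {R S : Type*} [CommRing R] [CommRing S] (f : R →+* S)
    (hf : Function.Injective f) : Function.Injective (mapSt φ f) := by
  rw [injective_iff_map_eq_zero]
  intro x hx
  obtain ⟨g, rfl⟩ := toSt_surj x
  rw [mapSt_toSt, toSt_eq_zero] at hx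
  rw [toSt_eq_zero]
  exact hx.mono fun n hn => (map_eq_zero_iff f hf).1 hn

/-- Conics over the ultrapower. -/
theorem iso_toSt {R : Type*} [CommRing R] (a b : ℤ → R) (h : Iso (toSt φ R a) (toSt φ R b)) :
    ∀ᶠ n in (φ : Filter ℤ), Iso (a n) (b n) := by
  obtain ⟨x, y, z, h0, h⟩ := h
  obtain ⟨x, rfl⟩ := toSt_surj x
  obtain ⟨y, rfl⟩ := toSt_surj y
  obtain ⟨z, rfl⟩ := toSt_surj z
  rw [toSt_eq_zero, toSt_eq_zero, toSt_eq_zero, ← eventually_and, ← eventually_and,
    ← Ultrafilter.eventually_not] at h0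
  have h1 : toSt φ R (z ^ 2) = toSt φ R (a * x ^ 2 + b * y ^ 2) := by
    rw [map_pow, map_add, map_mul, map_mul, map_pow, map_pow]
    exact h
  rw [toSt_eq] at h1
  filter_upwards [h0, h1] with n hn hn'
  exact ⟨x n, y n, z n, hn, hn'⟩

theorem toSt_iso {R : Type*} [CommRing R] (a b : ℤ → R)
    (h : ∀ᶠ n in (φ : Filter ℤ), Iso (a n) (b n)) : Iso (toSt φ R a) (toSt φ R b) := by
  have hex : ∀ n, ∃ v : R × R × R, Iso (a n) (b n) → (¬ (v.1 = 0 ∧ v.2.1 = 0 ∧ v.2.2 = 0) ∧
      v.2.2 ^ 2 = a n * v.1 ^ 2 + b n * v.2.1 ^ 2) := by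
    intro n
    by_cases hn : Iso (a n) (b n)
    · obtain ⟨x, y, z, h⟩ := hn
      exact ⟨(x, y, z), fun _ => h⟩
    · exact ⟨0, fun h => absurd h hn⟩
  choose v hv using hex
  refine ⟨toSt φ R fun n => (v n).1, toSt φ R fun n => (v n).2.1, toSt φ R fun n => (v n).2.2,
    ?_, ?_⟩
  · rw [toSt_eq_zero, toSt_eq_zero, toSt_eq_zero, ← eventually_and, ← eventually_and,
      ← Ultrafilter.eventually_not]
    exact h.mono fun n hn => (hv n hn).1
  · rw [← map_pow, ← map_pow, ← map_pow, ← map_mul, ← map_mul, ← map_add, toSt_eq]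
    exact h.mono fun n hn => (hv n hn).2

/-- **Conics over `ℚ(x)`.** -/
theorem stageB (hφ : ND φ) (a b : ℚ[X]) (ha : a ≠ 0) (hb : b ≠ 0)
    (h : Iso (jp φ ℚ a) (jp φ ℚ b)) : Iso a b := by
  refine descent (jp φ ℚ) (jp_injective hφ.np) ?_ ?_ _ a b ha hb rfl h
  · intro α β _ _ h
    rw [jp_apply, jp_apply] at h
    have h1 := iso_toSt _ _ h
    obtain ⟨n, hn⟩ := h1.exists
    rw [eval_C, eval_C] at hn
    exact hn.map C C_injective
  · intro a b π ha hb hπ hd hd2 h
    by_contra hns
    rw [jp_apply, jp_apply] at h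
    exact hφ _ (dz_conic a b π hπ hd hd2 hns) (iso_toSt _ _ h)

/-- Polynomials over the ultrapower are bounded sequences of polynomials. -/
def Th (φ : Ultrafilter ℤ) (k : Type*) [Field k] : (St φ k)[X] →+* St φ k[X] :=
  eval₂RingHom (mapSt φ C) (toSt φ k[X] fun _ => X)

/-- The polynomial of a bounded sequence. -/
def Pf {k : Type*} [Field k] (D : ℕ) (f : ℤ → k[X]) : (St φ k)[X] :=
  ∑ i ∈ Finset.range (D + 1), C (toSt φ k fun n => (f n).coeff i) * X ^ i

theorem Th_sum {k : Type*} [Field k] (D : ℕ) (c : ℕ → ℤ → k) :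
    Th φ k (∑ i ∈ Finset.range D, C (toSt φ k (c i)) * X ^ i) =
      toSt φ k[X] fun n => ∑ i ∈ Finset.range D, C (c i n) * X ^ i := by
  rw [map_sum]
  have h1 : (fun n : ℤ => ∑ i ∈ Finset.range D, (C (c i n) * X ^ i : k[X])) =
      ∑ i ∈ Finset.range D, fun n : ℤ => (C (c i n) * X ^ i : k[X]) := by
    funext n
    rw [Finset.sum_apply]
  rw [h1, map_sum]
  refine Finset.sum_congr rfl fun i _ => ?_
  rw [map_mul, map_pow]
  have h2 : (fun n : ℤ => (C (c i n) * X ^ i : k[X])) =
      (fun n : ℤ => C (c i n)) * (fun _ : ℤ => X) ^ i := rfl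
  rw [h2, map_mul, map_pow]
  congr 1
  · simp only [Th, coe_eval₂RingHom, eval₂_C, mapSt_toSt]
  · simp only [Th, coe_eval₂RingHom, eval₂_X]

theorem Th_Pf {k : Type*} [Field k] (D : ℕ) (f : ℤ → k[X]) (hf : ∀ n, (f n).natDegree ≤ D) :
    Th φ k (Pf D f) = toSt φ k[X] f := by
  rw [Pf, Th_sum]
  congr 1
  funext n
  exact (as_sum_range_C_mul_X_pow' (f n) (Nat.lt_succ_of_le (hf n))).symm

theorem Th_injective (k : Type*) [Field k] : Function.Injective (Th φ k) := by
  rw [injective_iff_map_eq_zero]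
  intro P hP
  have hex : ∀ i, ∃ c : ℤ → k, toSt φ k c = P.coeff i := fun i => toSt_surj _
  choose c hc using hex
  have h1 : P = ∑ i ∈ Finset.range (P.natDegree + 1), C (toSt φ k (c i)) * X ^ i := by
    conv_lhs => rw [P.as_sum_range_C_mul_X_pow]
    simp only [hc]
  rw [h1, Th_sum, toSt_eq_zero] at hP
  apply Polynomial.ext
  intro i
  rw [coeff_zero]
  by_cases hi : i < P.natDegree + 1
  · rw [← hc, toSt_eq_zero]
    refine hP.mono fun n hn => ?_
    have h2 := congrArg (fun p => p.coeff i) hn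
    simp only [finsetSum_coeff, coeff_C_mul, coeff_X_pow, mul_ite, mul_one, mul_zero,
      coeff_zero] at h2
    rw [Finset.sum_ite_eq (Finset.range (P.natDegree + 1)) i] at h2
    rwa [if_pos (Finset.mem_range.2 hi)] at h2
  · exact coeff_eq_zero_of_natDegree_lt (by omega)

theorem Pf_natDegree {k : Type*} [Field k] (D : ℕ) (f : ℤ → k[X]) :
    (Pf (φ := φ) D f).natDegree ≤ D := by
  refine natDegree_sum_le_of_forall_le _ _ fun i hi => ?_
  refine (natDegree_C_mul_X_pow_le _ _).trans ?_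
  have := Finset.mem_range.1 hi
  omega

theorem Pf_coeff {k : Type*} [Field k] (D : ℕ) (f : ℤ → k[X]) {i : ℕ} (hi : i ≤ D) :
    (Pf (φ := φ) D f).coeff i = toSt φ k fun n => (f n).coeff i := by
  rw [Pf, finsetSum_coeff, Finset.sum_eq_single i]
  · simp
  · intro j _ hj
    rw [coeff_C_mul, coeff_X_pow, if_neg (Ne.symm hj), mul_zero]
  · intro h
    exact absurd (Finset.mem_range.2 (by omega)) h

/-- Sequences representing a polynomial over the ultrapower. -/
theorem exists_rep {k : Type*} [Field k] (P : (St φ k)[X]) : ∃ f : ℤ → k[X],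
    Th φ k P = toSt φ k[X] f ∧ ∀ n, (f n).natDegree ≤ P.natDegree := by
  have hex : ∀ i, ∃ c : ℤ → k, toSt φ k c = P.coeff i := fun i => toSt_surj _
  choose c hc using hex
  refine ⟨fun n => ∑ i ∈ Finset.range (P.natDegree + 1), C (c i n) * X ^ i, ?_, fun n => ?_⟩
  · conv_lhs => rw [P.as_sum_range_C_mul_X_pow]
    simp only [← hc]
    rw [Th_sum]
  · refine natDegree_sum_le_of_forall_le _ _ fun i hi => ?_
    refine (natDegree_C_mul_X_pow_le _ _).trans ?_
    have := Finset.mem_range.1 hi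
    omega

theorem exists_rep_monic {k : Type*} [Field k] (P : (St φ k)[X]) (hP : P.Monic) :
    ∃ f : ℤ → k[X], Th φ k P = toSt φ k[X] f ∧
      ∀ n, (f n).Monic ∧ (f n).natDegree = P.natDegree := by
  have hex : ∀ i, ∃ c : ℤ → k, toSt φ k c = P.coeff i := fun i => toSt_surj _
  choose c hc using hex
  refine ⟨fun n => X ^ P.natDegree + ∑ i ∈ Finset.range P.natDegree, C (c i n) * X ^ i, ?_,
    fun n => ?_⟩
  · conv_lhs => rw [hP.as_sum]
    simp only [← hc]
    rw [map_add, Th_sum, map_pow]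
    have h2 : (fun n : ℤ => (X ^ P.natDegree + ∑ i ∈ Finset.range P.natDegree,
        C (c i n) * X ^ i : k[X])) = (fun _ : ℤ => X) ^ P.natDegree +
          fun n : ℤ => ∑ i ∈ Finset.range P.natDegree, C (c i n) * X ^ i := rfl
    rw [h2, map_add, map_pow]
    simp only [Th, coe_eval₂RingHom, eval₂_X]
  · have h1 : (∑ i ∈ Finset.range P.natDegree, (C (c i n) * X ^ i : k[X])).degree <
        ((P.natDegree : ℕ) : WithBot ℕ) := by
      rw [degree_lt_iff_coeff_zero]
      intro m hm
      rw [finsetSum_coeff]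
      refine Finset.sum_eq_zero fun i hi => ?_
      have := Finset.mem_range.1 hi
      rw [coeff_C_mul, coeff_X_pow, if_neg (by omega), mul_zero]
    refine ⟨monic_X_pow_add h1, ?_⟩
    refine natDegree_eq_of_degree_eq_some ?_
    rw [degree_add_eq_left_of_degree_lt (by rwa [degree_X_pow]), degree_X_pow]

end Pool.Agent.OneQ
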