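import Mathlib
import Pool.Agent.OneQ.StPoly

/-!
# Irreducibility and square roots over the ultrapower; pointwise conics
-/

open Polynomial Filter

noncomputable section

open scoped Classical

namespace Pool.Agent.OneQ

variable {φ : Ultrafilter ℤ}

/-- Irreducible polynomials stay irreducible over the ultrapower. -/
theorem irr_map {K : Type*} [Field K] [CharZero K] (hK : HasDZ K) (hφ : ND φ)
    (f : (RatFunc K)[X]) (hf : f.Monic) (hirr : Irreducible f) :
    Irreducible (f.map (jj hφ.np)) := by
  let _ : Algebra (RatFunc K) (St φ K) := (jj hφ.np).toAlgebra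
  rw [(hf.map (jj hφ.np)).irreducible_iff_natDegree']
  have hdeg : (f.map (jj hφ.np)).natDegree = f.natDegree := hf.natDegree_map _
  refine ⟨fun h => ?_, ?_⟩
  · rw [h, natDegree_one] at hdeg
    have := hirr.natDegree_pos
    omega
  · intro g1 g2 hg1 hg2 hmul hmem
    rw [Finset.mem_Ioc, hdeg] at hmem
    have hdvd : g2 ∣ f.map (algebraMap (RatFunc K) (St φ K)) := ⟨g1, by
      rw [mul_comm]; exact hmul.symm⟩
    have h1 := integralClosure.mem_lifts_of_monic_of_dvd_map (St φ K) hf hg2 hdvd
    have h2 : g2 ∈ lifts (jj hφ.np) := by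
      rw [lifts_iff_coeff_lifts] at h1 ⊢
      intro i
      obtain ⟨c, hc⟩ := h1 i
      have hint : IsIntegral (RatFunc K) (g2.coeff i) := by
        rw [← hc]
        exact c.2
      obtain ⟨r, hr⟩ := relAlg hK hφ (g2.coeff i) (minpoly (RatFunc K) (g2.coeff i))
        (minpoly.ne_zero hint) (by
          rw [eval_map]
          exact minpoly.aeval (RatFunc K) (g2.coeff i))
      exact ⟨r, hr⟩
    obtain ⟨g, hg⟩ := (mem_lifts _).1 h2
    have hgd : g ∣ f := by
      rw [← Polynomial.map_dvd_map' (jj hφ.np), hg]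
      exact hdvd
    have hgdeg : g.natDegree = g2.natDegree := by
      rw [← hg, natDegree_map]
    obtain ⟨q, hq⟩ := hgd
    have hg0 : g ≠ 0 := by
      rintro rfl
      rw [zero_mul] at hq
      exact hirr.ne_zero hq
    have hq0 : q ≠ 0 := by
      rintro rfl
      rw [mul_zero] at hq
      exact hirr.ne_zero hq
    have hsum : f.natDegree = g.natDegree + q.natDegree := by
      rw [hq, natDegree_mul hg0 hq0]
    rcases hirr.isUnit_or_isUnit hq with h | h
    · have := natDegree_eq_zero_of_isUnit h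
      omega
    · have := natDegree_eq_zero_of_isUnit h
      omega

/-- Square roots modulo an irreducible polynomial descend from the ultrapower. -/
theorem sqrt_descend {K : Type*} [Field K] [CharZero K] (hK : HasDZ K) (hφ : ND φ)
    (π a : (RatFunc K)[X]) (hirr : Irreducible π) (c : (St φ K)[X])
    (hc : c.natDegree < π.natDegree)
    (hd : π.map (jj hφ.np) ∣ c ^ 2 - a.map (jj hφ.np)) :
    ∃ c' : (RatFunc K)[X], c'.map (jj hφ.np) = c := by
  let _ : Algebra (RatFunc K) (St φ K) := (jj hφ.np).toAlgebra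
  let E := St φ K
  let Ω := AlgebraicClosure E
  have htow : (algebraMap E Ω).comp (jj hφ.np) = algebraMap (RatFunc K) Ω :=
    (IsScalarTower.algebraMap_eq (RatFunc K) E Ω).symm
  set s : Finset Ω := (π.aroots Ω).toFinset with hs
  have hmem : ∀ r ∈ s, aeval r π = 0 := by
    intro r hr
    rw [hs, Multiset.mem_toFinset, mem_aroots] at hr
    exact hr.2
  have hcard : s.card = π.natDegree := by
    rw [hs, Multiset.toFinset_card_of_nodup (nodup_roots hirr.separable.map)]
    rw [← (IsAlgClosed.splits (π.map (algebraMap (RatFunc K) Ω))).natDegree_eq_card_roots,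
      natDegree_map]
  have halg : ∀ r ∈ s, IsAlgebraic (RatFunc K) r := fun r hr => ⟨π, hirr.ne_zero, hmem r hr⟩
  have hval : ∀ r ∈ s, IsAlgebraic (RatFunc K) ((c.map (algebraMap E Ω)).eval r) := by
    intro r hr
    have h1 : ((c.map (algebraMap E Ω)).eval r) ^ 2 = aeval r a := by
      obtain ⟨q, hq⟩ := hd
      have h2 := congrArg (fun p => (p.map (algebraMap E Ω)).eval r) hq
      simp only [Polynomial.map_sub, Polynomial.map_pow, Polynomial.map_mul, eval_sub, eval_pow,
        eval_mul, Polynomial.map_map, htow] at h2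
      have h3 : eval r (π.map (algebraMap (RatFunc K) Ω)) = 0 := by
        rw [eval_map]
        exact hmem r hr
      rw [h3, zero_mul, sub_eq_zero] at h2
      rw [h2, eval_map]
      rfl
    have h2 : IsAlgebraic (RatFunc K) (((c.map (algebraMap E Ω)).eval r) ^ 2) := by
      rw [h1]
      have h5 := (halg r hr).isIntegral
      have h4 : IsIntegral (RatFunc K) (aeval r a) := by
        rw [aeval_eq_sum_range]
        exact IsIntegral.sum _ fun i _ => (h5.pow i).smul _
      exact h4.isAlgebraic
    exact IsAlgebraic.of_pow two_pos h2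
  -- interpolation over the algebraic closure of `K(x)` in `Ω`
  let A := algebraicClosure (RatFunc K) Ω
  let v : {x // x ∈ s} → A := fun x => ⟨x.1, (mem_algebraicClosure_iff).2 (halg x.1 x.2)⟩
  let y : {x // x ∈ s} → A := fun x => ⟨(c.map (algebraMap E Ω)).eval x.1,
    (mem_algebraicClosure_iff).2 (hval x.1 x.2)⟩
  have hv : Set.InjOn v (Finset.univ : Finset {x // x ∈ s}) := by
    intro x _ x' _ h
    exact Subtype.ext (congrArg (fun z : A => (z : Ω)) h)
  set q : A[X] := Lagrange.interpolate Finset.univ v y with hq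
  have hqdeg : q.degree < (Finset.univ : Finset {x // x ∈ s}).card :=
    Lagrange.degree_interpolate_lt y hv
  have hqc : q.map (algebraMap A Ω) = c.map (algebraMap E Ω) := by
    refine eq_of_degrees_lt_of_eval_finset_eq s ?_ ?_ ?_
    · rw [degree_map]
      simpa using hqdeg
    · rw [degree_map, hcard]
      exact lt_of_le_of_lt degree_le_natDegree (by exact_mod_cast hc)
    · intro r hr
      have h1 := Lagrange.eval_interpolate_at_node y hv (Finset.mem_univ ⟨r, hr⟩)
      have h2 := congrArg (fun z : A => (z : Ω)) h1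
      have h3 : eval r (q.map (algebraMap A Ω)) = ((eval (v ⟨r, hr⟩) q : A) : Ω) := by
        exact Polynomial.eval_map_apply (algebraMap A Ω) (v ⟨r, hr⟩)
      rw [h3]
      exact h2
  have hlift : c ∈ lifts (jj hφ.np) := by
    rw [lifts_iff_coeff_lifts]
    intro i
    have h1 : algebraMap E Ω (c.coeff i) = ((q.coeff i : A) : Ω) := by
      have h2 := congrArg (fun p => p.coeff i) hqc
      simp only [coeff_map] at h2
      exact h2.symm
    have h2 : IsAlgebraic (RatFunc K) (algebraMap E Ω (c.coeff i)) := by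
      rw [h1]
      exact (mem_algebraicClosure_iff).1 (q.coeff i).2
    have h3 : IsAlgebraic (RatFunc K) (c.coeff i) :=
      (isAlgebraic_algebraMap_iff (algebraMap E Ω).injective).1 h2
    obtain ⟨p, hp, hpz⟩ := h3
    obtain ⟨r, hr⟩ := relAlg hK hφ (c.coeff i) p hp (by
      rw [eval_map]
      exact hpz)
    exact ⟨r, hr⟩
  exact (mem_lifts _).1 hlift

/-- Clearing denominators. -/
theorem iso_of_frac {R K : Type*} [CommRing R] [IsDomain R] [Field K] [Algebra R K]
    [IsFractionRing R K] (a b : R) (h : Iso (algebraMap R K a) (algebraMap R K b)) : Iso a b := by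
  obtain ⟨x, y, z, h0, h⟩ := h
  obtain ⟨d, hd⟩ := IsLocalization.exist_integer_multiples_of_finset (nonZeroDivisors R)
    ({x, y, z} : Finset K)
  obtain ⟨x', hx'⟩ := hd x (by simp)
  obtain ⟨y', hy'⟩ := hd y (by simp)
  obtain ⟨z', hz'⟩ := hd z (by simp)
  have hinj := IsFractionRing.injective R K
  have hd0 : algebraMap R K (d : R) ≠ 0 := by
    rw [Ne, IsFractionRing.to_map_eq_zero_iff]
    exact nonZeroDivisors.ne_zero d.2
  rw [Algebra.smul_def] at hx' hy' hz'
  refine ⟨x', y', z', fun h' => h0 ?_, ?_⟩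
  · obtain ⟨h1, h2, h3⟩ := h'
    rw [h1, map_zero] at hx'
    rw [h2, map_zero] at hy'
    rw [h3, map_zero] at hz'
    exact ⟨(mul_eq_zero.1 hx'.symm).resolve_left hd0, (mul_eq_zero.1 hy'.symm).resolve_left hd0,
      (mul_eq_zero.1 hz'.symm).resolve_left hd0⟩
  · apply hinj
    simp only [map_pow, map_add, map_mul]
    rw [hx', hy', hz', mul_pow, h]
    ring

/-- Conics with constant coefficients. -/
theorem iso_const {k : Type*} [Field k] [Infinite k] (α β : k) (h : Iso (C α) (C β : k[X])) :
    Iso α β := by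
  obtain ⟨x, y, z, h0, h⟩ := h
  have hex : ∃ τ : k, ¬ (x.eval τ = 0 ∧ y.eval τ = 0 ∧ z.eval τ = 0) := by
    by_contra hcon
    push Not at hcon
    apply h0
    refine ⟨Polynomial.funext fun τ => ?_, Polynomial.funext fun τ => ?_,
      Polynomial.funext fun τ => ?_⟩
    · rw [(hcon τ).1, eval_zero]
    · rw [(hcon τ).2.1, eval_zero]
    · rw [(hcon τ).2.2, eval_zero]
  obtain ⟨τ, hτ⟩ := hex
  refine ⟨x.eval τ, y.eval τ, z.eval τ, hτ, ?_⟩
  have h1 := congrArg (fun p => p.eval τ) h
  simpa using h1

/-- The residue of a conic at a simple zero of `b`. -/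
theorem sqrt_of_iso {k : Type*} [Field k] (a b1 π : k[X]) (hπ : Irreducible π)
    (hcop : IsCoprime π b1) (h : Iso a (π * b1)) :
    ∃ c q : k[X], c.natDegree < π.natDegree ∧ c ^ 2 - a = π * q := by
  have hπp := hπ.prime
  have hπ0 := hπ.ne_zero
  have hdπ := hπ.natDegree_pos
  -- a solution not divisible by `π`
  have red : ∀ (n : ℕ) (x y z : k[X]), x.natDegree + y.natDegree + z.natDegree = n →
      ¬ (x = 0 ∧ y = 0 ∧ z = 0) → z ^ 2 = a * x ^ 2 + π * b1 * y ^ 2 →
      ∃ x y z : k[X], ¬ (π ∣ x ∧ π ∣ y ∧ π ∣ z) ∧ z ^ 2 = a * x ^ 2 + π * b1 * y ^ 2 := by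
    intro n
    induction n using Nat.strong_induction_on with
    | _ n ih =>
      intro x y z hn h0 h
      by_cases hd : π ∣ x ∧ π ∣ y ∧ π ∣ z
      · obtain ⟨⟨x', rfl⟩, ⟨y', rfl⟩, ⟨z', rfl⟩⟩ := hd
        have h1 : z' ^ 2 = a * x' ^ 2 + π * b1 * y' ^ 2 := by
          apply mul_left_cancel₀ (pow_ne_zero 2 hπ0)
          linear_combination h
        have h2 : ¬ (x' = 0 ∧ y' = 0 ∧ z' = 0) := by
          rintro ⟨rfl, rfl, rfl⟩
          apply h0
          simp
        have hle : ∀ w : k[X], w.natDegree ≤ (π * w).natDegree := by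
          intro w
          by_cases hw : w = 0
          · rw [hw, mul_zero]
          · rw [natDegree_mul hπ0 hw]
            omega
        have hlt : ∀ w : k[X], w ≠ 0 → w.natDegree < (π * w).natDegree := by
          intro w hw
          rw [natDegree_mul hπ0 hw]
          omega
        refine ih (x'.natDegree + y'.natDegree + z'.natDegree) ?_ x' y' z' rfl h2 h1
        have hx := hle x'
        have hy := hle y'
        have hz := hle z'
        by_cases hx0 : x' = 0
        · by_cases hy0 : y' = 0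
          · have hz0 : z' ≠ 0 := fun hz0 => h2 ⟨hx0, hy0, hz0⟩
            have := hlt z' hz0
            omega
          · have := hlt y' hy0
            omega
        · have := hlt x' hx0
          omega
      · exact ⟨x, y, z, hd, h⟩
  obtain ⟨x, y, z, h0, h⟩ := h
  obtain ⟨x, y, z, hnd, h⟩ := red _ x y z rfl h0 h
  have hx : ¬ π ∣ x := by
    intro hx
    obtain ⟨x', rfl⟩ := hx
    have hz : π ∣ z := by
      apply hπp.dvd_of_dvd_pow (n := 2)
      rw [h]
      exact ⟨a * (π * x' ^ 2) + b1 * y ^ 2, by ring⟩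
    obtain ⟨z', rfl⟩ := hz
    have hy : π ∣ b1 * y ^ 2 := by
      refine ⟨z' ^ 2 - a * x' ^ 2, ?_⟩
      apply mul_left_cancel₀ hπ0
      linear_combination -h
    have hy' : π ∣ y := hπp.dvd_of_dvd_pow (hcop.dvd_of_dvd_mul_left hy)
    exact hnd ⟨dvd_mul_right _ _, hy', dvd_mul_right _ _⟩
  have hcopx : IsCoprime π x := (hπ.coprime_iff_not_dvd).2 hx
  obtain ⟨u, v, huv⟩ := hcopx
  have hdv : π ∣ ((z * v) % π) ^ 2 - a := by
    have h1 : z * v = π * (z * v / π) + (z * v) % π := (EuclideanDomain.div_add_mod _ _).symm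
    have h2 : (z * v) % π = z * v - π * (z * v / π) := by linear_combination -h1
    rw [h2]
    have h3 : v * x = 1 - u * π := by linear_combination huv
    have h4 : (z * v) ^ 2 = a * (v * x) ^ 2 + π * b1 * y ^ 2 * v ^ 2 := by
      rw [mul_pow, h]
      ring
    rw [h3] at h4
    refine ⟨b1 * y ^ 2 * v ^ 2 + a * u * (u * π - 2) - 2 * (z * v) * (z * v / π) +
      π * (z * v / π) ^ 2, ?_⟩
    linear_combination h4
  obtain ⟨q, hq⟩ := hdv
  exact ⟨(z * v) % π, q, natDegree_mod_lt _ hdπ.ne', hq⟩

end Pool.Agent.OneQ
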