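import Mathlib
import Pool.Agent.OneQ.StageA1

/-!
# Conics over `ℚ(x)(t)` with a point over the ultrapower of `ℚ(t)`
-/

open Polynomial Filter

noncomputable section

open scoped Classical

namespace Pool.Agent.OneQ

variable {φ : Ultrafilter ℤ}

/-- `ℚ(x)[t]` in the ultrapower of `ℚ[t]`. -/
def rho0 (h : NP φ) : (RatFunc ℚ)[X] →+* St φ ℚ[X] :=
  (Th φ ℚ).comp (mapRingHom (jj h))

/-- `ℚ(x)[t]` in the ultrapower of `ℚ(t)`. -/
def rho (h : NP φ) : (RatFunc ℚ)[X] →+* St φ (RatFunc ℚ) :=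
  (mapSt φ (algebraMap ℚ[X] (RatFunc ℚ))).comp (rho0 h)

theorem rho_injective (h : NP φ) : Function.Injective (rho h) := by
  rw [rho, RingHom.coe_comp]
  refine (mapSt_injective _ (RatFunc.algebraMap_injective ℚ)).comp ?_
  rw [rho0, RingHom.coe_comp]
  exact (Th_injective ℚ).comp (map_injective _ (jj h).injective)

theorem natDegree_eq_of_eventually {D : ℕ} (d : ℤ → ℕ) (h : ∀ n, d n ≤ D) :
    ∃ e, ∀ᶠ n in (φ : Filter ℤ), d n = e := by
  by_contra hcon
  push Not at hcon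
  have h1 : ∀ e ∈ Finset.range (D + 1), ∀ᶠ n in (φ : Filter ℤ), ¬ d n = e := by
    intro e _
    exact hcon e
  have h2 : ∀ᶠ n in (φ : Filter ℤ), ∀ e ∈ Finset.range (D + 1), ¬ d n = e :=
    (Filter.eventually_all_finset _).2 h1
  obtain ⟨n, hn⟩ := h2.exists
  exact hn (d n) (Finset.mem_range.2 (by have := h n; omega)) rfl

/-- Pointwise irreducibility. -/
theorem eventually_irreducible {k : Type*} [Field k] (P : (St φ k)[X]) (hP : P.Monic)
    (hirr : Irreducible P) (p : ℤ → k[X]) (hp : Th φ k P = toSt φ k[X] p)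
    (hpm : ∀ n, (p n).Monic ∧ (p n).natDegree = P.natDegree) :
    ∀ᶠ n in (φ : Filter ℤ), Irreducible (p n) := by
  by_contra hcon
  have hcon' : ∀ᶠ n in (φ : Filter ℤ), ¬ Irreducible (p n) := by
    rw [Ultrafilter.eventually_not]
    exact hcon
  have hdP : 0 < P.natDegree := by
    refine Nat.pos_of_ne_zero fun h0 => ?_
    rw [hP.natDegree_eq_zero] at h0
    rw [h0] at hirr
    exact hirr.not_isUnit isUnit_one
  have hex : ∀ n, ∃ v : k[X] × k[X], v.1.Monic ∧ v.2.Monic ∧ v.1.natDegree ≤ P.natDegree ∧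
      v.2.natDegree ≤ P.natDegree ∧ (¬ Irreducible (p n) → (v.1 * v.2 = p n ∧
        1 ≤ v.1.natDegree ∧ 1 ≤ v.2.natDegree)) := by
    intro n
    by_cases hn : Irreducible (p n)
    · exact ⟨(1, 1), monic_one, monic_one, by simp, by simp, fun h => absurd hn h⟩
    · have h1 := hn
      rw [(hpm n).1.irreducible_iff_natDegree] at h1
      push Not at h1
      have hne : p n ≠ 1 := by
        intro h
        have := (hpm n).2
        rw [h, natDegree_one] at this
        omega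
      obtain ⟨f, g, hf, hg, hfg, hf0, hg0⟩ := h1 hne
      have hdeg : f.natDegree + g.natDegree = P.natDegree := by
        rw [← (hpm n).2, ← hfg, hf.natDegree_mul hg]
      exact ⟨(f, g), hf, hg, by simp only; omega, by simp only; omega,
        fun _ => ⟨hfg, by simp only; omega, by simp only; omega⟩⟩
  choose v hv1 hv2 hv3 hv4 hv5 using hex
  have hmul : Pf P.natDegree (fun n => (v n).1) * Pf P.natDegree (fun n => (v n).2) = P := by
    apply Th_injective k
    rw [map_mul, Th_Pf _ _ hv3, Th_Pf _ _ hv4, hp, ← map_mul, toSt_eq]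
    exact hcon'.mono fun n hn => (hv5 n hn).1
  have hunit : ∀ f : ℤ → k[X], (∀ n, (f n).Monic) → (∀ n, (f n).natDegree ≤ P.natDegree) →
      (∀ᶠ n in (φ : Filter ℤ), 1 ≤ (f n).natDegree) →
      ¬ IsUnit (Pf (φ := φ) P.natDegree f) := by
    intro f hf hfd hf1 hu
    obtain ⟨e, he⟩ := natDegree_eq_of_eventually (φ := φ) (fun n => (f n).natDegree) hfd
    have he1 : 1 ≤ e := by
      obtain ⟨n, hn, hn'⟩ := (he.and hf1).exists
      omega
    have heD : e ≤ P.natDegree := by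
      obtain ⟨n, hn⟩ := he.exists
      have := hfd n
      omega
    have hc : (Pf (φ := φ) P.natDegree f).coeff e = 1 := by
      rw [Pf_coeff _ _ heD, ← map_one (toSt φ k), toSt_eq]
      refine he.mono fun n hn => ?_
      rw [← hn]
      exact (hf n).coeff_natDegree
    have h1 := natDegree_eq_zero_of_isUnit hu
    have h2 : e ≤ (Pf (φ := φ) P.natDegree f).natDegree :=
      le_natDegree_of_ne_zero (by rw [hc]; exact one_ne_zero)
    omega
  rcases hirr.isUnit_or_isUnit hmul.symm with h | h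
  · exact hunit _ hv1 hv3 (hcon'.mono fun n hn => (hv5 n hn).2.1) h
  · exact hunit _ hv2 hv4 (hcon'.mono fun n hn => (hv5 n hn).2.2) h

/-- The residue condition, monic case. -/
theorem residue_monic (hφ : ND φ) (a b1 π : (RatFunc ℚ)[X]) (hm : π.Monic)
    (hπ : Irreducible π) (hcop : IsCoprime π b1)
    (h : Iso (rho hφ.np a) (rho hφ.np (π * b1))) : ∃ c, π ∣ c ^ 2 - a := by
  set P := π.map (jj hφ.np) with hP
  have hPm : P.Monic := hm.map _
  have hPirr : Irreducible P := irr_map hasDZ_rat hφ π hm hπ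
  have hPd : P.natDegree = π.natDegree := hm.natDegree_map _
  have hd0 := hπ.natDegree_pos
  obtain ⟨p, hp, hpm⟩ := exists_rep_monic P hPm
  obtain ⟨an, han, hand⟩ := exists_rep (a.map (jj hφ.np))
  obtain ⟨bn, hbn, -⟩ := exists_rep (b1.map (jj hφ.np))
  obtain ⟨u, v, huv⟩ := hcop
  obtain ⟨un, hun, -⟩ := exists_rep (u.map (jj hφ.np))
  obtain ⟨vn, hvn, -⟩ := exists_rep (v.map (jj hφ.np))
  have hirr := eventually_irreducible P hPm hPirr p hp hpm
  have hco : ∀ᶠ n in (φ : Filter ℤ), un n * p n + vn n * bn n = 1 := by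
    have h1 := congrArg (rho0 hφ.np) huv
    simp only [map_add, map_mul, map_one, rho0, RingHom.comp_apply, coe_mapRingHom] at h1
    rw [hun, hvn, hbn, ← hP, hp, ← map_mul, ← map_mul, ← map_add,
      ← map_one (toSt φ ℚ[X]), toSt_eq] at h1
    exact h1
  have hiso : ∀ᶠ n in (φ : Filter ℤ), Iso (an n) (p n * bn n) := by
    have e1 : rho hφ.np a = toSt φ (RatFunc ℚ) fun n => algebraMap ℚ[X] (RatFunc ℚ) (an n) := by
      rw [rho, RingHom.comp_apply, rho0, RingHom.comp_apply, coe_mapRingHom, han, mapSt_toSt]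
    have e2 : rho hφ.np (π * b1) =
        toSt φ (RatFunc ℚ) fun n => algebraMap ℚ[X] (RatFunc ℚ) (p n * bn n) := by
      rw [rho, RingHom.comp_apply, rho0, RingHom.comp_apply, coe_mapRingHom,
        Polynomial.map_mul, map_mul, ← hP, hp, hbn, ← map_mul, mapSt_toSt]
      rfl
    rw [e1, e2] at h
    exact (iso_toSt _ _ h).mono fun n hn => iso_of_frac _ _ hn
  -- the square roots
  have hex : ∀ n, ∃ w : ℚ[X] × ℚ[X], w.1.natDegree ≤ π.natDegree - 1 ∧
      w.2.natDegree ≤ 2 * π.natDegree + (a.map (jj hφ.np)).natDegree ∧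
      (Irreducible (p n) ∧ un n * p n + vn n * bn n = 1 ∧ Iso (an n) (p n * bn n) →
        w.1 ^ 2 - an n = p n * w.2) := by
    intro n
    by_cases hn : Irreducible (p n) ∧ un n * p n + vn n * bn n = 1 ∧ Iso (an n) (p n * bn n)
    · obtain ⟨c, q, hc, hq⟩ := sqrt_of_iso (an n) (bn n) (p n) hn.1 ⟨un n, vn n, hn.2.1⟩ hn.2.2
      have hpd := (hpm n).2
      refine ⟨(c, q), ?_, ?_, fun _ => hq⟩
      · simp only
        omega
      · simp only
        by_cases hq0 : q = 0
        · rw [hq0, natDegree_zero]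
          omega
        · have h1 : (p n * q).natDegree = (p n).natDegree + q.natDegree :=
            natDegree_mul (hpm n).1.ne_zero hq0
          have h2 : (c ^ 2 - an n).natDegree ≤ max (2 * c.natDegree) (an n).natDegree := by
            refine (natDegree_sub_le _ _).trans ?_
            rw [natDegree_pow]
          have h3 := hand n
          rw [← hq] at h1
          omega
    · exact ⟨0, by simp, by simp, fun h => absurd h hn⟩
  choose w hw1 hw2 hw3 using hex
  set D := 2 * π.natDegree + (a.map (jj hφ.np)).natDegree with hD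
  have heq : (Pf (π.natDegree - 1) fun n => (w n).1) ^ 2 - a.map (jj hφ.np) =
      P * Pf D fun n => (w n).2 := by
    apply Th_injective ℚ
    rw [map_sub, map_pow, map_mul, Th_Pf _ _ hw1, Th_Pf _ _ hw2, hp, han, ← map_pow, ← map_sub,
      ← map_mul, toSt_eq]
    filter_upwards [hirr, hco, hiso] with n h1 h2 h3
    exact hw3 n ⟨h1, h2, h3⟩
  obtain ⟨c, hc⟩ := sqrt_descend hasDZ_rat hφ π a hπ (Pf (π.natDegree - 1) fun n => (w n).1)
    (lt_of_le_of_lt (Pf_natDegree _ _) (by omega)) ⟨_, heq⟩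
  refine ⟨c, ?_⟩
  rw [← Polynomial.map_dvd_map' (jj hφ.np), Polynomial.map_sub, Polynomial.map_pow, hc]
  exact ⟨_, heq⟩

/-- Conics with coefficients in `ℚ(x)`. -/
theorem stageB' (hφ : ND φ) (α β : RatFunc ℚ) (hα : α ≠ 0) (hβ : β ≠ 0)
    (h : Iso (jj hφ.np α) (jj hφ.np β)) : Iso α β := by
  have key : ∀ (E : Type) [Field E] (f : RatFunc ℚ →+* E) (γ : RatFunc ℚ),
      f (algebraMap ℚ[X] (RatFunc ℚ) (γ.num * γ.denom)) =
        (f (algebraMap ℚ[X] (RatFunc ℚ) γ.denom)) ^ 2 * f γ := by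
    intro E _ f γ
    have h1 : algebraMap ℚ[X] (RatFunc ℚ) γ.denom ≠ 0 :=
      RatFunc.algebraMap_ne_zero (RatFunc.denom_ne_zero γ)
    have h2 : algebraMap ℚ[X] (RatFunc ℚ) (γ.num * γ.denom) =
        (algebraMap ℚ[X] (RatFunc ℚ) γ.denom) ^ 2 * γ := by
      have h3 := RatFunc.num_div_denom γ
      rw [div_eq_iff h1] at h3
      rw [map_mul, h3]
      ring
    rw [h2, map_mul, map_pow]
  have hne : ∀ γ : RatFunc ℚ, algebraMap ℚ[X] (RatFunc ℚ) γ.denom ≠ 0 := fun γ =>
    RatFunc.algebraMap_ne_zero (RatFunc.denom_ne_zero γ)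
  have hne' : ∀ γ : RatFunc ℚ, jj hφ.np (algebraMap ℚ[X] (RatFunc ℚ) γ.denom) ≠ 0 := fun γ => by
    rw [Ne, map_eq_zero]
    exact hne γ
  have h1 : Iso (jj hφ.np (algebraMap ℚ[X] (RatFunc ℚ) (α.num * α.denom)))
      (jj hφ.np (algebraMap ℚ[X] (RatFunc ℚ) (β.num * β.denom))) := by
    rw [key _ _ α, key _ _ β]
    exact ((h.mul_sq (hne' β)).symm.mul_sq (hne' α)).symm
  rw [jj_algebraMap, jj_algebraMap] at h1
  have hn : ∀ γ : RatFunc ℚ, γ ≠ 0 → γ.num * γ.denom ≠ 0 := fun γ hγ =>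
    mul_ne_zero (RatFunc.num_ne_zero hγ) (RatFunc.denom_ne_zero γ)
  have h2 := stageB hφ _ _ (hn α hα) (hn β hβ) h1
  have h3 := h2.map (algebraMap ℚ[X] (RatFunc ℚ)) (RatFunc.algebraMap_injective ℚ)
  have e1 := key _ (RingHom.id _) α
  have e2 := key _ (RingHom.id _) β
  simp only [RingHom.id_apply] at e1 e2
  rw [e1, e2] at h3
  exact ((h3.of_mul_sq (hne β)).symm.of_mul_sq (hne α)).symm

/-- **Conics over `ℚ(x)(t)`.** -/
theorem stageA (hφ : ND φ) (a b : (RatFunc ℚ)[X]) (ha : a ≠ 0) (hb : b ≠ 0)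
    (h : Iso (rho hφ.np a) (rho hφ.np b)) : Iso a b := by
  refine descent (rho hφ.np) (rho_injective hφ.np) ?_ ?_ _ a b ha hb rfl h
  · intro α β hα hβ h
    obtain ⟨f, hf⟩ := toSt_surj (jj hφ.np α)
    obtain ⟨g, hg⟩ := toSt_surj (jj hφ.np β)
    have e : ∀ (γ : RatFunc ℚ) (f : ℤ → ℚ), toSt φ ℚ f = jj hφ.np γ → rho hφ.np (C γ) =
        toSt φ (RatFunc ℚ) fun n => algebraMap ℚ[X] (RatFunc ℚ) (C (f n)) := by
      intro γ f hf
      rw [rho, RingHom.comp_apply, rho0, RingHom.comp_apply, coe_mapRingHom, map_C, ← hf]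
      simp only [Th, coe_eval₂RingHom, eval₂_C]
      rw [mapSt_toSt, mapSt_toSt]
    rw [e α f hf, e β g hg] at h
    have h1 := (iso_toSt _ _ h).mono fun n hn => iso_const _ _ (iso_of_frac _ _ hn)
    have h2 := toSt_iso (φ := φ) f g h1
    rw [hf, hg] at h2
    exact (stageB' hφ α β hα hβ h2).map C C_injective
  · intro a b π ha hb hπ hd hd2 h
    -- make `π` monic
    have hlc : π.leadingCoeff ≠ 0 := leadingCoeff_ne_zero.2 hπ.ne_zero
    set π' := π * C (π.leadingCoeff)⁻¹ with hπ'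
    have hu : IsUnit (C (π.leadingCoeff)⁻¹) := isUnit_C.2 (IsUnit.mk0 _ (inv_ne_zero hlc))
    have hm : π'.Monic := monic_mul_leadingCoeff_inv hπ.ne_zero
    have hassoc : Associated π π' := ⟨hu.unit, rfl⟩
    have hirr : Irreducible π' := hassoc.irreducible hπ
    obtain ⟨b1, hb1⟩ := hassoc.dvd_iff_dvd_left.1 hd
    have hcop : IsCoprime π' b1 := by
      rw [hirr.coprime_iff_not_dvd]
      intro h1
      apply hd2
      rw [(hassoc.pow_pow (n := 2)).dvd_iff_dvd_left, hb1, sq]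
      exact mul_dvd_mul_left _ h1
    rw [hb1] at h
    obtain ⟨c, hc⟩ := residue_monic hφ a b1 π' hm hirr hcop h
    exact ⟨c, hassoc.dvd_iff_dvd_left.2 hc⟩

end Pool.Agent.OneQ
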