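import Mathlib
import Pool.Agent.OneQ.StageA2
import Pool.Agent.OneQ.Dich

/-!
# Points on conics are rational functions of one element
-/

open Polynomial Filter

noncomputable section

open scoped Classical

namespace Pool.Agent.OneQ

variable {φ : Ultrafilter ℤ}

/-- `ℚ(t)(x)` as a subfield of the ultrapower. -/
def L0 (h : NP φ) : Subfield (St φ (RatFunc ℚ)) := (jj h).fieldRange

theorem jp_mem_L0 (h : NP φ) (p : (RatFunc ℚ)[X]) : jp φ (RatFunc ℚ) p ∈ L0 h := by
  rw [← jj_algebraMap h]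
  exact ⟨_, rfl⟩

theorem L0_le (h : NP φ) (s : St φ (RatFunc ℚ)) : L0 h ≤ Ls s := by
  rintro _ ⟨r, rfl⟩
  exact jj_mem_Ls h s r

theorem rho_C_alg (h : NP φ) (p : ℚ[X]) : rho h (C (algebraMap ℚ[X] (RatFunc ℚ) p)) =
    jp φ (RatFunc ℚ) (p.map (algebraMap ℚ (RatFunc ℚ))) := by
  rw [rho, RingHom.comp_apply, rho0, RingHom.comp_apply, coe_mapRingHom, map_C, jj_algebraMap,
    jp_apply]
  simp only [Th, coe_eval₂RingHom, eval₂_C]
  rw [mapSt_toSt, mapSt_toSt, jp_apply]
  congr 1
  funext n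
  rw [show ((n : ℤ) : RatFunc ℚ) = algebraMap ℚ (RatFunc ℚ) (n : ℚ) by simp,
    Polynomial.eval_map_apply]
  rw [← Polynomial.algebraMap_eq, ← IsScalarTower.algebraMap_apply]

theorem rho_X (h : NP φ) : rho h X = jp φ (RatFunc ℚ) (C RatFunc.X) := by
  rw [rho, RingHom.comp_apply, rho0, RingHom.comp_apply, coe_mapRingHom, map_X, jp_apply]
  simp only [Th, coe_eval₂RingHom, eval₂_X]
  rw [mapSt_toSt]
  congr 1
  funext n
  rw [eval_C, RatFunc.algebraMap_X]

theorem rho_mem_L0 (h : NP φ) (P : (RatFunc ℚ)[X]) : rho h P ∈ L0 h := by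
  have hC : ∀ γ : RatFunc ℚ, rho h (C γ) ∈ L0 h := by
    intro γ
    rw [← RatFunc.num_div_denom γ]
    have h1 : rho h (C (algebraMap ℚ[X] (RatFunc ℚ) γ.num / algebraMap ℚ[X] (RatFunc ℚ) γ.denom)) =
        rho h (C (algebraMap ℚ[X] (RatFunc ℚ) γ.num)) /
          rho h (C (algebraMap ℚ[X] (RatFunc ℚ) γ.denom)) := by
      have h2 : ∀ z : RatFunc ℚ, rho h (C z) = ((rho h).comp C) z := fun z => rfl
      rw [h2, h2, h2, map_div₀]
    rw [h1, rho_C_alg, rho_C_alg]
    exact div_mem (jp_mem_L0 h _) (jp_mem_L0 h _)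
  rw [P.as_sum_range_C_mul_X_pow, map_sum]
  refine sum_mem fun i _ => ?_
  rw [map_mul, map_pow, rho_X]
  exact mul_mem (hC _) (pow_mem (jp_mem_L0 h _) i)

theorem L0_frac (h : NP φ) (z : St φ (RatFunc ℚ)) (hz : z ∈ L0 h) :
    ∃ a d : (RatFunc ℚ)[X], rho h d ≠ 0 ∧ z = rho h a / rho h d := by
  -- the subfield generated by the range of `rho`
  have hsub : L0 h ≤ Subfield.closure ((rho h).range : Set (St φ (RatFunc ℚ))) := by
    have hr : ∀ P, rho h P ∈ Subfield.closure ((rho h).range : Set (St φ (RatFunc ℚ))) :=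
      fun P => Subfield.subset_closure ⟨P, rfl⟩
    have hjC : ∀ κ : RatFunc ℚ, jp φ (RatFunc ℚ) (C κ) ∈
        Subfield.closure ((rho h).range : Set (St φ (RatFunc ℚ))) := by
      intro κ
      have hpol : ∀ f : ℚ[X], jp φ (RatFunc ℚ) (C (algebraMap ℚ[X] (RatFunc ℚ) f)) ∈
          Subfield.closure ((rho h).range : Set (St φ (RatFunc ℚ))) := by
        intro f
        rw [f.as_sum_range_C_mul_X_pow]
        have h2 : ∀ z : RatFunc ℚ, jp φ (RatFunc ℚ) (C z) = ((jp φ (RatFunc ℚ)).comp C) z :=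
          fun z => rfl
        rw [h2, map_sum, map_sum]
        refine sum_mem fun i _ => ?_
        rw [map_mul, map_mul, map_pow, map_pow, RatFunc.algebraMap_X]
        refine mul_mem ?_ (pow_mem ?_ i)
        · have h3 : ((jp φ (RatFunc ℚ)).comp C) (algebraMap ℚ[X] (RatFunc ℚ) (C (f.coeff i))) =
              rho h (C (algebraMap ℚ[X] (RatFunc ℚ) (C (f.coeff i)))) := by
            rw [rho_C_alg, map_C, RingHom.comp_apply]
            congr 2
            rw [← Polynomial.algebraMap_eq, ← IsScalarTower.algebraMap_apply]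
          rw [h3]
          exact hr _
        · rw [← h2, ← rho_X]
          exact hr _
      rw [← RatFunc.num_div_denom κ]
      have h2 : ∀ z : RatFunc ℚ, jp φ (RatFunc ℚ) (C z) = ((jp φ (RatFunc ℚ)).comp C) z :=
        fun z => rfl
      rw [h2, map_div₀, ← h2, ← h2]
      exact div_mem (hpol _) (hpol _)
    have hjp : ∀ p : (RatFunc ℚ)[X], jp φ (RatFunc ℚ) p ∈
        Subfield.closure ((rho h).range : Set (St φ (RatFunc ℚ))) := by
      intro p
      rw [p.as_sum_range_C_mul_X_pow, map_sum]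
      refine sum_mem fun i _ => ?_
      rw [map_mul, map_pow]
      refine mul_mem (hjC _) (pow_mem ?_ i)
      have h3 : jp φ (RatFunc ℚ) X = rho h (C (algebraMap ℚ[X] (RatFunc ℚ) X)) := by
        rw [rho_C_alg, map_X]
      rw [h3]
      exact hr _
    rintro _ ⟨r, rfl⟩
    rw [← RatFunc.num_div_denom r, map_div₀, jj_algebraMap, jj_algebraMap]
    exact div_mem (hjp _) (hjp _)
  obtain ⟨y, hy, w, hw, hyw⟩ := Subfield.mem_closure_iff.1 (hsub hz)
  rw [Subring.closure_eq] at hy hw
  obtain ⟨a, rfl⟩ := hy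
  obtain ⟨d, rfl⟩ := hw
  by_cases hd : rho h d = 0
  · refine ⟨0, 1, by simp, ?_⟩
    rw [← hyw, hd]
    simp
  · exact ⟨a, d, hd, hyw.symm⟩

/-- Conics over `ℚ(t, x)` with a point over the ultrapower have a point. -/
theorem iso_L0 (hφ : ND φ) (A B : St φ (RatFunc ℚ)) (hA : A ∈ L0 hφ.np) (hB : B ∈ L0 hφ.np)
    (hA0 : A ≠ 0) (hB0 : B ≠ 0) (h : Iso A B) :
    ∃ x y z : St φ (RatFunc ℚ), x ∈ L0 hφ.np ∧ y ∈ L0 hφ.np ∧ z ∈ L0 hφ.np ∧
      ¬ (x = 0 ∧ y = 0 ∧ z = 0) ∧ z ^ 2 = A * x ^ 2 + B * y ^ 2 := by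
  obtain ⟨a, d, hd, ha⟩ := L0_frac hφ.np A hA
  obtain ⟨b, e, he, hb⟩ := L0_frac hφ.np B hB
  have h1 : rho hφ.np (a * d) = (rho hφ.np d) ^ 2 * A := by
    rw [ha, map_mul]
    field_simp
  have h2 : rho hφ.np (b * e) = (rho hφ.np e) ^ 2 * B := by
    rw [hb, map_mul]
    field_simp
  have h3 : Iso (rho hφ.np (a * d)) (rho hφ.np (b * e)) := by
    rw [h1, h2]
    exact ((h.mul_sq he).symm.mul_sq hd).symm
  have ha0 : a * d ≠ 0 := by
    intro h0
    rw [h0, map_zero] at h1
    exact mul_ne_zero (pow_ne_zero 2 hd) hA0 h1.symm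
  have hb0 : b * e ≠ 0 := by
    intro h0
    rw [h0, map_zero] at h2
    exact mul_ne_zero (pow_ne_zero 2 he) hB0 h2.symm
  obtain ⟨x, y, z, h0, hxyz⟩ := stageA hφ _ _ ha0 hb0 h3
  refine ⟨rho hφ.np (d * x), rho hφ.np (e * y), rho hφ.np z, rho_mem_L0 _ _, rho_mem_L0 _ _,
    rho_mem_L0 _ _, ?_, ?_⟩
  · rintro ⟨e1, e2, e3⟩
    rw [map_mul] at e1 e2
    have e1' := (mul_eq_zero.1 e1).resolve_left hd
    have e2' := (mul_eq_zero.1 e2).resolve_left he
    rw [map_eq_zero_iff _ (rho_injective hφ.np)] at e1' e2' e3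
    exact h0 ⟨e1', e2', e3⟩
  · have h4 := congrArg (rho hφ.np) hxyz
    rw [map_add, map_mul _ (a * d), map_mul _ (b * e), h1, h2, map_pow, map_pow, map_pow] at h4
    rw [map_mul, map_mul, h4]
    ring

/-- Elements algebraic over `L0` lie in `L0`. -/
theorem mem_L0_of_sq (hφ : ND φ) (A z : St φ (RatFunc ℚ)) (hA : A ∈ L0 hφ.np)
    (hz : z ^ 2 = A) : z ∈ L0 hφ.np := by
  obtain ⟨r, rfl⟩ := hA
  obtain ⟨s, hs⟩ := relAlg hasDZ_ratFunc hφ z (X ^ 2 - C r) (X_pow_sub_C_ne_zero two_pos r) (by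
    rw [Polynomial.map_sub, Polynomial.map_pow, map_X, map_C, eval_sub, eval_pow, eval_X, eval_C,
      hz, sub_self])
  exact ⟨s, hs⟩

theorem two_ne_zero_St : (2 : St φ (RatFunc ℚ)) ≠ 0 := by
  rw [← map_ofNat (cst φ (RatFunc ℚ)) 2, Ne, map_eq_zero]
  exact two_ne_zero

/-- The parametrisation of a conic. -/
theorem conic_param (hφ : ND φ) (A B U V : St φ (RatFunc ℚ)) (hA : A ∈ L0 hφ.np)
    (hB : B ∈ L0 hφ.np) (hA0 : A ≠ 0) (hUV : V ^ 2 = A * U ^ 2 + B) :
    ∃ s, U ∈ Ls s ∧ V ∈ Ls s := by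
  have h2 : (2 : St φ (RatFunc ℚ)) ≠ 0 := two_ne_zero_St
  by_cases hB0 : B = 0
  · by_cases hU0 : U = 0
    · rw [hB0, hU0] at hUV
      have hV0 : V = 0 := by
        apply pow_eq_zero_iff two_ne_zero |>.1
        rw [hUV]
        ring
      exact ⟨0, by rw [hU0]; exact zero_mem _, by rw [hV0]; exact zero_mem _⟩
    · have hlam : V / U ∈ L0 hφ.np := by
        refine mem_L0_of_sq hφ A _ hA ?_
        rw [div_pow, hUV, hB0]
        field_simp
        ring
      refine ⟨U, mem_Ls U, ?_⟩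
      have h3 : V = V / U * U := by field_simp
      rw [h3]
      exact mul_mem (L0_le hφ.np U hlam) (mem_Ls U)
  · have hiso : Iso A B := ⟨U, 1, V, fun h => one_ne_zero h.2.1, by rw [hUV]; ring⟩
    obtain ⟨x, y, z, hx, hy, hz, h0, hxyz⟩ := iso_L0 hφ A B hA hB hA0 hB0 hiso
    by_cases hy0 : y = 0
    · -- `A` is a square
      rw [hy0] at hxyz h0
      have hx0 : x ≠ 0 := by
        intro hx0
        rw [hx0] at hxyz
        have hz0 : z = 0 := by
          apply pow_eq_zero_iff two_ne_zero |>.1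
          rw [hxyz]
          ring
        exact h0 ⟨hx0, rfl, hz0⟩
      set g := z / x with hg
      have hgA : g ^ 2 = A := by
        rw [hg, div_pow, hxyz]
        field_simp
        ring
      have hgL : g ∈ L0 hφ.np := div_mem hz hx
      have hg0 : g ≠ 0 := by
        intro hg0
        rw [hg0] at hgA
        exact hA0 (by rw [← hgA]; ring)
      set s := V - g * U with hs
      have hprod : s * (V + g * U) = B := by
        rw [hs]
        linear_combination hUV - U ^ 2 * hgA
      have hs0 : s ≠ 0 := by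
        intro hs0
        rw [hs0, zero_mul] at hprod
        exact hB0 hprod.symm
      have e1 : V + g * U = B / s := by
        rw [eq_div_iff hs0, mul_comm]
        exact hprod
      have hsm := mem_Ls s
      have hBm := L0_le hφ.np s hB
      have hgm := L0_le hφ.np s hgL
      have h2m : (2 : St φ (RatFunc ℚ)) ∈ Ls s := by
        have := natCast_mem (Ls s) 2
        exact_mod_cast this
      refine ⟨s, ?_, ?_⟩
      · have e2 : U = (B / s - s) / (2 * g) := by
          rw [eq_div_iff (mul_ne_zero h2 hg0), ← e1, hs]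
          ring
        rw [e2]
        exact div_mem (sub_mem (div_mem hBm hsm) hsm) (mul_mem h2m hgm)
      · have e2 : V = (B / s + s) / 2 := by
          rw [eq_div_iff h2, ← e1, hs]
          ring
        rw [e2]
        exact div_mem (add_mem (div_mem hBm hsm) hsm) h2m
    · -- an affine point
      set x0 := x / y with hx0
      set z0 := z / y with hz0
      have hx0L : x0 ∈ L0 hφ.np := div_mem hx hy
      have hz0L : z0 ∈ L0 hφ.np := div_mem hz hy
      have hpt : z0 ^ 2 = A * x0 ^ 2 + B := by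
        rw [hz0, hx0, div_pow, div_pow, hxyz]
        field_simp
      by_cases hUx : U = x0
      · have hV : V ∈ L0 hφ.np := by
          refine mem_L0_of_sq hφ (z0 ^ 2) V (pow_mem hz0L 2) ?_
          rw [hUV, hUx, hpt]
        exact ⟨0, L0_le hφ.np 0 (by rw [hUx]; exact hx0L), L0_le hφ.np 0 hV⟩
      · have hU0 : U - x0 ≠ 0 := sub_ne_zero.2 hUx
        set s := (V - z0) / (U - x0) with hs
        have hsV : V = z0 + s * (U - x0) := by
          rw [hs]
          field_simp
          ring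
        have hrel : s * (V + z0) = A * (U + x0) := by
          apply mul_right_cancel₀ hU0
          have e1 : s * (U - x0) = V - z0 := by rw [hsV]; ring
          linear_combination (V + z0) * e1 + hUV - hpt
        have hrel2 : U * (s ^ 2 - A) = s ^ 2 * x0 - 2 * s * z0 + A * x0 := by
          rw [hsV] at hrel
          linear_combination hrel
        have hsm := mem_Ls s
        have hAm := L0_le hφ.np s hA
        have hxm := L0_le hφ.np s hx0L
        have hzm := L0_le hφ.np s hz0L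
        have h2m : (2 : St φ (RatFunc ℚ)) ∈ Ls s := by
          have := natCast_mem (Ls s) 2
          exact_mod_cast this
        have hsA : s ^ 2 - A ≠ 0 := by
          intro h0
          have hsA' : s ^ 2 = A := sub_eq_zero.1 h0
          rw [h0, mul_zero] at hrel2
          have hs0 : s ≠ 0 := by
            intro hs0
            rw [hs0] at hsA'
            exact hA0 (by rw [← hsA']; ring)
          have e1 : z0 = s * x0 := by
            apply mul_left_cancel₀ (mul_ne_zero h2 hs0)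
            linear_combination hrel2 - x0 * hsA'
          apply hB0
          have e2 := hpt
          rw [e1] at e2
          linear_combination -e2 + x0 ^ 2 * hsA'
        have hUm : U ∈ Ls s := by
          have e1 : U = (s ^ 2 * x0 - 2 * s * z0 + A * x0) / (s ^ 2 - A) := by
            rw [eq_div_iff hsA]
            exact hrel2
          rw [e1]
          exact div_mem (add_mem (sub_mem (mul_mem (pow_mem hsm 2) hxm)
            (mul_mem (mul_mem h2m hsm) hzm)) (mul_mem hAm hxm)) (sub_mem (pow_mem hsm 2) hAm)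
        refine ⟨s, hUm, ?_⟩
        rw [hsV]
        exact add_mem hzm (mul_mem hsm (sub_mem hUm hxm))

end Pool.Agent.OneQ
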