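import Mathlib
import Pool.Agent.OneQ.Param

/-!
# Points on arbitrary conics, and the dichotomy
-/

open Polynomial Filter

noncomputable section

open scoped Classical

namespace Pool.Agent.OneQ

variable {φ : Ultrafilter ℤ}

theorem ofNat_mem_L0 (h : NP φ) (n : ℕ) : (n : St φ (RatFunc ℚ)) ∈ L0 h := natCast_mem _ n

/-- The case of a nonzero leading coefficient. -/
theorem conic_lead (hφ : ND φ) (a b c d e f u v : St φ (RatFunc ℚ)) (ha : a ∈ L0 hφ.np)
    (hb : b ∈ L0 hφ.np) (hc : c ∈ L0 hφ.np) (hd : d ∈ L0 hφ.np) (he : e ∈ L0 hφ.np)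
    (hf : f ∈ L0 hφ.np) (ha0 : a ≠ 0)
    (h : a * u ^ 2 + b * (u * v) + c * v ^ 2 + d * u + e * v + f = 0) :
    ∃ s, u ∈ Ls s ∧ v ∈ Ls s := by
  have h2 : (2 : St φ (RatFunc ℚ)) ≠ 0 := two_ne_zero_St
  have h2L : (2 : St φ (RatFunc ℚ)) ∈ L0 hφ.np := by
    have := ofNat_mem_L0 hφ.np 2
    exact_mod_cast this
  have h4L : (4 : St φ (RatFunc ℚ)) ∈ L0 hφ.np := by
    have := ofNat_mem_L0 hφ.np 4
    exact_mod_cast this
  set U := 2 * a * u + b * v + d with hU
  set D := b ^ 2 - 4 * a * c with hD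
  set E := 2 * b * d - 4 * a * e with hE
  set G := d ^ 2 - 4 * a * f with hG
  have hDL : D ∈ L0 hφ.np := sub_mem (pow_mem hb 2) (mul_mem (mul_mem h4L ha) hc)
  have hEL : E ∈ L0 hφ.np := sub_mem (mul_mem (mul_mem h2L hb) hd) (mul_mem (mul_mem h4L ha) he)
  have hGL : G ∈ L0 hφ.np := sub_mem (pow_mem hd 2) (mul_mem (mul_mem h4L ha) hf)
  have hq : U ^ 2 = D * v ^ 2 + E * v + G := by
    rw [hU, hD, hE, hG]
    linear_combination 4 * a * h
  have hu : ∀ s, U ∈ Ls s → v ∈ Ls s → u ∈ Ls s := by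
    intro s hUs hvs
    have e1 : u = (U - b * v - d) / (2 * a) := by
      rw [eq_div_iff (mul_ne_zero h2 ha0), hU]
      ring
    rw [e1]
    exact div_mem (sub_mem (sub_mem hUs (mul_mem (L0_le hφ.np s hb) hvs)) (L0_le hφ.np s hd))
      (mul_mem (L0_le hφ.np s h2L) (L0_le hφ.np s ha))
  by_cases hD0 : D = 0
  · by_cases hE0 : E = 0
    · have hUL : U ∈ L0 hφ.np := mem_L0_of_sq hφ G U hGL (by rw [hq, hD0, hE0]; ring)
      exact ⟨v, hu v (L0_le hφ.np v hUL) (mem_Ls v), mem_Ls v⟩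
    · have hv : v = (U ^ 2 - G) / E := by
        rw [eq_div_iff hE0, hq, hD0]
        ring
      have hvm : v ∈ Ls U := by
        rw [hv]
        exact div_mem (sub_mem (pow_mem (mem_Ls U) 2) (L0_le hφ.np U hGL)) (L0_le hφ.np U hEL)
      exact ⟨U, hu U (mem_Ls U) hvm, hvm⟩
  · have h4 : (4 : St φ (RatFunc ℚ)) ≠ 0 := by
      have : (4 : St φ (RatFunc ℚ)) = 2 * 2 := by norm_num
      rw [this]
      exact mul_ne_zero h2 h2
    obtain ⟨s, hUs, hVs⟩ := conic_param hφ (4 * D) (E ^ 2 - 4 * D * G) U (2 * D * v + E)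
      (mul_mem h4L hDL) (sub_mem (pow_mem hEL 2) (mul_mem (mul_mem h4L hDL) hGL))
      (mul_ne_zero h4 hD0) (by linear_combination -(4 * D) * hq)
    have hvs : v ∈ Ls s := by
      have e1 : v = (2 * D * v + E - E) / (2 * D) := by
        rw [eq_div_iff (mul_ne_zero h2 hD0)]
        ring
      rw [e1]
      exact div_mem (sub_mem hVs (L0_le hφ.np s hEL)) (mul_mem (L0_le hφ.np s h2L)
        (L0_le hφ.np s hDL))
    exact ⟨s, hu s hUs hvs, hvs⟩

/-- **Arbitrary conics.** -/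
theorem conic_gen (hφ : ND φ) (a b c d e f u v : St φ (RatFunc ℚ)) (ha : a ∈ L0 hφ.np)
    (hb : b ∈ L0 hφ.np) (hc : c ∈ L0 hφ.np) (hd : d ∈ L0 hφ.np) (he : e ∈ L0 hφ.np)
    (hf : f ∈ L0 hφ.np) (hne : ¬ (a = 0 ∧ b = 0 ∧ c = 0 ∧ d = 0 ∧ e = 0 ∧ f = 0))
    (h : a * u ^ 2 + b * (u * v) + c * v ^ 2 + d * u + e * v + f = 0) :
    ∃ s, u ∈ Ls s ∧ v ∈ Ls s := by
  by_cases ha0 : a = 0
  · by_cases hc0 : c = 0
    · rw [ha0, hc0] at h
      have h' : u * (b * v + d) = -(e * v + f) := by linear_combination h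
      by_cases hbv : b * v + d = 0
      · rw [hbv, mul_zero] at h'
        have h'' : e * v + f = 0 := by linear_combination h'
        by_cases hb0 : b = 0
        · have hd0 : d = 0 := by
            rw [hb0] at hbv
            linear_combination hbv
          have he0 : e ≠ 0 := by
            intro he0
            rw [he0] at h''
            exact hne ⟨ha0, hb0, hc0, hd0, he0, by linear_combination h''⟩
          have hv : v = -f / e := by
            rw [eq_div_iff he0]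
            linear_combination h''
          refine ⟨u, mem_Ls u, L0_le hφ.np u ?_⟩
          rw [hv]
          exact div_mem (neg_mem hf) he
        · have hv : v = -d / b := by
            rw [eq_div_iff hb0]
            linear_combination hbv
          refine ⟨u, mem_Ls u, L0_le hφ.np u ?_⟩
          rw [hv]
          exact div_mem (neg_mem hd) hb
      · refine ⟨v, ?_, mem_Ls v⟩
        have hu : u = -(e * v + f) / (b * v + d) := by
          rw [eq_div_iff hbv]
          exact h'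
        rw [hu]
        have hbm := L0_le hφ.np v hb
        have hdm := L0_le hφ.np v hd
        have hem := L0_le hφ.np v he
        have hfm := L0_le hφ.np v hf
        exact div_mem (neg_mem (add_mem (mul_mem hem (mem_Ls v)) hfm))
          (add_mem (mul_mem hbm (mem_Ls v)) hdm)
    · obtain ⟨s, h1, h2⟩ := conic_lead hφ c b a e d f v u hc hb ha he hd hf hc0
        (by linear_combination h)
      exact ⟨s, h2, h1⟩
  · exact conic_lead hφ a b c d e f u v ha hb hc hd he hf ha0 h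

/-- Values of polynomials at elements of `L0`. -/
theorem eval_mem_L0 (hφ : ND φ) {σ : Type*} (P : MvPolynomial σ (RatFunc ℚ))
    (v : σ → St φ (RatFunc ℚ)) (hv : ∀ i, v i ∈ L0 hφ.np) :
    P.eval₂ (cst φ (RatFunc ℚ)) v ∈ L0 hφ.np := by
  induction P using MvPolynomial.induction_on with
  | C a =>
    rw [MvPolynomial.eval₂_C]
    have : cst φ (RatFunc ℚ) a = jp φ (RatFunc ℚ) (C a) := by
      rw [jp_apply]
      simp only [cst, RingHom.comp_apply]
      congr 1
      funext n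
      simp
    rw [this]
    exact jp_mem_L0 _ _
  | add p q hp hq =>
    rw [MvPolynomial.eval₂_add]
    exact add_mem hp hq
  | mul_X p i hp =>
    rw [MvPolynomial.eval₂_mul, MvPolynomial.eval₂_X]
    exact mul_mem hp (hv i)

/-- Values of polynomials at germs. -/
theorem eval_toSt {K : Type*} [Field K] {σ : Type*} (P : MvPolynomial σ K) (v : σ → ℤ → K) :
    P.eval₂ (cst φ K) (fun i => toSt φ K (v i)) = toSt φ K fun n => P.eval fun i => v i n := by
  have h1 : MvPolynomial.eval₂Hom (cst φ K) (fun i => toSt φ K (v i)) =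
      (toSt φ K).comp (RingHom.pi fun n : ℤ => MvPolynomial.eval fun i => v i n) := by
    apply MvPolynomial.ringHom_ext
    · intro a
      rw [MvPolynomial.eval₂Hom_C, RingHom.comp_apply, cst, RingHom.comp_apply]
      congr 1
      funext n
      change a = MvPolynomial.eval (fun i => v i n) (MvPolynomial.C a)
      rw [MvPolynomial.eval_C]
    · intro i
      rw [MvPolynomial.eval₂Hom_X', RingHom.comp_apply]
      congr 1
      funext n
      change v i n = MvPolynomial.eval (fun i => v i n) (MvPolynomial.X i)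
      rw [MvPolynomial.eval_X]
  exact RingHom.congr_fun h1 P

/-- **Two free witnesses on a conic.** -/
theorem dich_conic (m : ℕ) (ψ : QF (RatFunc ℚ) (Fin m ⊕ Fin 3))
    (F : Fin m → (RatFunc ℚ)[X][X]) (hF : ∀ i, F i ≠ 0)
    (q : Fin 6 → MvPolynomial (Fin m ⊕ Fin 1) (RatFunc ℚ))
    (h : ∀ (x : RatFunc ℚ) (y : Fin m → RatFunc ℚ) (u v : RatFunc ℚ),
      ψ.Holds (RingHom.id _) (Sum.elim y ![x, u, v]) →
      (∀ i, ((F i).map (evalRingHom x)).eval (y i) = 0) ∧
      (∃ j, (q j).eval (Sum.elim y ![x]) ≠ 0) ∧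
      (q 0).eval (Sum.elim y ![x]) * u ^ 2 + (q 1).eval (Sum.elim y ![x]) * (u * v) +
        (q 2).eval (Sum.elim y ![x]) * v ^ 2 + (q 3).eval (Sum.elim y ![x]) * u +
        (q 4).eval (Sum.elim y ![x]) * v + (q 5).eval (Sum.elim y ![x]) = 0)
    (hS : ¬ DZ {n : ℤ | ∃ (y : Fin m → RatFunc ℚ) (u v : RatFunc ℚ),
      ψ.Holds (RingHom.id _) (Sum.elim y ![(n : RatFunc ℚ), u, v])}) :
    {x : RatFunc ℚ | ¬ ∃ (y : Fin m → RatFunc ℚ) (u v : RatFunc ℚ),
      ψ.Holds (RingHom.id _) (Sum.elim y ![x, u, v])}.Finite := by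
  obtain ⟨φ, hTφ, hφ⟩ := exists_ultra hS
  have hch : ∀ n : ℤ, ∃ (y : Fin m → RatFunc ℚ) (u v : RatFunc ℚ),
      (∃ (y : Fin m → RatFunc ℚ) (u v : RatFunc ℚ),
        ψ.Holds (RingHom.id _) (Sum.elim y ![(n : RatFunc ℚ), u, v])) →
      ψ.Holds (RingHom.id _) (Sum.elim y ![(n : RatFunc ℚ), u, v]) := by
    intro n
    by_cases hn : ∃ (y : Fin m → RatFunc ℚ) (u v : RatFunc ℚ),
        ψ.Holds (RingHom.id _) (Sum.elim y ![(n : RatFunc ℚ), u, v])
    · obtain ⟨y, u, v, hyu⟩ := hn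
      exact ⟨y, u, v, fun _ => hyu⟩
    · exact ⟨0, 0, 0, fun h => absurd h hn⟩
  choose y u v hyuv using hch
  have hev : ∀ᶠ n : ℤ in (φ : Filter ℤ),
      ψ.Holds (RingHom.id _) (Sum.elim (y n) ![(n : RatFunc ℚ), u n, v n]) :=
    mem_of_superset hTφ fun n hn => hyuv n hn
  -- the algebraic witnesses
  have hyL : ∀ i, toSt φ (RatFunc ℚ) (fun n => y n i) ∈ L0 hφ.np := by
    intro i
    obtain ⟨r, hr⟩ := witness_mem hasDZ_ratFunc hφ (F i) (hF i) (fun n => y n i)
      (hev.mono fun n hn => (h _ _ _ _ hn).1 i)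
    exact ⟨r, hr⟩
  -- the conic
  let vec : Fin m ⊕ Fin 1 → ℤ → RatFunc ℚ := Sum.elim (fun i n => y n i) (fun _ n => (n : RatFunc ℚ))
  have hvec : ∀ n : ℤ, (fun i => vec i n) = Sum.elim (y n) ![(n : RatFunc ℚ)] := by
    intro n
    funext i
    rcases i with i | i
    · rfl
    · fin_cases i
      rfl
  have hvecL : ∀ i, toSt φ (RatFunc ℚ) (vec i) ∈ L0 hφ.np := by
    rintro (i | i)
    · exact hyL i
    · have : toSt φ (RatFunc ℚ) (vec (Sum.inr i)) = jp φ (RatFunc ℚ) X := by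
        rw [jp_apply]
        congr 1
        funext n
        simp [vec]
      rw [this]
      exact jp_mem_L0 _ _
  let Q : Fin 6 → St φ (RatFunc ℚ) := fun j =>
    (q j).eval₂ (cst φ (RatFunc ℚ)) (fun i => toSt φ (RatFunc ℚ) (vec i))
  have hQL : ∀ j, Q j ∈ L0 hφ.np := fun j => eval_mem_L0 hφ (q j) _ hvecL
  have hQt : ∀ j, Q j = toSt φ (RatFunc ℚ) fun n : ℤ =>
      (q j).eval (Sum.elim (y n) ![(n : RatFunc ℚ)]) := by
    intro j
    simp only [Q]
    rw [eval_toSt]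
    congr 1
    funext n
    rw [hvec]
  have hQne : ¬ (Q 0 = 0 ∧ Q 1 = 0 ∧ Q 2 = 0 ∧ Q 3 = 0 ∧ Q 4 = 0 ∧ Q 5 = 0) := by
    rintro ⟨h0, h1, h2, h3, h4, h5⟩
    rw [hQt, toSt_eq_zero] at h0 h1 h2 h3 h4 h5
    obtain ⟨n, hn0, hn1, hn2, hn3, hn4, hn5, hn⟩ :=
      (h0.and (h1.and (h2.and (h3.and (h4.and (h5.and hev)))))).exists
    obtain ⟨j, hj⟩ := (h _ _ _ _ hn).2.1
    fin_cases j
    · exact hj hn0
    · exact hj hn1
    · exact hj hn2
    · exact hj hn3
    · exact hj hn4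
    · exact hj hn5
  have hQeq : Q 0 * toSt φ _ u ^ 2 + Q 1 * (toSt φ _ u * toSt φ _ v) + Q 2 * toSt φ _ v ^ 2 +
      Q 3 * toSt φ _ u + Q 4 * toSt φ _ v + Q 5 = 0 := by
    rw [hQt, hQt, hQt, hQt, hQt, hQt]
    simp only [← map_pow, ← map_mul, ← map_add]
    rw [toSt_eq_zero]
    exact hev.mono fun n hn => (h _ _ _ _ hn).2.2
  obtain ⟨s, hus, hvs⟩ := conic_gen hφ (Q 0) (Q 1) (Q 2) (Q 3) (Q 4) (Q 5) _ _ (hQL 0) (hQL 1)
    (hQL 2) (hQL 3) (hQL 4) (hQL 5) hQne hQeq
  -- conclusion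
  let e : Fin m ⊕ Fin 3 → Option (Fin m ⊕ Fin 2) :=
    Sum.elim (fun i => some (Sum.inl i)) ![none, some (Sum.inr 0), some (Sum.inr 1)]
  let w : Fin m ⊕ Fin 2 → ℤ → RatFunc ℚ := Sum.elim (fun i n => y n i) ![u, v]
  have hcomp : ∀ (x : RatFunc ℚ) (z : Fin m ⊕ Fin 2 → RatFunc ℚ),
      (fun i : Option (Fin m ⊕ Fin 2) => Option.elim i x z) ∘ e =
        Sum.elim (fun i => z (Sum.inl i)) ![x, z (Sum.inr 0), z (Sum.inr 1)] := by
    intro x z
    funext i
    rcases i with i | i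
    · rfl
    · fin_cases i <;> rfl
  have hfin := cofinite_of_rational hasDZ_ratFunc hφ (ψ.rename e) w
    (by
      refine hev.mono fun n hn => ?_
      rw [QF.holds_rename]
      have := hcomp (n : RatFunc ℚ) (fun j => w j n)
      rw [this]
      exact hn) s
    (by
      rintro (i | i)
      · exact L0_le hφ.np s (hyL i)
      · fin_cases i
        · exact hus
        · exact hvs)
  refine hfin.subset fun x hx hx' => hx ?_
  obtain ⟨z, hz⟩ := hx'
  rw [QF.holds_rename, hcomp] at hz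
  exact ⟨_, _, _, hz⟩

end Pool.Agent.OneQ
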